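import Mathlib

set_option autoImplicit false

/-! Combinatorial set-up: a countable set `NN`, branches, marks.
(Adapted from `Pool.Agent.CpTwo.Basic` by helper891.) -/

namespace CpM

open Set

/-- the Cantor set -/
abbrev C := ℕ → Bool

/-- prefix of length `n` -/
def pr (z : C) (n : ℕ) : List Bool := (List.range n).map z

theorem length_pr (z : C) (n : ℕ) : (pr z n).length = n := by simp [pr]

theorem pr_eq_iff {z z' : C} {n : ℕ} : pr z n = pr z' n ↔ ∀ i < n, z i = z' i := by
  unfold pr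
  rw [List.map_inj_left]
  simp

theorem pr_eq_mono {z z' : C} {n m : ℕ} (h : pr z n = pr z' n) (hm : m ≤ n) : pr z m = pr z' m := by
  rw [pr_eq_iff] at h ⊢
  exact fun i hi => h i (lt_of_lt_of_le hi hm)

/-- `s` is a prefix of `z` -/
def Pfx (s : List Bool) (z : C) : Prop := s = pr z s.length

theorem pfx_pr (z : C) (n : ℕ) : Pfx (pr z n) z := by
  unfold Pfx; rw [length_pr]

theorem pfx_nil (z : C) : Pfx [] z := rfl

theorem Pfx.congr {s : List Bool} {z z' : C} {n : ℕ} (h : pr z n = pr z' n) (hn : s.length ≤ n)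
    (hs : Pfx s z) : Pfx s z' := by
  unfold Pfx at *
  rw [hs, length_pr]
  exact pr_eq_mono h hn

/-- two different points have a bounded common prefix -/
theorem exists_bound {z z' : C} (h : z ≠ z') : ∃ k, ∀ s : List Bool, Pfx s z → Pfx s z' → s.length ≤ k := by
  obtain ⟨k, hk⟩ := Function.ne_iff.1 h
  refine ⟨k, fun s h1 h2 => ?_⟩
  by_contra hlt
  push Not at hlt
  have h3 : pr z s.length = pr z' s.length := by rw [← h1]; exact h2
  exact hk (pr_eq_iff.1 h3 k hlt)

/-- the countable part of the space -/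
inductive NN
  | inf : NN
  | x : List Bool → NN
  | iso : List Bool → List Bool → NN
  | pt : ℕ → NN
  | bi : ℕ → List Bool → NN

/-- code -/
def NN.code : NN → Option (List Bool ⊕ (List Bool × List Bool)) ⊕ (ℕ ⊕ (ℕ × List Bool))
  | .inf => Sum.inl none
  | .x s => Sum.inl (some (Sum.inl s))
  | .iso s r => Sum.inl (some (Sum.inr (s, r)))
  | .pt i => Sum.inr (Sum.inl i)
  | .bi i r => Sum.inr (Sum.inr (i, r))

theorem NN.code_injective : Function.Injective NN.code := by
  intro a b h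
  cases a <;> cases b <;> simp_all [NN.code]

instance : Countable NN := NN.code_injective.countable
instance : Nonempty NN := ⟨.inf⟩

noncomputable instance : DecidableEq NN := Classical.decEq _

/-- the non isolated points -/
inductive YY
  | inf : YY
  | x : List Bool → YY
  | pt : ℕ → YY

/-- code -/
def YY.code : YY → Option (List Bool ⊕ ℕ)
  | .inf => none
  | .x s => some (Sum.inl s)
  | .pt i => some (Sum.inr i)

theorem YY.code_injective : Function.Injective YY.code := by
  intro a b h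
  cases a <;> cases b <;> simp_all [YY.code]

instance : Countable YY := YY.code_injective.countable
instance : Nonempty YY := ⟨.inf⟩

/-- the block set attached to `z` -/
def hz (z : C) : Set NN := {q | match q with | .x s => Pfx s z | .iso s _ => Pfx s z | _ => False}

/-- the branch of `z` in the block `s` -/
def bz (s : List Bool) (z : C) : Set NN := {q | ∃ r, q = .iso s r ∧ Pfx r z}

/-- the branch of `z` in the extra block `i` -/
def tz (i : ℕ) (z : C) : Set NN := {q | ∃ r, q = .bi i r ∧ Pfx r z}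

/-- the block `s` -/
def blk (s : List Bool) : Set NN := {q | ∃ r, q = .iso s r}

/-- the extra block `i` -/
def tblk (i : ℕ) : Set NN := {q | ∃ r, q = .bi i r}

/-- the old part -/
def old : Set NN := {q | match q with | .pt _ => False | .bi _ _ => False | _ => True}

/-- the non isolated points -/
def pnt : YY → NN
  | .inf => .inf
  | .x s => .x s
  | .pt i => .pt i

/-- domain -/
def dom : YY → Set NN
  | .inf => old
  | .x s => blk s
  | .pt i => tblk i

/-- generating sets -/
def beta : YY → C → Set NN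
  | .inf, z => hz z
  | .x s, z => bz s z
  | .pt i, z => tz i z

/-- length bound of a point -/
def NN.L : NN → ℕ
  | .inf => 0
  | .x s => s.length
  | .iso s r => max s.length r.length
  | .pt _ => 0
  | .bi _ r => r.length

theorem beta_congr {y : YY} {q : NN} {z z' : C} {n : ℕ} (h : pr z n = pr z' n)
    (hn : q.L ≤ n) (hq : q ∈ beta y z) : q ∈ beta y z' := by
  cases y with
  | inf =>
    cases q with
    | inf => exact hq.elim
    | x s => exact Pfx.congr h hn hq
    | iso s r => exact Pfx.congr h (le_trans (le_max_left _ _) hn) hq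
    | pt i => exact hq.elim
    | bi i r => exact hq.elim
  | x s =>
    obtain ⟨r, rfl, hr⟩ := hq
    exact ⟨r, rfl, Pfx.congr h (le_trans (le_max_right _ _) hn) hr⟩
  | pt i =>
    obtain ⟨r, rfl, hr⟩ := hq
    exact ⟨r, rfl, Pfx.congr h hn hr⟩

theorem bz_infinite (s : List Bool) (z : C) : (bz s z).Infinite := by
  refine Set.infinite_of_injective_forall_mem (f := fun n : ℕ => NN.iso s (pr z n)) ?_ ?_
  · intro a b h
    simp only [NN.iso.injEq, true_and] at h
    have := congrArg List.length h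
    simpa [length_pr] using this
  · intro n
    exact ⟨pr z n, rfl, pfx_pr z n⟩

theorem tz_infinite (i : ℕ) (z : C) : (tz i z).Infinite := by
  refine Set.infinite_of_injective_forall_mem (f := fun n : ℕ => NN.bi i (pr z n)) ?_ ?_
  · intro a b h
    simp only [NN.bi.injEq, true_and] at h
    have := congrArg List.length h
    simpa [length_pr] using this
  · intro n
    exact ⟨pr z n, rfl, pfx_pr z n⟩

theorem bz_inter_finite {s : List Bool} {z z' : C} (h : z ≠ z') : (bz s z ∩ bz s z').Finite := by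
  obtain ⟨k, hk⟩ := exists_bound h
  refine ((Set.finite_Iic k).image (fun n => NN.iso s (pr z n))).subset ?_
  rintro q ⟨⟨r, rfl, hr⟩, ⟨r', h', hr'⟩⟩
  simp only [NN.iso.injEq, true_and] at h'
  subst h'
  exact ⟨r.length, hk r hr hr', by simp only [NN.iso.injEq, true_and]; exact hr.symm⟩

theorem tz_inter_finite {i : ℕ} {z z' : C} (h : z ≠ z') : (tz i z ∩ tz i z').Finite := by
  obtain ⟨k, hk⟩ := exists_bound h
  refine ((Set.finite_Iic k).image (fun n => NN.bi i (pr z n))).subset ?_
  rintro q ⟨⟨r, rfl, hr⟩, ⟨r', h', hr'⟩⟩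
  simp only [NN.bi.injEq, true_and] at h'
  subst h'
  exact ⟨r.length, hk r hr hr', by simp only [NN.bi.injEq, true_and]; exact hr.symm⟩

/-- marks -/
structure Mark where
  /-- target -/
  y : YY
  /-- sequence -/
  Q : Set NN

/-- valid marks at `z` -/
def Valid (z : C) (M : Mark) : Prop :=
  M.Q.Infinite ∧ M.Q ⊆ beta M.y z ∧ (∀ q ∈ M.Q, ∃ s r, q = NN.iso s r) ∧
    (∀ s, M.y = .inf → (M.Q ∩ blk s).Finite) ∧ (∀ s, M.y = .x s → Pfx s z)

theorem Valid.ne_pt {z : C} {M : Mark} (h : Valid z M) (i : ℕ) : M.y ≠ .pt i := by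
  intro hy
  obtain ⟨q, hq⟩ := h.1.nonempty
  have h1 := h.2.1 hq
  rw [hy] at h1
  obtain ⟨r, rfl, _⟩ := h1
  obtain ⟨s, r', h'⟩ := h.2.2.1 _ hq
  cases h'

theorem Valid.subset_dom {z : C} {M : Mark} (h : Valid z M) : M.Q ⊆ dom M.y := by
  intro q hq
  have h2 := h.2.1 hq
  cases hy : M.y with
  | inf =>
    obtain ⟨s, r, rfl⟩ := h.2.2.1 _ hq
    trivial
  | x s =>
    rw [hy] at h2
    obtain ⟨r, rfl, _⟩ := h2
    exact ⟨r, rfl⟩
  | pt i => exact absurd hy (h.ne_pt i)

theorem Valid.inter_finite {z z' : C} {M : Mark} (h : Valid z M) (hz' : z' ≠ z) :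
    (M.Q ∩ beta M.y z').Finite := by
  have h0 := h
  obtain ⟨h1, h2, h3, h4, h5⟩ := h
  cases hy : M.y with
  | inf =>
    rw [hy] at h2
    obtain ⟨k, hk⟩ := exists_bound hz'
    have hf : (⋃ n ∈ Set.Iic k, (M.Q ∩ blk (pr z n))).Finite :=
      (Set.finite_Iic k).biUnion fun n _ => h4 _ hy
    refine hf.subset ?_
    rintro q ⟨hq, hq'⟩
    obtain ⟨s, r, rfl⟩ := h3 q hq
    have hs : Pfx s z := h2 hq
    have hs' : Pfx s z' := hq'
    rw [Set.mem_iUnion₂]
    exact ⟨s.length, hk s hs' hs, hq, r, by rw [← hs]⟩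
  | x s =>
    rw [hy] at h2
    exact (bz_inter_finite (Ne.symm hz')).subset (Set.inter_subset_inter_left _ h2)
  | pt i => exact absurd hy (h0.ne_pt i)

/-- `f` respects the mark -/
def Resp (f : NN → Bool) (M : Mark) : Prop := {q | q ∈ M.Q ∧ f q ≠ f (pnt M.y)}.Finite

/-- the basic local condition -/
def G0 (f : NN → Bool) : Prop :=
  ∀ y, ∃ (J : Finset NN) (Z : Finset C), ∀ q ∈ dom y, f q ≠ f (pnt y) → q ∈ J ∨ ∃ z ∈ Z, q ∈ beta y z

theorem exists_mark {f : NN → Bool} (hf : G0 f) (z : C) :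
    ∃ M, Valid z M ∧ Resp f M := by
  by_cases hA : {n : ℕ | ∃ r, f (NN.iso (pr z n) r) = f NN.inf}.Infinite
  · have hr : ∀ n ∈ {n : ℕ | ∃ r, f (NN.iso (pr z n) r) = f NN.inf}, ∃ r, f (NN.iso (pr z n) r) = f NN.inf :=
      fun n hn => hn
    choose! r hr using hr
    refine ⟨⟨.inf, (fun n => NN.iso (pr z n) (r n)) '' {n : ℕ | ∃ r, f (NN.iso (pr z n) r) = f NN.inf}⟩,
      ⟨?_, ?_, ?_, ?_, ?_⟩, ?_⟩
    · refine hA.image ?_
      intro a _ b _ h
      simp only [NN.iso.injEq] at h
      have := congrArg List.length h.1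
      simpa [length_pr] using this
    · rintro q ⟨n, hn, rfl⟩
      exact pfx_pr z n
    · rintro q ⟨n, hn, rfl⟩
      exact ⟨_, _, rfl⟩
    · intro s _
      refine (Set.finite_singleton (NN.iso s (r s.length))).subset ?_
      rintro q ⟨⟨n, hn, rfl⟩, r', h'⟩
      simp only [NN.iso.injEq] at h'
      have h3 : n = s.length := by rw [← h'.1, length_pr]
      simp only [Set.mem_singleton_iff, NN.iso.injEq]
      exact ⟨h'.1, by rw [h3]⟩
    · intro s hs; simp at hs
    · refine Set.finite_empty.subset ?_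
      rintro q ⟨⟨n, hn, rfl⟩, hne⟩
      exact hne (hr n hn)
  · rw [Set.not_infinite] at hA
    obtain ⟨n, hn⟩ : ∃ n, n ∉ {n : ℕ | ∃ r, f (NN.iso (pr z n) r) = f NN.inf} := hA.exists_notMem
    have hn' : ∀ r, f (NN.iso (pr z n) r) ≠ f NN.inf := fun r h => hn ⟨r, h⟩
    refine ⟨⟨.x (pr z n), bz (pr z n) z⟩, ⟨bz_infinite _ _, le_refl _, ?_, by simp, ?_⟩, ?_⟩
    · rintro q ⟨r, rfl, _⟩; exact ⟨_, _, rfl⟩
    · intro s hs
      simp only [YY.x.injEq] at hs
      rw [← hs]; exact pfx_pr z n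
    · have hx : f (NN.x (pr z n)) ≠ f NN.inf := by
        intro hx
        obtain ⟨J, Z, hJ⟩ := hf (.x (pr z n))
        obtain ⟨z', hz'⟩ := Infinite.exists_notMem_finset Z
        have hfin : ((J : Set NN) ∪ ⋃ z'' ∈ Z, (bz (pr z n) z' ∩ bz (pr z n) z'')).Finite := by
          refine J.finite_toSet.union (Z.finite_toSet.biUnion fun z'' hz'' => bz_inter_finite ?_)
          rintro rfl; exact hz' hz''
        refine bz_infinite (pr z n) z' (hfin.subset ?_)
        rintro q ⟨r, rfl, hr⟩
        have hne : f (NN.iso (pr z n) r) ≠ f (pnt (.x (pr z n))) := by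
          change f (NN.iso (pr z n) r) ≠ f (NN.x (pr z n))
          rw [hx]; exact hn' r
        rcases hJ _ ⟨r, rfl⟩ hne with h1 | ⟨z'', h1, h2⟩
        · exact Or.inl h1
        · right
          rw [Set.mem_iUnion₂]
          exact ⟨z'', h1, ⟨r, rfl, hr⟩, h2⟩
      refine Set.finite_empty.subset ?_
      rintro q ⟨⟨r, rfl, hr⟩, hne⟩
      have h1 := hn' r
      change f (NN.iso (pr z n) r) ≠ f (NN.x (pr z n)) at hne
      rw [Bool.eq_not_of_ne h1, Bool.eq_not_of_ne hx] at hne
      exact hne rfl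

/-- functions on the countable part -/
abbrev Fn := NN → Bool

/-! ## The selection: marks and the set `TT` -/

/-- coded families of functions and of sequences of points -/
def Fam : Type := {F : C → Fn × (ℕ → C) // Continuous F}

/-- good families -/
def Good (τ : Fam) : Prop :=
  (∀ p, G0 (τ.1 p).1) ∧ ∀ D : Set C, Cardinal.mk D < Cardinal.continuum.{0} → ∃ p, ∀ k, (τ.1 p).2 k ∉ D

/-- good families -/
abbrev GFam := {τ : Fam // Good τ}

/-- index type -/
abbrev Iota := GFam ⊕ (GFam × C)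

/-- the candidates -/
def AA : Iota → C → Set C
  | Sum.inl τ, p => Set.range (τ.1.1 p).2
  | Sum.inr τc, p => {(τc.1.1.1 p).2 0}

open Classical in
/-- a mark at `z` respected by `f` -/
noncomputable def mkm (f : Fn) (z : C) : Mark :=
  if h : ∃ M, Valid z M ∧ Resp f M then Classical.choose h else ⟨.inf, ∅⟩

theorem mkm_spec {f : Fn} (hf : G0 f) (z : C) : Valid z (mkm f z) ∧ Resp f (mkm f z) := by
  unfold mkm
  rw [dif_pos (exists_mark hf z)]
  exact Classical.choose_spec (exists_mark hf z)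

open Classical in
/-- the choice -/
noncomputable def bs : Iota → C :=
  if h : ∃ b : Iota → C, ∀ i j, i ≠ j → Disjoint (AA i (b i)) (AA j (b j)) then Classical.choose h
  else fun _ => fun _ => false

/-- all marks -/
def EE : Set (C × Mark) :=
  {P | ∃ (τ : GFam) (k : ℕ), P.1 = (τ.1.1 (bs (Sum.inl τ))).2 k ∧
    P.2 = mkm (τ.1.1 (bs (Sum.inl τ))).1 P.1}

/-- the set `T` of unmarked points -/
def TT : Set C := {z | z ∉ Prod.fst '' EE}

/-! ## The space -/

/-- marked positions -/
def ones (s : C) : Set ℕ := {k | k % 2 = 1 ∧ s k = true}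

open Classical in
/-- the number of the block attached to `s` -/
noncomputable def kap (s : C) : ℕ := if (ones s).Finite then (ones s).ncard + 1 else 0

/-- the number of ones before `n` -/
noncomputable def cnt (s : C) (n : ℕ) : ℕ := (ones s ∩ Set.Iio n).ncard

/-- the space -/
def XX : Type := NN ⊕ TT

/-- points of the countable part -/
def il (q : NN) : XX := Sum.inl q
/-- the added points -/
def ir (t : TT) : XX := Sum.inr t

/-- restriction to the countable part -/
def rs (F : XX → Bool) : Fn := fun q => F (il q)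

/-- the algebra of clopen sets -/
def BB : Set (XX → Bool) :=
  {F | G0 (rs F) ∧ (∀ p ∈ EE, Resp (rs F) p.2) ∧
    ∀ t : TT, {q | q ∈ tz (kap t.1) t.1 ∧ rs F q ≠ F (ir t)}.Finite}

/-- evaluation -/
def ev (x : XX) : BB → Bool := fun F => F.1 x

instance : TopologicalSpace XX := TopologicalSpace.induced ev inferInstance

/-- `C_p(X,2)` -/
abbrev Cp : Type := {f : XX → Bool // Continuous f}

/-! ## The fusion -/

/-- an ideal of small sets of functions (a σ-ideal) -/
structure SIdeal where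
  /-- small sets -/
  Sm : Set Fn → Prop
  empty : Sm ∅
  mono : ∀ A B : Set Fn, A ⊆ B → Sm B → Sm A
  iUnion : ∀ (A : ℕ → Set Fn), (∀ n, Sm (A n)) → Sm (⋃ n, A n)

/-- the reduced generating sets -/
def gam (y : YY) (c : C) : Set NN :=
  {q | q ∈ beta y c ∧ ∀ M, (c, M) ∈ EE → M.y = y → q ∉ M.Q}

/-- uniform description at `y` of the functions in `V` -/
def Unif (y : YY) (V : Set Fn) (us : List (Fn → C)) (J : Finset NN) (Zc : Finset C) : Prop :=
  (∀ w ∈ V, ∀ q ∈ dom y, w q ≠ w (pnt y) → q ∈ J ∨ (∃ c ∈ Zc, q ∈ gam y c) ∨ (∃ u ∈ us, q ∈ beta y (u w))) ∧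
  (∀ c ∈ Zc, c ∈ TT → y = .pt (kap c) → ∀ w ∈ V, ∀ q ∈ tz (kap c) c, q ∈ J ∨ w q ≠ w (pnt y))

/-- nodes of the fusion tree -/
structure Node (I : SIdeal) where
  /-- the set -/
  V : Set Fn
  /-- the coordinates -/
  us : List (Fn → C)
  pos : ¬ I.Sm V
  sub : V ⊆ rs '' BB
  inj : ∀ u ∈ us, ∀ c, I.Sm {w | w ∈ V ∧ u w = c}

/-- enumeration of `NN` -/
noncomputable def en : ℕ → NN := Classical.choose (exists_surjective_nat NN)
theorem en_surj : Function.Surjective en := Classical.choose_spec (exists_surjective_nat NN)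
/-- enumeration of the non isolated points -/
noncomputable def ye : ℕ → YY := Classical.choose (exists_surjective_nat YY)
theorem ye_surj : Function.Surjective ye := Classical.choose_spec (exists_surjective_nat YY)

/-- a branch of the fusion tree: `V n` are the sets, `f` is the limit function and `vs` contains the
limits of the coordinates -/
def Br (V : ℕ → Set Fn) (f : Fn) (vs : Set C) : Prop :=
  (∀ n, V (n + 1) ⊆ V n) ∧ (∀ q, ∃ n, ∀ w ∈ V n, w q = f q) ∧
  ∀ y, ∃ (us : List (Fn → C)) (J : Finset NN) (Zc : Finset C) (ls : Finset C) (n : ℕ),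
    (ls : Set C) ⊆ vs ∧ Unif y (V n) us J Zc ∧
    ∀ N, ∃ m, ∀ w ∈ V m, ∀ u ∈ us, ∃ c ∈ ls, pr (u w) N = pr c N

/-! ## The functions in the square -/

open Classical in
/-- branch functions in the extra blocks with number in `S` -/
noncomputable def braF (S : Set ℕ) (x : ℕ → C) : XX → Bool
  | Sum.inl (.bi i r) => decide (i ∈ S ∧ Pfx r (x i))
  | Sum.inl _ => false
  | Sum.inr t => decide (kap t.1 ∈ S ∧ x (kap t.1) = t.1)

/-- branches -/
def bfull (t : C) : Set NN := {q | ∃ s r, q = .iso s r ∧ Pfx s t ∧ Pfx r t}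

open Classical in
/-- first function -/
noncomputable def hF (t : C) : XX → Bool
  | Sum.inl q => decide (q ∈ hz t)
  | Sum.inr _ => false

open Classical in
/-- second function -/
noncomputable def bF (t : C) (x : ℕ → C) : XX → Bool
  | Sum.inl (.bi i r) => decide (Pfx r (x i))
  | Sum.inl q => decide (q ∈ bfull t)
  | Sum.inr t' => decide (x (kap t'.1) = t'.1)

/-- the admissible pairs -/
def Rel (x : ℕ → C) (s : C) : Prop :=
  x 0 = s ∧ ∀ l n, cnt s n ≤ l → pr (x (l + 1)) n = pr s n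

/-- the restriction map on pairs -/
def RR (p : Cp × Cp) : Fn × Fn := (rs p.1.1, rs p.2.1)

open Classical in
/-- the pair of functions -/
noncomputable def Psi (x : ℕ → C) (t : TT) : Cp × Cp :=
  if h : Continuous (hF t.1) ∧ Continuous (bF t.1 x) then (⟨hF t.1, h.1⟩, ⟨bF t.1 x, h.2⟩)
  else (⟨fun _ => false, continuous_const⟩, ⟨fun _ => false, continuous_const⟩)

/-- the closed set -/
def RS : Set (Cp × Cp) := {p | ∃ (t : TT) (x : ℕ → C), Rel x t.1 ∧ p = Psi x t}

/-- the open cover -/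
def UU (n : ℕ) : Set (Cp × Cp) := RSᶜ ∪ {p | ∃ t : TT, kap t.1 ≤ n ∧ p.2.1 (ir t) = true}

/-- finite tuples as sequences -/
def xs (j : ℕ) (a : ℕ → C) (s : C) : ℕ → C
  | 0 => s
  | l + 1 => if l < j then a l else s

/-- extension of a finite sequence by zeros -/
def ext (u : List Bool) : C := fun i => u.getD i false

/-- compatibility of a tuple with a stem -/
def Cmp (j : ℕ) (a : ℕ → C) (u : List Bool) : Prop :=
  (ones (ext u)).ncard = j ∧ ∀ s, Pfx u s → ∀ l < j, ∀ n, cnt s n ≤ l → pr (a l) n = pr s n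

/-- metacompact: every open cover has a point-finite open refinement -/
def Metacompact (P : Type) [TopologicalSpace P] : Prop :=
  ∀ 𝒰 : Set (Set P), (∀ U ∈ 𝒰, IsOpen U) → ⋃₀ 𝒰 = Set.univ →
    ∃ 𝒱 : Set (Set P), (∀ V ∈ 𝒱, IsOpen V) ∧ ⋃₀ 𝒱 = Set.univ ∧ (∀ V ∈ 𝒱, ∃ U ∈ 𝒰, V ⊆ U) ∧
      ∀ p, {V | V ∈ 𝒱 ∧ p ∈ V}.Finite

/-- subparacompact: every open cover has a σ-discrete closed refinement -/
def Subparacompact (P : Type) [TopologicalSpace P] : Prop :=
  ∀ 𝒰 : Set (Set P), (∀ U ∈ 𝒰, IsOpen U) → ⋃₀ 𝒰 = Set.univ →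
    ∃ ℋ : ℕ → Set (Set P), (∀ n, ∀ H ∈ ℋ n, IsClosed H ∧ ∃ U ∈ 𝒰, H ⊆ U) ∧
      (⋃ n, ⋃₀ ℋ n) = Set.univ ∧
      ∀ n p, ∃ O, IsOpen O ∧ p ∈ O ∧ {H | H ∈ ℋ n ∧ (H ∩ O).Nonempty}.Subsingleton

end CpM
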