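import Pool.Agent.Helper27.Cp.Base

set_option autoImplicit false

namespace CpM

open Set



private theorem ext_pr352 (s : C) (n k : ℕ) : ext (pr s n) k = if k < n then s k else false := by
  unfold ext pr
  rw [List.getD_eq_getElem?_getD]
  by_cases h : k < n
  · simp [h]
  · simp [h]

private theorem ext_app352 (s : C) (n k : ℕ) :
    ext (pr s n ++ [true]) k = if k < n then s k else if k = n then true else false := by
  by_cases h : k < n
  · have h1 : ext (pr s n ++ [true]) k = ext (pr s n) k := by
      unfold ext
      rw [List.getD_append _ _ _ _ (by rw [length_pr]; exact h)]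
    rw [h1, ext_pr352]
    simp [h]
  · unfold ext
    rw [List.getD_append_right _ _ _ _ (by rw [length_pr]; omega), length_pr]
    rw [if_neg h]
    by_cases h2 : k = n
    · subst h2; simp
    · rw [if_neg h2]
      obtain ⟨d, hd⟩ : ∃ d, k - n = d + 1 := ⟨k - n - 1, by omega⟩
      rw [hd]
      simp

private theorem ones_ext352 {u : List Bool} {s : C} (hs : Pfx u s) :
    ones (ext u) = ones s ∩ Set.Iio u.length := by
  ext k
  have h1 : ext u k = if k < u.length then s k else false := by
    have h2 : u = pr s u.length := hs
    have h3 := ext_pr352 s u.length k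
    rw [← h2] at h3
    exact h3
  simp only [ones, Set.mem_setOf_eq, Set.mem_inter_iff, Set.mem_Iio]
  rw [h1]
  by_cases h : k < u.length
  · simp [h]
  · simp [h]

theorem Cmp_step {j : ℕ} {a : ℕ → C} {u : List Bool} (h : Cmp j a u) {s : C} (hs : Pfx u s)
    (hk : kap s = j + 1) {m : ℕ} (hm : u.length ≤ m) (hodd : m % 2 = 1) :
    s m = false ∧ Cmp (j + 1) (Function.update a j s) (pr s m ++ [true]) := by
  have hfin : (ones s).Finite := by
    by_contra hn
    unfold kap at hk
    rw [if_neg hn] at hk
    omega
  have hcard : (ones s).ncard = j := by
    unfold kap at hk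
    rw [if_pos hfin] at hk
    omega
  have hoe := ones_ext352 hs
  have heq : ones s ∩ Set.Iio u.length = ones s := by
    refine Set.eq_of_subset_of_ncard_le Set.inter_subset_left ?_ hfin
    rw [← hoe, h.1, hcard]
  have hlt : ∀ k ∈ ones s, k < u.length := by
    intro k hk
    rw [← heq] at hk
    exact hk.2
  have hsm : m ∉ ones s := fun hm' => absurd (hlt m hm') (by omega)
  have hsf : s m = false := by
    by_contra hne
    exact hsm ⟨hodd, by simpa using hne⟩
  refine ⟨hsf, ?_, ?_⟩
  · have h1 : ones (ext (pr s m ++ [true])) = insert m (ones s) := by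
      ext k
      simp only [ones, Set.mem_setOf_eq, Set.mem_insert_iff]
      rw [ext_app352]
      constructor
      · rintro ⟨h1, h2⟩
        by_cases h3 : k < m
        · rw [if_pos h3] at h2
          exact Or.inr ⟨h1, h2⟩
        · rw [if_neg h3] at h2
          left
          by_contra h4
          rw [if_neg h4] at h2
          exact absurd h2 (by simp)
      · rintro (rfl | ⟨h1, h2⟩)
        · exact ⟨hodd, by simp⟩
        · have h3 : k < m := lt_of_lt_of_le (hlt k ⟨h1, h2⟩) hm
          exact ⟨h1, by rw [if_pos h3]; exact h2⟩
    rw [h1, Set.ncard_insert_of_notMem hsm hfin, hcard]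
  · intro s' hs' l hl n hn
    have hlen : (pr s m ++ [true]).length = m + 1 := by simp [length_pr]
    have hag : ∀ k < m + 1, s' k = if k < m then s k else true := by
      intro k hk
      have h2 : pr s m ++ [true] = pr s' (m + 1) := by
        have h3 : pr s m ++ [true] = pr s' (pr s m ++ [true]).length := hs'
        rw [hlen] at h3
        exact h3
      have h4 := ext_app352 s m k
      rw [h2, ext_pr352, if_pos hk] at h4
      rw [h4]
      by_cases h5 : k < m
      · simp [h5]
      · have : k = m := by omega
        simp [this]
    have hpr : ∀ k ≤ m, pr s k = pr s' k := by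
      intro k hk
      rw [pr_eq_iff]
      intro i hi
      rw [hag i (by omega), if_pos (by omega)]
    have hus' : Pfx u s' := by
      have h2 : u = pr s u.length := hs
      unfold Pfx
      rw [← hpr _ hm]
      exact h2
    rcases Nat.lt_or_ge l j with hlj | hlj
    · rw [Function.update_of_ne (by omega)]
      exact h.2 s' hus' l hlj n hn
    · have hl2 : l = j := by omega
      subst hl2
      rw [Function.update_self]
      rcases Nat.lt_or_ge m n with hmn | hmn
      · exfalso
        have hsub : insert m (ones s) ⊆ ones s' ∩ Set.Iio n := by
          intro k hk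
          rcases Set.mem_insert_iff.1 hk with rfl | hk
          · refine ⟨⟨hodd, ?_⟩, hmn⟩
            rw [hag k (by omega)]
            simp
          · have h3 := hlt k hk
            refine ⟨⟨hk.1, ?_⟩, ?_⟩
            · rw [hag k (by omega), if_pos (by omega)]
              exact hk.2
            · exact Set.mem_Iio.2 (by omega)
        have h4 : (insert m (ones s)).ncard ≤ cnt s' n :=
          Set.ncard_le_ncard hsub ((Set.finite_Iio n).subset Set.inter_subset_right)
        rw [Set.ncard_insert_of_notMem hsm hfin, hcard] at h4
        omega
      · exact hpr n hmn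

end CpM
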