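import Pool.Agent.Helper27.Cp.Base

set_option autoImplicit false

namespace CpM

open Set



theorem Rel_xs {j : ℕ} {a : ℕ → C} {u : List Bool} (h : Cmp j a u) {s : C} (hs : Pfx u s) :
    Rel (xs j a s) s := by
  refine ⟨rfl, ?_⟩
  intro l n hc
  by_cases hl : l < j
  · have e : xs j a s (l + 1) = a l := by simp [xs, hl]
    rw [e]
    exact h.2 s hs l hl n hc
  · have e : xs j a s (l + 1) = s := by simp [xs, hl]
    rw [e]

end CpM
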