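import Pool.Agent.Helper27.Cp.Base

set_option autoImplicit false

namespace CpM

open Set



theorem mk_Fam : Cardinal.mk Fam ≤ Cardinal.continuum.{0} := by
  have hC : Cardinal.mk C = Cardinal.continuum.{0} := by
    rw [Cardinal.mk_arrow]
    simp
  have hFn : Cardinal.mk Fn ≤ Cardinal.continuum.{0} := by
    have h1 : Cardinal.mk Fn = 2 ^ Cardinal.mk NN := by
      rw [Cardinal.mk_arrow]
      simp
    rw [h1, ← Cardinal.two_power_aleph0]
    exact Cardinal.power_le_power_left two_ne_zero Cardinal.mk_le_aleph0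
  have hNC : Cardinal.mk (ℕ → C) = Cardinal.continuum.{0} := by
    rw [Cardinal.mk_arrow, Cardinal.lift_id, Cardinal.lift_id, hC, Cardinal.mk_nat,
      Cardinal.continuum_power_aleph0]
  have hY : Cardinal.mk (Fn × (ℕ → C)) ≤ Cardinal.continuum.{0} := by
    rw [Cardinal.mk_prod, Cardinal.lift_id, Cardinal.lift_id, hNC]
    calc Cardinal.mk Fn * Cardinal.continuum.{0} ≤ Cardinal.continuum.{0} * Cardinal.continuum.{0} :=
          mul_le_mul' hFn le_rfl
      _ = Cardinal.continuum.{0} := Cardinal.continuum_mul_self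
  have hNY : Cardinal.mk (ℕ → Fn × (ℕ → C)) ≤ Cardinal.continuum.{0} := by
    rw [Cardinal.mk_arrow, Cardinal.lift_id, Cardinal.lift_id, Cardinal.mk_nat]
    calc Cardinal.mk (Fn × (ℕ → C)) ^ Cardinal.aleph0.{0}
        ≤ Cardinal.continuum.{0} ^ Cardinal.aleph0.{0} := Cardinal.power_le_power_right hY
      _ = Cardinal.continuum.{0} := Cardinal.continuum_power_aleph0
  refine le_trans ?_ hNY
  let φ : Fam → (ℕ → Fn × (ℕ → C)) := fun F n => F.1 (TopologicalSpace.denseSeq C n)
  refine Cardinal.mk_le_of_injective (f := φ) ?_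
  intro F G h
  apply Subtype.ext
  refine Continuous.ext_on (TopologicalSpace.denseRange_denseSeq C) F.2 G.2 ?_
  rintro _ ⟨n, rfl⟩
  exact congrFun h n

end CpM
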