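import Pool.Agent.Helper27.Cp.Base

set_option autoImplicit false

namespace CpM

open Set



private theorem sel_bound {ι β : Type} (hι : Cardinal.mk ι ≤ Cardinal.continuum.{0}) (A : ι → β → Set C)
    (hA : ∀ i b, (A i b).Countable) (r : ι → ι → Prop) [wo : IsWellOrder ι r]
    (hr : (Cardinal.mk ι).ord = Ordinal.type r) (i : ι) (f : ∀ j, r j i → β) :
    Cardinal.mk (⋃ j : {j // r j i}, A j.1 (f j.1 j.2) : Set C) < Cardinal.continuum.{0} := by
  have h1 : Cardinal.mk {j // r j i} < Cardinal.mk ι := by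
    have h2 : Ordinal.typein r i < (Cardinal.mk ι).ord := by
      rw [hr]
      exact Ordinal.typein_lt_type r i
    have h3 := Cardinal.lt_ord.1 h2
    exact h3
  have h4 : Cardinal.mk {j // r j i} < Cardinal.continuum.{0} := h1.trans_le hι
  refine (Cardinal.mk_iUnion_le _).trans_lt ?_
  refine lt_of_le_of_lt (mul_le_mul' le_rfl ?_)
    (Cardinal.mul_lt_of_lt Cardinal.aleph0_le_continuum h4 Cardinal.aleph0_lt_continuum)
  refine ciSup_le' ?_
  intro j
  exact Cardinal.mk_le_aleph0_iff.2 (hA _ _)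

/-- disjoint selection by transfinite recursion -/
theorem sel {ι β : Type} (hι : Cardinal.mk ι ≤ Cardinal.continuum.{0}) (A : ι → β → Set C)
    (hA : ∀ i b, (A i b).Countable)
    (h : ∀ i, ∀ D : Set C, Cardinal.mk D < Cardinal.continuum.{0} → ∃ b, Disjoint (A i b) D) :
    ∃ b : ι → β, ∀ i j, i ≠ j → Disjoint (A i (b i)) (A j (b j)) := by
  classical
  obtain ⟨r, wo, hr⟩ := Cardinal.exists_ord_eq ι
  have hwf : WellFounded r := wo.wf
  let F : ∀ i, (∀ j, r j i → β) → β := fun i f =>
    Classical.choose (h i (⋃ j : {j // r j i}, A j.1 (f j.1 j.2)) (sel_bound hι A hA r hr i f))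
  have hF : ∀ i f, Disjoint (A i (F i f)) (⋃ j : {j // r j i}, A j.1 (f j.1 j.2)) := fun i f =>
    Classical.choose_spec
      (h i (⋃ j : {j // r j i}, A j.1 (f j.1 j.2)) (sel_bound hι A hA r hr i f))
  let b : ι → β := hwf.fix F
  have hb : ∀ i, b i = F i (fun j _ => b j) := fun i => hwf.fix_eq F i
  have key : ∀ i j, r j i → Disjoint (A i (b i)) (A j (b j)) := by
    intro i j hij
    have h1 := hF i (fun j _ => b j)
    rw [← hb i] at h1
    refine h1.mono_right ?_
    exact Set.subset_iUnion (fun j : {j // r j i} => A j.1 (b j.1)) ⟨j, hij⟩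
  refine ⟨b, fun i j hij => ?_⟩
  rcases trichotomous_of r i j with h1 | h1 | h1
  · exact (key j i h1).symm
  · exact absurd h1 hij
  · exact key i j h1

end CpM
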