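import Pool.Agent.Helper27.Cp.Base
import Pool.Agent.Helper27.Cp.P_sel
import Pool.Agent.Helper27.Cp.P_mk_Fam

set_option autoImplicit false

namespace CpM

open Set



private theorem bs_disj_card : Cardinal.mk Iota ≤ Cardinal.continuum.{0} := by
  have h1 : Cardinal.mk GFam ≤ Cardinal.continuum.{0} :=
    (Cardinal.mk_subtype_le _).trans mk_Fam
  have h2 : Cardinal.mk C ≤ Cardinal.continuum.{0} := by
    have : Cardinal.mk C = Cardinal.continuum.{0} := by
      simp [C]
    exact this.le
  have h3 : Cardinal.mk Iota = Cardinal.mk GFam + Cardinal.mk GFam * Cardinal.mk C := by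
    simp [Iota]
  rw [h3]
  calc Cardinal.mk GFam + Cardinal.mk GFam * Cardinal.mk C
      ≤ Cardinal.continuum.{0} + Cardinal.continuum.{0} * Cardinal.continuum.{0} :=
        add_le_add h1 (mul_le_mul' h1 h2)
    _ = Cardinal.continuum.{0} := by
        rw [Cardinal.continuum_mul_self, Cardinal.continuum_add_self]

private theorem bs_disj_ex :
    ∃ b : Iota → C, ∀ i j, i ≠ j → Disjoint (AA i (b i)) (AA j (b j)) := by
  apply sel bs_disj_card
  · intro i b
    rcases i with τ | τc
    · exact Set.countable_range _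
    · exact Set.countable_singleton _
  · intro i D hD
    rcases i with τ | τc
    · obtain ⟨p, hp⟩ := τ.2.2 D hD
      refine ⟨p, Set.disjoint_left.mpr ?_⟩
      rintro _ ⟨k, rfl⟩ hk
      exact hp k hk
    · obtain ⟨p, hp⟩ := τc.1.2.2 D hD
      refine ⟨p, Set.disjoint_left.mpr ?_⟩
      intro x hx hk
      have hx' : x = (τc.1.1.1 p).2 0 := hx
      rw [hx'] at hk
      exact hp 0 hk

theorem bs_disj : ∀ i j : Iota, i ≠ j → Disjoint (AA i (bs i)) (AA j (bs j)) := by
  have h : bs = Classical.choose bs_disj_ex := by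
    unfold bs
    exact dif_pos bs_disj_ex
  rw [h]
  exact Classical.choose_spec bs_disj_ex

end CpM
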