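import Pool.Agent.Helper27.Cp.Base
import Pool.Agent.Helper27.Cp.P_bs_disj

set_option autoImplicit false

namespace CpM

open Set



private theorem SS_card : Cardinal.mk (ℕ → Bool) = Cardinal.continuum := by
  simp

private theorem SS_unc : ¬ (Set.univ : Set C).Countable := by
  intro h
  rw [Set.countable_univ_iff] at h
  have h1 : Cardinal.mk (ℕ → Bool) ≤ Cardinal.aleph0 := Cardinal.mk_le_aleph0_iff.2 h
  rw [SS_card] at h1
  exact absurd h1 (not_le.2 Cardinal.aleph0_lt_continuum)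

theorem SS (τ : Fam) (h : Good τ) (H : Set C) (hH : H.Countable) : ∃ p, (τ.1 p).2 0 ∈ TT ∧ (τ.1 p).2 0 ∉ H := by
  set x : C → C := fun c => (τ.1 (bs (Sum.inr (⟨τ, h⟩, c)))).2 0 with hx
  have hxinj : Function.Injective x := by
    intro c c' hcc
    by_contra hne
    have h1 := bs_disj (Sum.inr (⟨τ, h⟩, c)) (Sum.inr (⟨τ, h⟩, c')) (by
      intro h2
      exact hne (Prod.mk.inj (Sum.inr.inj h2)).2)
    have h3 : x c ∈ AA (Sum.inr (⟨τ, h⟩, c)) (bs (Sum.inr (⟨τ, h⟩, c))) := rfl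
    have h4 : x c ∈ AA (Sum.inr (⟨τ, h⟩, c')) (bs (Sum.inr (⟨τ, h⟩, c'))) := by
      rw [hcc]; rfl
    exact Set.disjoint_left.1 h1 h3 h4
  have hTT : ∀ c, x c ∈ TT := by
    intro c
    rintro ⟨P, ⟨τ', k, h1, h2⟩, h3⟩
    have h4 := bs_disj (Sum.inl τ') (Sum.inr (⟨τ, h⟩, c)) (by simp)
    have h5 : x c ∈ AA (Sum.inl τ') (bs (Sum.inl τ')) := by
      rw [← h3, h1]
      exact ⟨k, rfl⟩
    exact Set.disjoint_left.1 h4 h5 rfl
  have hex : ∃ c, x c ∉ H := by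
    by_contra hcon
    push Not at hcon
    have h1 : (x ⁻¹' H).Countable := hH.preimage hxinj
    have h2 : x ⁻¹' H = Set.univ := Set.eq_univ_of_forall hcon
    rw [h2] at h1
    exact SS_unc h1
  obtain ⟨c, hc⟩ := hex
  exact ⟨bs (Sum.inr (⟨τ, h⟩, c)), hTT c, hc⟩

end CpM
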