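import Pool.Agent.Helper27.Cp.Base
import Pool.Agent.Helper27.Cp.P_SS

set_option autoImplicit false

namespace CpM

open Set



/-- `TT` meets every perfect set in an uncountable set -/
theorem SSg (g : C → C) (hg : Continuous g) (hi : Function.Injective g) (H : Set C) (hH : H.Countable) :
    ∃ p, g p ∈ TT ∧ g p ∉ H := by
  have hF : Continuous (fun p : C => ((fun _ => false : Fn), (fun _ : ℕ => g p))) :=
    continuous_const.prodMk (continuous_pi fun _ => hg)
  have hG : Good ⟨fun p : C => ((fun _ => false : Fn), (fun _ : ℕ => g p)), hF⟩ := by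
    refine ⟨fun p y => ⟨∅, ∅, fun q _ h => absurd rfl h⟩, fun D hD => ?_⟩
    by_contra hcon
    push Not at hcon
    have h3 : ∀ p, g p ∈ D := fun p => by
      obtain ⟨k, hk⟩ := hcon p
      exact hk
    have h4 : Cardinal.mk C ≤ Cardinal.mk D :=
      Cardinal.mk_le_of_injective (f := fun p => (⟨g p, h3 p⟩ : D)) (fun a b hab => hi (congrArg Subtype.val hab))
    have h5 : Cardinal.mk C = Cardinal.continuum := by
      simp [C]
    rw [h5] at h4
    exact absurd hD (not_lt.mpr h4)
  obtain ⟨p, h1, h2⟩ := SS _ hG H hH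
  exact ⟨p, h1, h2⟩

end CpM
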