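import Pool.Agent.Helper27.Cp.Base
import Pool.Agent.Helper27.Cp.P_SSg

set_option autoImplicit false

namespace CpM

open Set



/-- auxiliary map -/
private noncomputable def TU_g (u : List Bool) (p : C) : C := fun k =>
  if k < u.length then u.getD k false else if k % 2 = 0 then p ((k - u.length) / 2) else false

private theorem TU_cont (u : List Bool) : Continuous (TU_g u) := by
  refine continuous_pi fun k => ?_
  unfold TU_g
  by_cases h : k < u.length
  · simp only [h, if_true]
    exact continuous_const
  · by_cases h2 : k % 2 = 0
    · simp only [h, h2, if_true, if_false]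
      exact continuous_apply _
    · simp only [h, h2, if_false]
      exact continuous_const

private theorem TU_eval (u : List Bool) (p : C) (k : ℕ) (h1 : u.length ≤ k) (h2 : k % 2 = 0) :
    TU_g u p k = p ((k - u.length) / 2) := by
  unfold TU_g
  rw [if_neg (by omega), if_pos h2]

private theorem TU_inj (u : List Bool) : Function.Injective (TU_g u) := by
  intro p p' h
  funext m
  rcases Nat.even_or_odd' u.length with ⟨c, hc | hc⟩
  · have h1 := congrFun h (u.length + 2 * m)
    rw [TU_eval u p _ (by omega) (by omega), TU_eval u p' _ (by omega) (by omega)] at h1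
    have h2 : (u.length + 2 * m - u.length) / 2 = m := by omega
    rwa [h2] at h1
  · have h1 := congrFun h (u.length + (2 * m + 1))
    rw [TU_eval u p _ (by omega) (by omega), TU_eval u p' _ (by omega) (by omega)] at h1
    have h2 : (u.length + (2 * m + 1) - u.length) / 2 = m := by omega
    rwa [h2] at h1

private theorem TU_pfx (u : List Bool) (p : C) : Pfx u (TU_g u p) := by
  unfold Pfx pr
  apply List.ext_getElem
  · simp
  · intro n h1 h2
    simp only [List.getElem_map, List.getElem_range]
    unfold TU_g
    rw [if_pos h1, List.getD_eq_getElem _ _ h1]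

private theorem TU_ones (u : List Bool) (p : C) : ones (TU_g u p) = ones (ext u) := by
  ext k
  simp only [ones, Set.mem_ofPred_eq]
  refine and_congr_right fun hk => ?_
  unfold TU_g ext
  by_cases h : k < u.length
  · rw [if_pos h]
  · rw [if_neg h, if_neg (by omega), List.getD_eq_default _ _ (by omega)]

private theorem TU_fin (u : List Bool) : (ones (ext u)).Finite := by
  refine (Set.finite_Iio u.length).subset ?_
  rintro k ⟨_, hk⟩
  by_contra h
  rw [Set.mem_Iio, not_lt] at h
  unfold ext at hk
  rw [List.getD_eq_default _ _ h] at hk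
  exact Bool.false_ne_true hk

theorem TU (u : List Bool) (j : ℕ) (h : (ones (ext u)).ncard = j) (H : Set C) (hH : H.Countable) :
    ∃ s, s ∈ TT ∧ s ∉ H ∧ Pfx u s ∧ kap s = j + 1 := by
  obtain ⟨p, h1, h2⟩ := SSg (TU_g u) (TU_cont u) (TU_inj u) H hH
  refine ⟨_, h1, h2, TU_pfx u p, ?_⟩
  unfold kap
  rw [TU_ones, if_pos (TU_fin u), h]

end CpM
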