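import Pool.Agent.Helper27.Cp.Base

set_option autoImplicit false

namespace CpM

open Set



theorem EE_valid : ∀ p ∈ EE, Valid p.1 p.2 := by
  rintro p ⟨τ, k, -, h2⟩
  rw [h2]
  exact (mkm_spec (τ.2.1 _) p.1).1

end CpM
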