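import Pool.Agent.Helper27.Cp.Base
import Pool.Agent.Helper27.Cp.P_EE_valid

set_option autoImplicit false

namespace CpM

open Set

private theorem bFm_iso (t : C) (x : ℕ → C) (s r : List Bool) :
    rs (bF t x) (.iso s r) = true ↔ (Pfx s t ∧ Pfx r t) := by
  classical
  have h : rs (bF t x) (.iso s r) = @decide (NN.iso s r ∈ bfull t) (Classical.propDecidable _) := rfl
  rw [h, decide_eq_true_eq]
  constructor
  · rintro ⟨s', r', h', h1, h2⟩
    cases h'
    exact ⟨h1, h2⟩
  · rintro ⟨h1, h2⟩
    exact ⟨s, r, rfl, h1, h2⟩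

private theorem bFm_bi (t : C) (x : ℕ → C) (i : ℕ) (r : List Bool) :
    rs (bF t x) (.bi i r) = true ↔ Pfx r (x i) := by
  classical
  have h : rs (bF t x) (.bi i r) = @decide (Pfx r (x i)) (Classical.propDecidable _) := rfl
  rw [h, decide_eq_true_eq]

private theorem bFm_pnt (t : C) (x : ℕ → C) (y : YY) : rs (bF t x) (pnt y) = false := by
  classical
  cases y with
  | inf =>
    have h : rs (bF t x) .inf = @decide (NN.inf ∈ bfull t) (Classical.propDecidable _) := rfl
    change rs (bF t x) .inf = false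
    rw [h, decide_eq_false_iff_not]
    rintro ⟨s, r, h', _⟩
    cases h'
  | x u =>
    have h : rs (bF t x) (.x u) = @decide (NN.x u ∈ bfull t) (Classical.propDecidable _) := rfl
    change rs (bF t x) (.x u) = false
    rw [h, decide_eq_false_iff_not]
    rintro ⟨s, r, h', _⟩
    cases h'
  | pt i =>
    have h : rs (bF t x) (.pt i) = @decide (NN.pt i ∈ bfull t) (Classical.propDecidable _) := rfl
    change rs (bF t x) (.pt i) = false
    rw [h, decide_eq_false_iff_not]
    rintro ⟨s, r, h', _⟩
    cases h'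

private theorem bFm_ne (t : C) (x : ℕ → C) (q : NN) (y : YY)
    (h : rs (bF t x) q ≠ rs (bF t x) (pnt y)) : rs (bF t x) q = true := by
  rw [bFm_pnt] at h
  exact Bool.eq_true_of_not_eq_false h

theorem bF_mem {t : C} (ht : t ∈ TT) (x : ℕ → C) : bF t x ∈ BB := by
  classical
  refine ⟨?_, ?_, ?_⟩
  · intro y
    cases y with
    | inf =>
      refine ⟨∅, {t}, ?_⟩
      intro q hq hne
      have hne' := bFm_ne t x q _ hne
      right
      refine ⟨t, Finset.mem_singleton_self t, ?_⟩
      cases q with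
      | inf => exact absurd hne' (by rw [show NN.inf = pnt .inf from rfl, bFm_pnt]; simp)
      | x s => exact absurd hne' (by rw [show NN.x s = pnt (.x s) from rfl, bFm_pnt]; simp)
      | iso s r => exact ((bFm_iso t x s r).1 hne').1
      | pt i => exact hq.elim
      | bi i r => exact hq.elim
    | x s =>
      refine ⟨∅, {t}, ?_⟩
      intro q hq hne
      have hne' := bFm_ne t x q _ hne
      right
      refine ⟨t, Finset.mem_singleton_self t, ?_⟩
      obtain ⟨r, rfl⟩ := hq
      exact ⟨r, rfl, ((bFm_iso t x s r).1 hne').2⟩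
    | pt i =>
      refine ⟨∅, {x i}, ?_⟩
      intro q hq hne
      have hne' := bFm_ne t x q _ hne
      right
      refine ⟨x i, Finset.mem_singleton_self _, ?_⟩
      obtain ⟨r, rfl⟩ := hq
      exact ⟨r, rfl, (bFm_bi t x i r).1 hne'⟩
  · intro p hp
    have hV := EE_valid p hp
    have hne : t ≠ p.1 := by
      intro h
      exact ht ⟨p, hp, h.symm⟩
    refine (hV.inter_finite hne).subset ?_
    rintro q ⟨hq, hq2⟩
    refine ⟨hq, ?_⟩
    have hq3 := bFm_ne t x q _ hq2
    have hQ := hV.2.1 hq
    obtain ⟨s, r, rfl⟩ := hV.2.2.1 _ hq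
    obtain ⟨h1, h2⟩ := (bFm_iso t x s r).1 hq3
    cases hy : p.2.y with
    | inf => exact h1
    | x s' =>
      rw [hy] at hQ
      obtain ⟨r', h', _⟩ := hQ
      cases h'
      exact ⟨r, rfl, h2⟩
    | pt i => exact absurd hy (hV.ne_pt i)
  · intro t'
    have hF : bF t x (ir t') = @decide (x (kap t'.1) = t'.1) (Classical.propDecidable _) := rfl
    by_cases h : x (kap t'.1) = t'.1
    · refine Set.finite_empty.subset ?_
      rintro q ⟨⟨r, rfl, hr⟩, hne⟩
      apply hne
      rw [hF, decide_eq_true h, bFm_bi, h]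
      exact hr
    · refine (tz_inter_finite (i := kap t'.1) (Ne.symm h)).subset ?_
      rintro q ⟨⟨r, rfl, hr⟩, hne⟩
      refine ⟨⟨r, rfl, hr⟩, ⟨r, rfl, ?_⟩⟩
      rw [hF, decide_eq_false h] at hne
      exact (bFm_bi t x _ r).1 (Bool.eq_true_of_not_eq_false hne)

end CpM
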