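import Pool.Agent.Helper27.Cp.Base

set_option autoImplicit false

namespace CpM

open Set



theorem exists_nhd {U : Set XX} (hU : IsOpen U) {x0 : XX} (hx : x0 ∈ U) :
    ∃ I : Finset BB, ∀ x, (∀ g ∈ I, g.1 x = g.1 x0) → x ∈ U := by
  obtain ⟨V, hV, rfl⟩ := isOpen_induced_iff.1 hU
  obtain ⟨I, u, hu, hsub⟩ := isOpen_pi_iff.1 hV (ev x0) hx
  refine ⟨I, fun x h => hsub ?_⟩
  intro g hg
  have : ev x g = ev x0 g := h g hg
  rw [this]
  exact (hu g hg).2

end CpM
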