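import Pool.Agent.Helper27.Cp.Base
import Pool.Agent.Helper27.Cp.P_exists_nhd

set_option autoImplicit false

namespace CpM

open Set



private theorem continuous_ev : Continuous ev := continuous_induced_dom

private theorem continuous_of_mem {F : XX → Bool} (hF : F ∈ BB) : Continuous F :=
  (continuous_apply (⟨F, hF⟩ : BB)).comp continuous_ev

private theorem mem_of_continuous {F : XX → Bool} (hF : Continuous F) : F ∈ BB := by
  have key : ∀ x0 : XX, ∃ I : Finset BB, ∀ x, F x ≠ F x0 → ∃ g ∈ I, g.1 x ≠ g.1 x0 := by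
    intro x0
    have hU : IsOpen {x | F x = F x0} := (isOpen_discrete {b : Bool | b = F x0}).preimage hF
    obtain ⟨I, hI⟩ := exists_nhd hU (show x0 ∈ {x | F x = F x0} from rfl)
    refine ⟨I, fun x hx => ?_⟩
    by_contra h
    push Not at h
    exact hx (hI x h)
  classical
  refine ⟨?_, ?_, ?_⟩
  · intro y
    obtain ⟨I, hI⟩ := key (il (pnt y))
    have hg : ∀ g : BB, ∃ (J : Finset NN) (Z : Finset C), ∀ q ∈ dom y, rs g.1 q ≠ rs g.1 (pnt y) →
      q ∈ J ∨ ∃ z ∈ Z, q ∈ beta y z := fun g => g.2.1 y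
    choose J Z h using hg
    refine ⟨I.biUnion J, I.biUnion Z, fun q hq hne => ?_⟩
    obtain ⟨g, hgI, hgne⟩ := hI (il q) hne
    rcases h g q hq hgne with h1 | ⟨z, h1, h2⟩
    · exact Or.inl (Finset.mem_biUnion.2 ⟨g, hgI, h1⟩)
    · exact Or.inr ⟨z, Finset.mem_biUnion.2 ⟨g, hgI, h1⟩, h2⟩
  · intro p hp
    obtain ⟨I, hI⟩ := key (il (pnt p.2.y))
    have hfin : (⋃ g ∈ I, {q | q ∈ p.2.Q ∧ rs g.1 q ≠ rs g.1 (pnt p.2.y)}).Finite :=
      I.finite_toSet.biUnion fun g _ => g.2.2.1 p hp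
    refine hfin.subset ?_
    rintro q ⟨hq, hne⟩
    obtain ⟨g, hgI, hgne⟩ := hI (il q) hne
    exact mem_iUnion₂.2 ⟨g, hgI, hq, hgne⟩
  · intro t
    obtain ⟨I, hI⟩ := key (ir t)
    have hfin : (⋃ g ∈ I, {q | q ∈ tz (kap t.1) t.1 ∧ rs g.1 q ≠ g.1 (ir t)}).Finite :=
      I.finite_toSet.biUnion fun g _ => g.2.2.2 t
    refine hfin.subset ?_
    rintro q ⟨hq, hne⟩
    obtain ⟨g, hgI, hgne⟩ := hI (il q) hne
    exact mem_iUnion₂.2 ⟨g, hgI, hq, hgne⟩

theorem continuous_iff {F : XX → Bool} : Continuous F ↔ F ∈ BB :=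
  ⟨mem_of_continuous, continuous_of_mem⟩

end CpM
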