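import Pool.Agent.Helper27.Cp.Base
import Pool.Agent.Helper27.Cp.P_EE_valid

set_option autoImplicit false

namespace CpM

open Set



private theorem h208_rs_hF (t : C) (q : NN) : rs (hF t) q = true ↔ q ∈ hz t := by
  simp only [rs, il, hF, decide_eq_true_eq]

private theorem h208_const_x (t : C) (s r : List Bool) : rs (hF t) (NN.iso s r) = rs (hF t) (NN.x s) := by
  rw [Bool.eq_iff_iff, h208_rs_hF, h208_rs_hF]
  exact Iff.rfl

private theorem h208_bi (t : C) (i : ℕ) (r : List Bool) : rs (hF t) (NN.bi i r) = false := by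
  rw [Bool.eq_false_iff, ne_eq, h208_rs_hF]
  exact fun h => h

private theorem h208_pt (t : C) (i : ℕ) : rs (hF t) (NN.pt i) = false := by
  rw [Bool.eq_false_iff, ne_eq, h208_rs_hF]
  exact fun h => h

private theorem h208_inf (t : C) : rs (hF t) NN.inf = false := by
  rw [Bool.eq_false_iff, ne_eq, h208_rs_hF]
  exact fun h => h

theorem hF_mem {t : C} (ht : t ∈ TT) : hF t ∈ BB := by
  refine ⟨?_, ?_, ?_⟩
  · intro y
    cases y with
    | inf =>
      refine ⟨∅, {t}, fun q _ hne => Or.inr ⟨t, Finset.mem_singleton_self _, ?_⟩⟩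
      change rs (hF t) q ≠ rs (hF t) NN.inf at hne
      rw [h208_inf, ne_eq, Bool.not_eq_false, h208_rs_hF] at hne
      exact hne
    | x s =>
      refine ⟨∅, ∅, ?_⟩
      rintro q ⟨r, rfl⟩ hne
      exact absurd (h208_const_x t s r) hne
    | pt i =>
      refine ⟨∅, ∅, ?_⟩
      rintro q ⟨r, rfl⟩ hne
      change rs (hF t) (NN.bi i r) ≠ rs (hF t) (NN.pt i) at hne
      rw [h208_bi, h208_pt] at hne
      exact absurd rfl hne
  · rintro ⟨z, M⟩ hp
    have hv : Valid z M := EE_valid _ hp
    have hne0 : t ≠ z := by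
      rintro rfl
      exact ht ⟨_, hp, rfl⟩
    have hfin := hv.inter_finite hne0
    cases hy : M.y with
    | inf =>
      refine hfin.subset ?_
      rintro q ⟨hqQ, hne⟩
      refine ⟨hqQ, ?_⟩
      rw [hy] at hne ⊢
      change rs (hF t) q ≠ rs (hF t) NN.inf at hne
      rw [h208_inf, ne_eq, Bool.not_eq_false, h208_rs_hF] at hne
      exact hne
    | x s =>
      refine Set.finite_empty.subset ?_
      rintro q ⟨hqQ, hne⟩
      have hd := hv.subset_dom hqQ
      rw [hy] at hd hne
      obtain ⟨r, rfl⟩ := hd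
      exact hne (h208_const_x t s r)
    | pt i => exact absurd hy (hv.ne_pt i)
  · intro t'
    refine Set.finite_empty.subset ?_
    rintro q ⟨⟨r, rfl, _⟩, hne⟩
    rw [h208_bi] at hne
    exact hne rfl

end CpM
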