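import Pool.Agent.Helper27.Cp.Base
import Pool.Agent.Helper27.Cp.P_hF_mem
import Pool.Agent.Helper27.Cp.P_bF_mem
import Pool.Agent.Helper27.Cp.P_continuous_iff

set_option autoImplicit false

namespace CpM

open Set



theorem Psi_val (x : ℕ → C) (t : TT) : (Psi x t).1.1 = hF t.1 ∧ (Psi x t).2.1 = bF t.1 x := by
  have h1 : Continuous (hF t.1) := continuous_iff.mpr (hF_mem t.2)
  have h2 : Continuous (bF t.1 x) := continuous_iff.mpr (bF_mem t.2 x)
  unfold Psi
  rw [dif_pos ⟨h1, h2⟩]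
  exact ⟨rfl, rfl⟩

end CpM
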