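import Pool.Agent.Helper27.Cp.Base

set_option autoImplicit false

namespace CpM

open Set



/-- nearby points -/
private theorem cont_rs_isOpen_pr (e : C) (n : ℕ) : IsOpen {z : C | pr z n = pr e n} := by
  have : {z : C | pr z n = pr e n} = ⋂ i ∈ Finset.range n, {z : C | z i = e i} := by
    ext z
    simp only [mem_ofPred_eq, pr_eq_iff, mem_iInter, Finset.mem_range]
  rw [this]
  refine isOpen_biInter_finset fun i _ => ?_
  have hcont : Continuous (fun z : C => z i) := continuous_apply i
  exact (isOpen_discrete {b : Bool | b = e i}).preimage hcont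

private theorem cont_rs_decide (P : C → Prop) [DecidablePred P] (n : ℕ)
    (h : ∀ z z', pr z n = pr z' n → P z → P z') : Continuous (fun z => decide (P z)) := by
  rw [continuous_iff_continuousAt]
  intro z
  refine tendsto_const_nhds.congr' ?_
  filter_upwards [(cont_rs_isOpen_pr z n).mem_nhds rfl] with z' hz'
  rw [Bool.eq_iff_iff]
  simp only [decide_eq_true_eq]
  exact ⟨h z z' (Eq.symm hz'), h z' z hz'⟩

private theorem cont_rs_bfull {z z' : C} {q : NN} (h : pr z q.L = pr z' q.L) (hq : q ∈ bfull z) :
    q ∈ bfull z' := by
  obtain ⟨s, r, rfl, hs, hr⟩ := hq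
  exact ⟨s, r, rfl, Pfx.congr h (le_max_left _ _) hs, Pfx.congr h (le_max_right _ _) hr⟩

theorem cont_rs : Continuous (fun p : (ℕ → C) × C => ((rs (hF p.2), rs (bF p.2 p.1)) : Fn × Fn)) := by
  classical
  refine Continuous.prodMk ?_ ?_
  · refine continuous_pi fun q => ?_
    have h1 : Continuous (fun t : C => decide (q ∈ hz t)) :=
      cont_rs_decide (fun t : C => q ∈ hz t) q.L
        (fun z z' h hz => beta_congr (y := .inf) h le_rfl hz)
    have h2 := h1.comp (continuous_snd : Continuous (fun p : (ℕ → C) × C => p.2))
    refine h2.congr fun p => ?_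
    simp only [Function.comp, rs, il, hF]
  · refine continuous_pi fun q => ?_
    have h1 : Continuous (fun t : C => decide (q ∈ bfull t)) :=
      cont_rs_decide (fun t : C => q ∈ bfull t) q.L (fun z z' h hz => cont_rs_bfull h hz)
    have h2 := h1.comp (continuous_snd : Continuous (fun p : (ℕ → C) × C => p.2))
    cases q with
    | bi i r =>
      have h3 : Continuous (fun t : C => decide (Pfx r t)) :=
        cont_rs_decide (fun t : C => Pfx r t) r.length
          (fun z z' h hz => Pfx.congr h le_rfl hz)
      have h4 : Continuous (fun p : (ℕ → C) × C => p.1 i) :=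
        (continuous_apply i).comp continuous_fst
      refine (h3.comp h4).congr fun p => ?_
      simp only [Function.comp, rs, il, bF]
    | inf =>
      refine h2.congr fun p => ?_
      simp only [Function.comp, rs, il, bF]
    | x s =>
      refine h2.congr fun p => ?_
      simp only [Function.comp, rs, il, bF]
    | iso s r =>
      refine h2.congr fun p => ?_
      simp only [Function.comp, rs, il, bF]
    | pt i =>
      refine h2.congr fun p => ?_
      simp only [Function.comp, rs, il, bF]

end CpM
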