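import Pool.Agent.Helper27.Cp.Base
import Pool.Agent.Helper27.Cp.P_Psi_val
import Pool.Agent.Helper27.Cp.P_cont_rs

set_option autoImplicit false

namespace CpM

open Set



private theorem tendsto_Psi_rs {x : ℕ → ℕ → C} {t : ℕ → TT} {x0 : ℕ → C} {t0 : TT}
    (hx : ∀ i, Filter.Tendsto (fun n => x n i) Filter.atTop (nhds (x0 i)))
    (ht : Filter.Tendsto (fun n => (t n).1) Filter.atTop (nhds t0.1)) :
    Filter.Tendsto (fun n => ((rs (hF (t n).1), rs (bF (t n).1 (x n))) : Fn × Fn)) Filter.atTop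
      (nhds (rs (hF t0.1), rs (bF t0.1 x0))) := by
  have h1 : Filter.Tendsto (fun n => ((x n, (t n).1) : (ℕ → C) × C)) Filter.atTop
      (nhds (x0, t0.1)) := (tendsto_pi_nhds.mpr hx).prodMk_nhds ht
  have h2 := (cont_rs.tendsto ((x0, t0.1) : (ℕ → C) × C)).comp h1
  exact h2

theorem tendsto_Psi {x : ℕ → ℕ → C} {t : ℕ → TT} {x0 : ℕ → C} {t0 : TT}
    (hx : ∀ i, Filter.Tendsto (fun n => x n i) Filter.atTop (nhds (x0 i)))
    (ht : Filter.Tendsto (fun n => (t n).1) Filter.atTop (nhds t0.1))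
    (h : ∀ i, x0 i ∈ TT → kap (x0 i) = i → ∀ᶠ n in Filter.atTop, x n i = x0 i) :
    Filter.Tendsto (fun n => Psi (x n) (t n)) Filter.atTop (nhds (Psi x0 t0)) := by
  classical
  have hrs := tendsto_Psi_rs hx ht
  rw [Prod.tendsto_iff] at hrs ⊢
  obtain ⟨hrs1, hrs2⟩ := hrs
  rw [tendsto_pi_nhds] at hrs1 hrs2
  constructor
  · rw [tendsto_subtype_rng]
    have e1 : (fun n => ((Psi (x n) (t n)).1 : XX → Bool)) = fun n => hF (t n).1 :=
      funext fun n => (Psi_val (x n) (t n)).1
    rw [e1, (Psi_val x0 t0).1, tendsto_pi_nhds]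
    intro p
    rcases p with q | t'
    · exact hrs1 q
    · exact tendsto_const_nhds
  · rw [tendsto_subtype_rng]
    have e1 : (fun n => ((Psi (x n) (t n)).2 : XX → Bool)) = fun n => bF (t n).1 (x n) :=
      funext fun n => (Psi_val (x n) (t n)).2
    rw [e1, (Psi_val x0 t0).2, tendsto_pi_nhds]
    intro p
    rcases p with q | t'
    · exact hrs2 q
    · by_cases hc : x0 (kap t'.1) = t'.1
      · have h1 := h (kap t'.1) (by rw [hc]; exact t'.2) (by rw [hc])
        refine tendsto_const_nhds.congr' ?_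
        filter_upwards [h1] with n hn
        have e2 : bF t0.1 x0 (Sum.inr t') = decide (x0 (kap t'.1) = t'.1) := rfl
        have e3 : bF (t n).1 (x n) (Sum.inr t') = decide (x n (kap t'.1) = t'.1) := rfl
        rw [e2, e3, hn]
      · have h1 : ∀ᶠ n in Filter.atTop, x n (kap t'.1) ≠ t'.1 :=
          (hx (kap t'.1)).eventually_ne hc
        refine tendsto_const_nhds.congr' ?_
        filter_upwards [h1] with n hn
        have e2 : bF t0.1 x0 (Sum.inr t') = decide (x0 (kap t'.1) = t'.1) := rfl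
        have e3 : bF (t n).1 (x n) (Sum.inr t') = decide (x n (kap t'.1) = t'.1) := rfl
        rw [e2, e3, decide_eq_false hn, decide_eq_false hc]

end CpM
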