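import Pool.Agent.Helper27.Cp.Base
import Pool.Agent.Helper27.Cp.P_tendsto_Psi
import Pool.Agent.Helper27.Cp.P_TU
import Pool.Agent.Helper27.Cp.P_Rel_xs

set_option autoImplicit false

namespace CpM

open Set



theorem Elim {F : Set (Cp × Cp)} (hF : IsClosed F) (j : ℕ) (u : List Bool)
    (hFU : ∀ (x : ℕ → C) (t : TT), Rel x t.1 → Psi x t ∈ F → ∃ t' : TT, kap t'.1 ≤ j ∧ x (kap t'.1) = t'.1)
    (e : ℕ → C) (he : e ∈ closure {a : ℕ → C | Cmp j a u ∧
      {s : C | Pfx u s ∧ kap s = j + 1 ∧ ∃ hs : s ∈ TT, Psi (xs j a s) ⟨s, hs⟩ ∉ F}.Countable}) :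
    ∃ l < j, e l ∈ TT ∧ kap (e l) = l + 1 := by
  by_contra hcon
  push Not at hcon
  obtain ⟨b, hb, hlim⟩ := mem_closure_iff_seq_limit.mp he
  have hlim1 : ∀ l, Filter.Tendsto (fun n => b n l) Filter.atTop (nhds (e l)) :=
    fun l => (tendsto_pi_nhds.mp hlim) l
  have hlim2 : ∀ l i, Filter.Tendsto (fun n => b n l i) Filter.atTop (nhds (e l i)) :=
    fun l i => (tendsto_pi_nhds.mp (hlim1 l)) i
  have hCmp : Cmp j e u := by
    refine ⟨(hb 0).1.1, ?_⟩
    intro s hs l hl n hn
    rw [pr_eq_iff]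
    intro i hi
    have h1 : ∀ m, b m l i = s i := fun m =>
      (pr_eq_iff.mp ((hb m).1.2 s hs l hl n hn)) i hi
    have h2 := hlim2 l i
    simp only [h1] at h2
    exact tendsto_nhds_unique h2 tendsto_const_nhds |>.symm ▸ rfl
  obtain ⟨s, hsT, hsH, hsu, hsk⟩ := TU u j (hb 0).1.1
    (⋃ m, {s : C | Pfx u s ∧ kap s = j + 1 ∧ ∃ hs : s ∈ TT, Psi (xs j (b m) s) ⟨s, hs⟩ ∉ F})
    (Set.countable_iUnion fun m => (hb m).2)
  have hmem : ∀ m, Psi (xs j (b m) s) ⟨s, hsT⟩ ∈ F := by
    intro m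
    by_contra hm
    exact hsH (Set.mem_iUnion.mpr ⟨m, hsu, hsk, hsT, hm⟩)
  have htend := tendsto_Psi (x := fun m => xs j (b m) s) (t := fun _ => ⟨s, hsT⟩)
    (x0 := xs j e s) (t0 := ⟨s, hsT⟩) (by
      intro i
      cases i with
      | zero => exact tendsto_const_nhds
      | succ l =>
        by_cases hl : l < j
        · simp only [xs, hl, if_true]
          exact hlim1 l
        · simp only [xs, hl, if_false]
          exact tendsto_const_nhds) tendsto_const_nhds (by
      intro i h1 h2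
      cases i with
      | zero => exact Filter.Eventually.of_forall fun _ => rfl
      | succ l =>
        by_cases hl : l < j
        · simp only [xs, hl, if_true] at h1 h2
          exact absurd h2 (hcon l hl h1)
        · simp only [xs, hl, if_false]
          exact Filter.Eventually.of_forall fun _ => trivial)
  have hin : Psi (xs j e s) ⟨s, hsT⟩ ∈ F :=
    hF.mem_of_tendsto htend (Filter.Eventually.of_forall hmem)
  obtain ⟨t', ht1, ht2⟩ := hFU (xs j e s) ⟨s, hsT⟩ (Rel_xs hCmp hsu) hin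
  cases hk : kap t'.1 with
  | zero =>
    rw [hk] at ht2
    have h3 : s = t'.1 := ht2
    rw [← h3, hsk] at hk
    omega
  | succ l =>
    rw [hk] at ht2 ht1
    have hl : l < j := by omega
    simp only [xs, hl, if_true] at ht2
    exact hcon l hl (by rw [ht2]; exact t'.2) (by rw [ht2]; exact hk)

end CpM
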