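import Pool.Agent.Helper27.Cp.Base

set_option autoImplicit false

namespace CpM

open Set



private theorem bra_mem_aux (x : ℕ → C) (S : Set ℕ) (F : XX → Bool)
    (h1 : ∀ i r, F (il (.bi i r)) = true ↔ (i ∈ S ∧ Pfx r (x i)))
    (h2 : ∀ q : NN, (∀ i r, q ≠ NN.bi i r) → F (il q) = false)
    (h3 : ∀ t : TT, F (ir t) = true ↔ (kap t.1 ∈ S ∧ x (kap t.1) = t.1)) : F ∈ BB := by
  classical
  have hp : ∀ y : YY, F (il (pnt y)) = false := by
    intro y
    apply h2
    intro i r h
    cases y <;> cases h
  refine ⟨?_, ?_, ?_⟩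
  · intro y
    cases y with
    | inf =>
      refine ⟨∅, ∅, ?_⟩
      intro q hq hne
      exfalso
      apply hne
      change F (il q) = F (il (pnt .inf))
      rw [hp, h2]
      rintro i r rfl
      exact hq
    | x s =>
      refine ⟨∅, ∅, ?_⟩
      rintro q ⟨r, rfl⟩ hne
      exfalso
      apply hne
      change F (il _) = F (il (pnt (.x s)))
      rw [hp, h2]
      intro i r h
      cases h
    | pt i =>
      refine ⟨∅, {x i}, ?_⟩
      rintro q ⟨r, rfl⟩ hne
      right
      refine ⟨x i, Finset.mem_singleton_self _, r, rfl, ?_⟩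
      have h4 : F (il (.bi i r)) ≠ F (il (pnt (.pt i))) := hne
      rw [hp] at h4
      have h5 : F (il (.bi i r)) = true := by
        rcases Bool.eq_false_or_eq_true (F (il (.bi i r))) with h | h
        · exact h
        · exact absurd h h4
      exact ((h1 i r).1 h5).2
  · rintro ⟨z, M⟩ ⟨τ, k, hz, hM⟩
    have hV : Valid z M := by
      have := (mkm_spec (τ.2.1 (bs (Sum.inl τ))) z).1
      simp only at hM
      rw [hM]
      exact this
    refine Set.finite_empty.subset ?_
    rintro q ⟨hq, hne⟩
    obtain ⟨s, r, rfl⟩ := hV.2.2.1 q hq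
    apply hne
    change F (il _) = F (il (pnt M.y))
    rw [hp, h2]
    intro i r h
    cases h
  · intro t
    by_cases hS : kap t.1 ∈ S
    · by_cases hx : x (kap t.1) = t.1
      · refine Set.finite_empty.subset ?_
        rintro q ⟨⟨r, rfl, hr⟩, hne⟩
        apply hne
        change F (il _) = F (ir t)
        rw [(h3 t).2 ⟨hS, hx⟩, (h1 _ _).2 ⟨hS, by rw [hx]; exact hr⟩]
      · refine (tz_inter_finite (i := kap t.1) (Ne.symm hx)).subset ?_
        rintro q ⟨⟨r, rfl, hr⟩, hne⟩
        refine ⟨⟨r, rfl, hr⟩, r, rfl, ?_⟩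
        have h4 : F (il (.bi (kap t.1) r)) ≠ F (ir t) := hne
        have h5 : F (ir t) = false := by
          rcases Bool.eq_false_or_eq_true (F (ir t)) with h | h
          · exact absurd ((h3 t).1 h).2 hx
          · exact h
        rw [h5] at h4
        have h6 : F (il (.bi (kap t.1) r)) = true := by
          rcases Bool.eq_false_or_eq_true (F (il (.bi (kap t.1) r))) with h | h
          · exact h
          · exact absurd h h4
        exact ((h1 _ r).1 h6).2
    · refine Set.finite_empty.subset ?_
      rintro q ⟨⟨r, rfl, hr⟩, hne⟩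
      apply hne
      change F (il _) = F (ir t)
      have h5 : F (ir t) = false := by
        rcases Bool.eq_false_or_eq_true (F (ir t)) with h | h
        · exact absurd ((h3 t).1 h).1 hS
        · exact h
      have h6 : F (il (.bi (kap t.1) r)) = false := by
        rcases Bool.eq_false_or_eq_true (F (il (.bi (kap t.1) r))) with h | h
        · exact absurd ((h1 _ r).1 h).1 hS
        · exact h
      rw [h5, h6]

theorem bra_mem (x : ℕ → C) (S : Set ℕ) : (fun z : XX => match z with
      | Sum.inl (.bi i r) => (by classical exact decide (i ∈ S ∧ Pfx r (x i)))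
      | Sum.inl _ => false
      | Sum.inr t => (by classical exact decide (kap t.1 ∈ S ∧ x (kap t.1) = t.1)) : XX → Bool) ∈ BB := by
  refine bra_mem_aux x S _ ?_ ?_ ?_
  · intro i r
    simp [il]
  · intro q hq
    cases q with
    | bi i r => exact absurd rfl (hq i r)
    | inf => rfl
    | x s => rfl
    | iso s r => rfl
    | pt i => rfl
  · intro t
    simp [ir]

end CpM
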