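import Pool.Agent.Helper27.Cp.Base
import Pool.Agent.Helper27.Cp.P_bra_mem

set_option autoImplicit false

namespace CpM

open Set

theorem braF_mem (S : Set ℕ) (x : ℕ → C) : braF S x ∈ BB := by
  have h := bra_mem x S
  have h2 : braF S x = (fun z : XX => match z with
      | Sum.inl (.bi i r) => (by classical exact decide (i ∈ S ∧ Pfx r (x i)))
      | Sum.inl _ => false
      | Sum.inr t => (by classical exact decide (kap t.1 ∈ S ∧ x (kap t.1) = t.1)) : XX → Bool) := by
    funext z
    rcases z with q | t
    · cases q <;> rfl
    · rfl
  rw [h2]; exact h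

end CpM
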