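import Pool.Agent.Helper27.Cp.Base
import Pool.Agent.Helper27.Cp.P_bs_disj

set_option autoImplicit false

namespace CpM

open Set



theorem EE_fun : ∀ z M M', (z, M) ∈ EE → (z, M') ∈ EE → M = M' := by
  rintro z M M' ⟨τ, k, h1, h2⟩ ⟨τ', k', h1', h2'⟩
  have h1a : z = (τ.1.1 (bs (Sum.inl τ))).2 k := h1
  have h1b : z = (τ'.1.1 (bs (Sum.inl τ'))).2 k' := h1'
  have h2a : M = mkm (τ.1.1 (bs (Sum.inl τ))).1 z := h2
  have h2b : M' = mkm (τ'.1.1 (bs (Sum.inl τ'))).1 z := h2'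
  have hτ : τ = τ' := by
    by_contra hne
    have hd := bs_disj (Sum.inl τ) (Sum.inl τ') (fun h => hne (Sum.inl.inj h))
    have ha : z ∈ AA (Sum.inl τ) (bs (Sum.inl τ)) := ⟨k, h1a.symm⟩
    have hb : z ∈ AA (Sum.inl τ') (bs (Sum.inl τ')) := ⟨k', h1b.symm⟩
    exact Set.disjoint_left.1 hd ha hb
  subst hτ
  rw [h2a, h2b]

end CpM
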