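import Pool.Agent.Helper27.Cp.Base
import Pool.Agent.Helper27.Cp.P_EE_fun

set_option autoImplicit false

namespace CpM

open Set



/-- every good family has a member all whose coordinates are marked by respected marks -/
theorem LP (τ : Fam) (h : Good τ) : ∃ p, ∀ k, (τ.1 p).2 k ∉ TT ∧
    ∀ M, ((τ.1 p).2 k, M) ∈ EE → Resp (τ.1 p).1 M := by
  refine ⟨bs (Sum.inl ⟨τ, h⟩), fun k => ?_⟩
  have hE : ((τ.1 (bs (Sum.inl ⟨τ, h⟩))).2 k,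
      mkm (τ.1 (bs (Sum.inl ⟨τ, h⟩))).1 ((τ.1 (bs (Sum.inl ⟨τ, h⟩))).2 k)) ∈ EE :=
    ⟨⟨τ, h⟩, k, rfl, rfl⟩
  refine ⟨fun hT => hT ⟨_, hE, rfl⟩, fun M hM => ?_⟩
  rw [EE_fun _ _ _ hM hE]
  exact (mkm_spec (h.1 _) _).2

end CpM
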