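import Pool.Agent.Helper27.Cp.Base

set_option autoImplicit false

namespace CpM

open Set



theorem pigeon (I : SIdeal) {ι : Type} [Countable ι] {V : Set Fn} (hV : ¬ I.Sm V) (g : Fn → ι) :
    ∃ i, ¬ I.Sm {w | w ∈ V ∧ g w = i} := by
  by_contra hcon
  push Not at hcon
  rcases V.eq_empty_or_nonempty with h0 | ⟨w0, _⟩
  · exact hV (h0 ▸ I.empty)
  · haveI : Nonempty ι := ⟨g w0⟩
    obtain ⟨e, he⟩ := exists_surjective_nat ι
    refine hV (I.mono V (⋃ n, {w | w ∈ V ∧ g w = e n}) ?_ (I.iUnion _ fun n => hcon (e n)))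
    intro w hw
    obtain ⟨n, hn⟩ := he (g w)
    exact Set.mem_iUnion.2 ⟨n, hw, hn.symm⟩

end CpM
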