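import Pool.Agent.Helper27.Cp.Base
import Pool.Agent.Helper27.Cp.P_pigeon

set_option autoImplicit false

namespace CpM

open Set



private theorem split_iUnion (I : SIdeal) {ι : Type*} [Countable ι] (A : ι → Set Fn)
    (h : ∀ i, I.Sm (A i)) : I.Sm (⋃ i, A i) := by
  rcases isEmpty_or_nonempty ι with hι | hι
  · rw [Set.iUnion_of_empty]
    exact I.empty
  · obtain ⟨f, hf⟩ := exists_surjective_nat ι
    refine I.mono _ _ ?_ (I.iUnion (fun n => A (f n)) fun n => h _)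
    intro w hw
    obtain ⟨i, hi⟩ := Set.mem_iUnion.1 hw
    obtain ⟨n, rfl⟩ := hf i
    exact Set.mem_iUnion.2 ⟨n, hi⟩

private theorem split_union (I : SIdeal) {A B : Set Fn} (hA : I.Sm A) (hB : I.Sm B) : I.Sm (A ∪ B) := by
  refine I.mono _ _ ?_ (split_iUnion I (fun b : Bool => cond b A B) (by
    intro b; cases b
    · exact hB
    · exact hA))
  rintro w (hw | hw)
  · exact Set.mem_iUnion.2 ⟨true, hw⟩
  · exact Set.mem_iUnion.2 ⟨false, hw⟩

private theorem split_uniform {α : Type*} (P : α → ℕ → Prop) (hP : ∀ u n m, n ≤ m → P u n → P u m)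
    (us : List α) (h : ∀ u ∈ us, ∃ N, P u N) : ∃ N, ∀ u ∈ us, P u N := by
  induction us with
  | nil => exact ⟨0, by simp⟩
  | cons a l ih =>
    obtain ⟨N1, h1⟩ := ih fun u hu => h u (List.mem_cons_of_mem _ hu)
    obtain ⟨N2, h2⟩ := h a List.mem_cons_self
    refine ⟨max N1 N2, fun u hu => ?_⟩
    rcases List.mem_cons.1 hu with rfl | hu
    · exact hP _ _ _ (le_max_right _ _) h2
    · exact hP _ _ _ (le_max_left _ _) (h1 u hu)

theorem split (I : SIdeal) {V : Set Fn} (hV : ¬ I.Sm V) (us : List (Fn → C))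
    (hus : ∀ u ∈ us, ∀ c, I.Sm {w | w ∈ V ∧ u w = c}) :
    ∃ (V0 V1 : Set Fn) (N : ℕ), V0 ⊆ V ∧ V1 ⊆ V ∧ ¬ I.Sm V0 ∧ ¬ I.Sm V1 ∧
      ∀ u ∈ us, ∀ w ∈ V0, ∀ w' ∈ V1, pr (u w) N ≠ pr (u w') N := by
  set Bad : Set Fn := ⋃ (P : ℕ × List (List Bool)),
    {w | w ∈ V ∧ us.map (fun u => pr (u w) P.1) = P.2 ∧
      I.Sm {w' | w' ∈ V ∧ us.map (fun u => pr (u w') P.1) = P.2}} with hBad
  have hbad : I.Sm Bad := by
    refine split_iUnion I _ fun P => ?_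
    by_cases h : I.Sm {w' | w' ∈ V ∧ us.map (fun u => pr (u w') P.1) = P.2}
    · refine I.mono _ _ (fun w hw => ?_) h
      exact ⟨hw.1, hw.2.1⟩
    · refine I.mono _ _ (fun w hw => ?_) I.empty
      exact h hw.2.2
  have hcond : ∀ w ∈ V, w ∉ Bad → ∀ N,
      ¬ I.Sm {w' | w' ∈ V ∧ us.map (fun u => pr (u w') N) = us.map (fun u => pr (u w) N)} := by
    intro w hw hwb N h
    exact hwb (Set.mem_iUnion.2 ⟨(N, us.map (fun u => pr (u w) N)), hw, rfl, h⟩)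
  obtain ⟨w0, hw0, hw0b⟩ : ∃ w0 ∈ V, w0 ∉ Bad := by
    by_contra hcon
    push Not at hcon
    exact hV (I.mono _ _ hcon hbad)
  have hfib : I.Sm (⋃ (u : {u // u ∈ us}), {w | w ∈ V ∧ u.1 w = u.1 w0}) := by
    haveI : Countable {u // u ∈ us} :=
      (Set.Finite.countable (List.finite_toSet us)).to_subtype
    exact split_iUnion I _ fun u => hus u.1 u.2 _
  obtain ⟨w1, hw1, hw1b⟩ : ∃ w1 ∈ V, w1 ∉ Bad ∪ (⋃ (u : {u // u ∈ us}), {w | w ∈ V ∧ u.1 w = u.1 w0}) := by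
    by_contra hcon
    push Not at hcon
    exact hV (I.mono _ _ hcon (split_union I hbad hfib))
  have hne : ∀ u ∈ us, u w0 ≠ u w1 := by
    intro u hu h
    exact hw1b (Or.inr (Set.mem_iUnion.2 ⟨⟨u, hu⟩, hw1, h.symm⟩))
  have hw1b' : w1 ∉ Bad := fun h => hw1b (Or.inl h)
  obtain ⟨N, hN⟩ := split_uniform (fun (u : Fn → C) N => pr (u w0) N ≠ pr (u w1) N)
    (fun u n m hnm h h' => h (pr_eq_mono h' hnm)) us (by
      intro u hu
      obtain ⟨k, hk⟩ := Function.ne_iff.1 (hne u hu)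
      exact ⟨k + 1, fun h => hk (pr_eq_iff.1 h k (Nat.lt_succ_self k))⟩)
  refine ⟨_, _, N, fun w hw => hw.1, fun w hw => hw.1, hcond w0 hw0 hw0b N,
    hcond w1 hw1 hw1b' N, ?_⟩
  rintro u hu w ⟨_, hw⟩ w' ⟨_, hw'⟩ h
  rw [List.map_inj_left] at hw hw'
  exact hN u hu (by rw [← hw u hu, ← hw' u hu]; exact h)

end CpM
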