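import Pool.Agent.Helper27.Cp.Base
import Pool.Agent.Helper27.Cp.P_pigeon
import Pool.Agent.Helper27.Cp.P_EE_fun
import Pool.Agent.Helper27.Cp.P_EE_valid

set_option autoImplicit false

namespace CpM

open Set



private theorem thin_aux (I : SIdeal) (y : YY) (vs : List (Fn → C)) :
    ∀ (us : List (Fn → C)) (V : Set Fn) (J : Finset NN) (Zc : Finset C),
      ¬ I.Sm V → V ⊆ rs '' BB → (∀ u ∈ us, ∀ c, I.Sm {w | w ∈ V ∧ u w = c}) →
      (∀ w ∈ V, ∀ q ∈ dom y, w q ≠ w (pnt y) → q ∈ J ∨ (∃ c ∈ Zc, q ∈ gam y c) ∨
        (∃ u ∈ us, q ∈ beta y (u w)) ∨ ∃ v ∈ vs, q ∈ beta y (v w)) →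
      (∀ c ∈ Zc, c ∈ TT → y = .pt (kap c) → ∀ w ∈ V, ∀ q ∈ tz (kap c) c, q ∈ J ∨ w q ≠ w (pnt y)) →
      ∃ (V' : Set Fn) (us' : List (Fn → C)) (J' : Finset NN) (Zc' : Finset C),
        V' ⊆ V ∧ ¬ I.Sm V' ∧ (∀ u ∈ us', ∀ c, I.Sm {w | w ∈ V' ∧ u w = c}) ∧
        Unif y V' us' J' Zc' := by
  classical
  induction vs with
  | nil =>
    intro us V J Zc hV hVW hus h hz
    refine ⟨V, us, J, Zc, le_refl _, hV, hus, fun w hw q hq hne => ?_, hz⟩
    rcases h w hw q hq hne with h1 | h1 | h1 | ⟨v, hv, _⟩
    · exact Or.inl h1
    · exact Or.inr (Or.inl h1)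
    · exact Or.inr (Or.inr h1)
    · simp at hv
  | cons v vs ih =>
    intro us V J Zc hV hVW hus h hz
    by_cases hcst : ∃ c, ¬ I.Sm {w | w ∈ V ∧ v w = c}
    · obtain ⟨c, hunc1⟩ := hcst
      by_cases hM : ∃ M, (c, M) ∈ EE ∧ M.y = y
      · obtain ⟨M, hM, hy⟩ := hM
        have hresp0 : ∀ w ∈ V, {q | q ∈ M.Q ∧ w q ≠ w (pnt M.y)}.Finite := by
          intro w hw
          obtain ⟨F, hF, rfl⟩ := hVW hw
          exact hF.2.1 _ hM
        obtain ⟨X, hX⟩ := pigeon I hunc1 (fun w => if h : {q | q ∈ M.Q ∧ w q ≠ w (pnt M.y)}.Finite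
          then h.toFinset else ∅)
        obtain ⟨V', us', J', Zc', h1, h2, h3, h4⟩ := ih us
          {w | w ∈ {w | w ∈ V ∧ v w = c} ∧ (if h : {q | q ∈ M.Q ∧ w q ≠ w (pnt M.y)}.Finite
          then h.toFinset else ∅) = X}
          (J ∪ X) (insert c Zc) hX (fun w hw => hVW hw.1.1)
          (fun u hu c' => I.mono _ {w | w ∈ V ∧ u w = c'} (fun w hw => ⟨hw.1.1.1, hw.2⟩) (hus u hu c')) (by
            rintro w ⟨⟨hw, hw2⟩, hwX⟩ q hq hne
            have hresp : {q | q ∈ M.Q ∧ w q ≠ w (pnt M.y)}.Finite := hresp0 w hw
            rw [dif_pos hresp] at hwX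
            rcases h w hw q hq hne with h1 | ⟨c', h1, h1'⟩ | h1 | ⟨v', hv', hqv⟩
            · exact Or.inl (Finset.mem_union_left _ h1)
            · exact Or.inr (Or.inl ⟨c', Finset.mem_insert_of_mem h1, h1'⟩)
            · exact Or.inr (Or.inr (Or.inl h1))
            · rcases List.mem_cons.1 hv' with rfl | hv''
              · rw [hw2] at hqv
                by_cases hqM : q ∈ M.Q
                · left
                  apply Finset.mem_union_right
                  rw [← hwX, Set.Finite.mem_toFinset]
                  exact ⟨hqM, by rw [hy]; exact hne⟩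
                · right; left
                  refine ⟨c, Finset.mem_insert_self _ _, hqv, fun M' hM' _ => ?_⟩
                  rw [EE_fun c M' M hM' hM]; exact hqM
              · exact Or.inr (Or.inr (Or.inr ⟨v', hv'', hqv⟩))) (by
            intro c' hc' hT hyc w hw q hq
            rcases Finset.mem_insert.1 hc' with rfl | hc''
            · exact absurd ⟨(c', M), hM, rfl⟩ hT
            · rcases hz c' hc'' hT hyc w hw.1.1 q hq with h1 | h1
              · exact Or.inl (Finset.mem_union_left _ h1)
              · exact Or.inr h1)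
        exact ⟨V', us', J', Zc', fun w hw => (h1 hw).1.1, h2, h3, h4⟩
      · push Not at hM
        by_cases hT : c ∈ TT ∧ y = .pt (kap c)
        · obtain ⟨hT, hy⟩ := hT
          have hfin : ∀ w ∈ V, {q | q ∈ tz (kap c) c ∧ w q ≠ w (pnt y)}.Finite ∨
              {q | q ∈ tz (kap c) c ∧ w q = w (pnt y)}.Finite := by
            intro w hw
            obtain ⟨F, hF, rfl⟩ := hVW hw
            have h1 := hF.2.2 ⟨c, hT⟩
            by_cases hb : rs F (pnt y) = F (ir ⟨c, hT⟩)
            · left
              rw [hb]
              exact h1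
            · right
              refine h1.subset ?_
              rintro q ⟨hq1, hq2⟩
              refine ⟨hq1, ?_⟩
              rw [hq2]
              exact hb
          obtain ⟨⟨b, X⟩, hX⟩ := pigeon I hunc1 (fun w =>
            ((if {q | q ∈ tz (kap c) c ∧ w q ≠ w (pnt y)}.Finite then true else false : Bool),
            (if h : {q | q ∈ tz (kap c) c ∧ w q ≠ w (pnt y)}.Finite
              then h.toFinset else if h' : {q | q ∈ tz (kap c) c ∧ w q = w (pnt y)}.Finite then h'.toFinset else ∅)))
          cases b with
          | true =>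
            obtain ⟨V', us', J', Zc', h1, h2, h3, h4⟩ := ih us _
              (J ∪ X) Zc hX (fun w hw => hVW hw.1.1)
              (fun u hu c' => I.mono _ {w | w ∈ V ∧ u w = c'} (fun w hw => ⟨hw.1.1.1, hw.2⟩) (hus u hu c')) (by
                rintro w ⟨⟨hw, hw2⟩, hwX⟩ q hq hne
                simp only [Prod.mk.injEq] at hwX
                obtain ⟨hwX1, hwX2⟩ := hwX
                have hf : {q | q ∈ tz (kap c) c ∧ w q ≠ w (pnt y)}.Finite := by
                  by_contra hc
                  rw [if_neg hc] at hwX1
                  cases hwX1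
                rw [dif_pos hf] at hwX2
                rcases h w hw q hq hne with h1 | ⟨c', h1, h1'⟩ | h1 | ⟨v', hv', hqv⟩
                · exact Or.inl (Finset.mem_union_left _ h1)
                · exact Or.inr (Or.inl ⟨c', h1, h1'⟩)
                · exact Or.inr (Or.inr (Or.inl h1))
                · rcases List.mem_cons.1 hv' with rfl | hv''
                  · rw [hw2] at hqv
                    left
                    apply Finset.mem_union_right
                    rw [← hwX2, Set.Finite.mem_toFinset]
                    refine ⟨?_, hne⟩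
                    rw [hy] at hqv
                    exact hqv
                  · exact Or.inr (Or.inr (Or.inr ⟨v', hv'', hqv⟩))) (by
                intro c' hc' hT' hyc w hw q hq
                rcases hz c' hc' hT' hyc w hw.1.1 q hq with h1 | h1
                · exact Or.inl (Finset.mem_union_left _ h1)
                · exact Or.inr h1)
            exact ⟨V', us', J', Zc', fun w hw => (h1 hw).1.1, h2, h3, h4⟩
          | false =>
            have key : ∀ w, w ∈ V → ((if {q | q ∈ tz (kap c) c ∧ w q ≠ w (pnt y)}.Finite then true else false : Bool),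
                (if h : {q | q ∈ tz (kap c) c ∧ w q ≠ w (pnt y)}.Finite
                  then h.toFinset else if h' : {q | q ∈ tz (kap c) c ∧ w q = w (pnt y)}.Finite then h'.toFinset else ∅)) = (false, X) →
                ∀ q, q ∈ tz (kap c) c → w q = w (pnt y) → q ∈ X := by
              intro w hw hwX q hq1 hq2
              simp only [Prod.mk.injEq] at hwX
              obtain ⟨hwX1, hwX2⟩ := hwX
              have hf : ¬ {q | q ∈ tz (kap c) c ∧ w q ≠ w (pnt y)}.Finite := by
                intro hc
                rw [if_pos hc] at hwX1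
                cases hwX1
              rw [dif_neg hf] at hwX2
              have hf2 := (hfin w hw).resolve_left hf
              rw [dif_pos hf2] at hwX2
              rw [← hwX2, Set.Finite.mem_toFinset]
              exact ⟨hq1, hq2⟩
            obtain ⟨V', us', J', Zc', h1, h2, h3, h4⟩ := ih us _
              (J ∪ X) (insert c Zc) hX (fun w hw => hVW hw.1.1)
              (fun u hu c' => I.mono _ {w | w ∈ V ∧ u w = c'} (fun w hw => ⟨hw.1.1.1, hw.2⟩) (hus u hu c')) (by
                rintro w ⟨⟨hw, hw2⟩, hwX⟩ q hq hne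
                rcases h w hw q hq hne with h1 | ⟨c', h1, h1'⟩ | h1 | ⟨v', hv', hqv⟩
                · exact Or.inl (Finset.mem_union_left _ h1)
                · exact Or.inr (Or.inl ⟨c', Finset.mem_insert_of_mem h1, h1'⟩)
                · exact Or.inr (Or.inr (Or.inl h1))
                · rcases List.mem_cons.1 hv' with rfl | hv''
                  · rw [hw2] at hqv
                    right; left
                    exact ⟨c, Finset.mem_insert_self _ _, hqv, fun M' hM' hy' => absurd hy' (hM M' hM')⟩
                  · exact Or.inr (Or.inr (Or.inr ⟨v', hv'', hqv⟩))) (by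
                intro c' hc' hT' hyc w hw q hq
                rcases Finset.mem_insert.1 hc' with rfl | hc''
                · by_cases hwq : w q = w (pnt y)
                  · left
                    apply Finset.mem_union_right
                    exact key w hw.1.1 hw.2 q hq hwq
                  · exact Or.inr hwq
                · rcases hz c' hc'' hT' hyc w hw.1.1 q hq with h1 | h1
                  · exact Or.inl (Finset.mem_union_left _ h1)
                  · exact Or.inr h1)
            exact ⟨V', us', J', Zc', fun w hw => (h1 hw).1.1, h2, h3, h4⟩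
        · obtain ⟨V', us', J', Zc', h1, h2, h3, h4⟩ := ih us {w | w ∈ V ∧ v w = c} J (insert c Zc) hunc1
            (fun w hw => hVW hw.1)
            (fun u hu c' => I.mono _ {w | w ∈ V ∧ u w = c'} (fun w hw => ⟨hw.1.1, hw.2⟩) (hus u hu c')) (by
              rintro w ⟨hw, hw2⟩ q hq hne
              rcases h w hw q hq hne with h1 | ⟨c', h1, h1'⟩ | h1 | ⟨v', hv', hqv⟩
              · exact Or.inl h1
              · exact Or.inr (Or.inl ⟨c', Finset.mem_insert_of_mem h1, h1'⟩)
              · exact Or.inr (Or.inr (Or.inl h1))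
              · rcases List.mem_cons.1 hv' with rfl | hv''
                · rw [hw2] at hqv
                  right; left
                  exact ⟨c, Finset.mem_insert_self _ _, hqv, fun M' hM' hy' => absurd hy' (hM M' hM')⟩
                · exact Or.inr (Or.inr (Or.inr ⟨v', hv'', hqv⟩))) (by
              intro c' hc' hT' hyc w hw q hq
              rcases Finset.mem_insert.1 hc' with rfl | hc''
              · exact absurd ⟨hT', hyc⟩ hT
              · exact hz c' hc'' hT' hyc w hw.1 q hq)
          exact ⟨V', us', J', Zc', fun w hw => (h1 hw).1, h2, h3, h4⟩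
    · push Not at hcst
      obtain ⟨V', us', J', Zc', h1, h2, h3, h4⟩ := ih (v :: us) V J Zc hV
          hVW (fun u hu => by
            rcases List.mem_cons.1 hu with rfl | hu
            · exact hcst
            · exact hus u hu) (by
            intro w hw q hq hne
            rcases h w hw q hq hne with h1 | h1 | ⟨u, hu, hqu⟩ | ⟨v', hv', hqv⟩
            · exact Or.inl h1
            · exact Or.inr (Or.inl h1)
            · exact Or.inr (Or.inr (Or.inl ⟨u, List.mem_cons_of_mem _ hu, hqu⟩))
            · rcases List.mem_cons.1 hv' with rfl | hv''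
              · exact Or.inr (Or.inr (Or.inl ⟨v', List.mem_cons_self, hqv⟩))
              · exact Or.inr (Or.inr (Or.inr ⟨v', hv'', hqv⟩))) hz
      exact ⟨V', us', J', Zc', h1, h2, h3, h4⟩

theorem thin (I : SIdeal) (y : YY) {V : Set Fn} (hV : ¬ I.Sm V) (hVW : V ⊆ rs '' BB) :
    ∃ (V' : Set Fn) (us : List (Fn → C)) (J : Finset NN) (Zc : Finset C),
      V' ⊆ V ∧ ¬ I.Sm V' ∧ (∀ u ∈ us, ∀ c, I.Sm {w | w ∈ V' ∧ u w = c}) ∧ Unif y V' us J Zc := by
  classical
  have hG' : ∀ w ∈ rs '' BB, ∃ (J : Finset NN) (Z : Finset C), ∀ q ∈ dom y, w q ≠ w (pnt y) →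
      q ∈ J ∨ ∃ z ∈ Z, q ∈ beta y z := by
    rintro w ⟨F, hF, rfl⟩
    exact hF.1 y
  choose! J Z hJZ using hG'
  obtain ⟨⟨J0, k⟩, hfix⟩ := pigeon I hV (fun w => (J w, (Z w).card))
  obtain ⟨V', us', J', Zc', h1, h2, h3, h4⟩ := thin_aux I y
    ((List.range k).map (fun i => fun w => (Z w).toList.getD i (fun _ => false))) []
    {w | w ∈ V ∧ (J w, (Z w).card) = (J0, k)} J0 ∅ hfix (fun w hw => hVW hw.1) (by simp) (by
      rintro w ⟨hw, he⟩ q hq hne
      simp only [Prod.mk.injEq] at he
      rcases hJZ w (hVW hw) q hq hne with h | ⟨z, hz, hqz⟩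
      · left; rw [← he.1]; exact h
      · right; right; right
        have hz' : z ∈ (Z w).toList := Finset.mem_toList.2 hz
        obtain ⟨i, hi, hiz⟩ := List.mem_iff_getElem.1 hz'
        refine ⟨fun w => (Z w).toList.getD i (fun _ => false), ?_, ?_⟩
        · rw [List.mem_map]
          refine ⟨i, ?_, rfl⟩
          rw [List.mem_range, ← he.2, ← Finset.length_toList]
          exact hi
        · have : (Z w).toList.getD i (fun _ => false) = z := by
            rw [List.getD_eq_getElem _ _ hi, hiz]
          simp only [this]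
          exact hqz) (by
      intro c hc
      simp at hc)
  exact ⟨V', us', J', Zc', fun w hw => (h1 hw).1, h2, h3, h4⟩

end CpM
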