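import Pool.Agent.Helper27.Cp.Base
import Pool.Agent.Helper27.Cp.P_pigeon
import Pool.Agent.Helper27.Cp.P_thin
import Pool.Agent.Helper27.Cp.P_split

set_option autoImplicit false

namespace CpM

open Set



private theorem step_unif_mono {y : YY} {V V' : Set Fn} {us : List (Fn → C)} {J : Finset NN}
    {Zc : Finset C} (h : Unif y V us J Zc) (hV : V' ⊆ V) : Unif y V' us J Zc :=
  ⟨fun w hw => h.1 w (hV hw), fun c hc hT hy w hw => h.2 c hc hT hy w (hV hw)⟩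

private theorem step_sm (I : SIdeal) {V V' : Set Fn} (u : Fn → C) (c : C)
    (h : I.Sm {w | w ∈ V ∧ u w = c}) (hV : V' ⊆ V) : I.Sm {w | w ∈ V' ∧ u w = c} := by
  have hs : {w | w ∈ V' ∧ u w = c} ⊆ {w | w ∈ V ∧ u w = c} := fun w hw => ⟨hV hw.1, hw.2⟩
  exact I.mono _ _ hs h

theorem step (I : SIdeal) (ν : Node I) (n : ℕ) :
    ∃ (new : List (Fn → C)) (J : Finset NN) (Zc : Finset C) (ch : Bool → Node I) (N : ℕ),
      (∀ b, (ch b).us = new ++ ν.us) ∧ (∀ b, (ch b).V ⊆ ν.V) ∧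
      (∀ b, Unif (ye n) (ch b).V new J Zc) ∧
      (∀ b, ∀ w ∈ (ch b).V, ∀ w' ∈ (ch b).V, (∀ i < n, w (en i) = w' (en i)) ∧
        ∀ u ∈ new ++ ν.us, pr (u w) n = pr (u w') n) ∧
      (∀ u ∈ new ++ ν.us, ∀ w ∈ (ch false).V, ∀ w' ∈ (ch true).V, pr (u w) N ≠ pr (u w') N) := by
  obtain ⟨V1, new, J, Zc, h1, h2, h3, h4⟩ := thin I (ye n) ν.pos ν.sub
  have hinj1 : ∀ u ∈ new ++ ν.us, ∀ c, I.Sm {w | w ∈ V1 ∧ u w = c} := by
    intro u hu c
    rcases List.mem_append.1 hu with hu | hu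
    · exact h3 u hu c
    · exact step_sm I u c (ν.inj u hu c) h1
  obtain ⟨⟨L1, L2⟩, hL⟩ := pigeon I h2 (fun w => ((List.range n).map (fun i => w (en i)),
    (new ++ ν.us).map (fun u => pr (u w) n)))
  obtain ⟨V0', V1', N, h5, h6, h7, h8, h9⟩ := split I hL (new ++ ν.us)
    (fun u hu c => step_sm I u c (hinj1 u hu c) fun w hw => hw.1)
  have hagree : ∀ w ∈ {w | w ∈ V1 ∧ ((List.range n).map (fun i => w (en i)),
    (new ++ ν.us).map (fun u => pr (u w) n)) = (L1, L2)}, ∀ w' ∈ {w | w ∈ V1 ∧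
      ((List.range n).map (fun i => w (en i)), (new ++ ν.us).map (fun u => pr (u w) n)) = (L1, L2)},
      (∀ i < n, w (en i) = w' (en i)) ∧ ∀ u ∈ new ++ ν.us, pr (u w) n = pr (u w') n := by
    rintro w ⟨_, hw⟩ w' ⟨_, hw'⟩
    rw [← hw'] at hw
    simp only [Prod.mk.injEq] at hw
    obtain ⟨ha, hb⟩ := hw
    rw [List.map_inj_left] at ha hb
    exact ⟨fun i hi => ha i (List.mem_range.2 hi), hb⟩
  refine ⟨new, J, Zc, fun b => if b then
      ⟨V1', new ++ ν.us, h8, fun w hw => ν.sub (h1 (h6 hw).1), fun u hu c =>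
        step_sm I u c (hinj1 u hu c) fun w hw => (h6 hw).1⟩ else
      ⟨V0', new ++ ν.us, h7, fun w hw => ν.sub (h1 (h5 hw).1), fun u hu c =>
        step_sm I u c (hinj1 u hu c) fun w hw => (h5 hw).1⟩, N, ?_, ?_, ?_, ?_, ?_⟩
  · intro b; cases b <;> rfl
  · intro b; cases b
    · exact fun w hw => h1 (h5 hw).1
    · exact fun w hw => h1 (h6 hw).1
  · intro b; cases b
    · exact step_unif_mono h4 fun w hw => (h5 hw).1
    · exact step_unif_mono h4 fun w hw => (h6 hw).1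
  · intro b; cases b
    · exact fun w hw w' hw' => hagree w (h5 hw) w' (h5 hw')
    · exact fun w hw w' hw' => hagree w (h6 hw) w' (h6 hw')
  · exact h9

end CpM
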