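import Pool.Agent.Helper27.Cp.Base
import Pool.Agent.Helper27.Cp.P_step

set_option autoImplicit false

namespace CpM

open Set



/-- root of the fusion tree -/
private def FusionRoot (I : SIdeal) (hI : ¬ I.Sm (rs '' BB)) : Node I where
  V := rs '' BB
  us := []
  pos := hI
  sub := le_refl _
  inj := by intro u hu; simp at hu

/-- the new coordinates -/
private noncomputable def FusionNew (I : SIdeal) (ν : Node I) (n : ℕ) : List (Fn → C) :=
  Classical.choose (step I ν n)

/-- the children -/
private noncomputable def FusionCh (I : SIdeal) (ν : Node I) (n : ℕ) : Bool → Node I :=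
  Classical.choose (Classical.choose_spec (Classical.choose_spec (Classical.choose_spec (step I ν n))))

private theorem FusionSpec (I : SIdeal) (ν : Node I) (n : ℕ) :
    ∃ (J : Finset NN) (Zc : Finset C) (N : ℕ),
      (∀ b, (FusionCh I ν n b).us = FusionNew I ν n ++ ν.us) ∧ (∀ b, (FusionCh I ν n b).V ⊆ ν.V) ∧
      (∀ b, Unif (ye n) (FusionCh I ν n b).V (FusionNew I ν n) J Zc) ∧
      (∀ b, ∀ w ∈ (FusionCh I ν n b).V, ∀ w' ∈ (FusionCh I ν n b).V, (∀ i < n, w (en i) = w' (en i)) ∧
        ∀ u ∈ FusionNew I ν n ++ ν.us, pr (u w) n = pr (u w') n) ∧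
      (∀ u ∈ FusionNew I ν n ++ ν.us, ∀ w ∈ (FusionCh I ν n false).V,
        ∀ w' ∈ (FusionCh I ν n true).V, pr (u w) N ≠ pr (u w') N) := by
  have h := Classical.choose_spec (Classical.choose_spec (Classical.choose_spec
    (Classical.choose_spec (step I ν n))))
  obtain ⟨N, hN⟩ := h
  exact ⟨_, _, N, hN⟩

/-- the node of `p` at level `n` -/
private noncomputable def FusionNode (I : SIdeal) (hI : ¬ I.Sm (rs '' BB)) (p : C) : ℕ → Node I
  | 0 => FusionRoot I hI
  | n + 1 => FusionCh I (FusionNode I hI p n) n (p n)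

private theorem FusionNode_congr (I : SIdeal) (hI : ¬ I.Sm (rs '' BB)) (p p' : C) (n : ℕ)
    (h : ∀ i < n, p i = p' i) : FusionNode I hI p n = FusionNode I hI p' n := by
  induction n with
  | zero => rfl
  | succ n ih =>
    show FusionCh I (FusionNode I hI p n) n (p n) = FusionCh I (FusionNode I hI p' n) n (p' n)
    rw [ih (fun i hi => h i (by omega)), h n (by omega)]

private theorem FusionNode_anti (I : SIdeal) (hI : ¬ I.Sm (rs '' BB)) (p : C) {m n : ℕ} (h : n ≤ m) :
    (FusionNode I hI p m).V ⊆ (FusionNode I hI p n).V := by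
  induction h with
  | refl => exact le_refl _
  | step _ ih =>
    obtain ⟨J, Zc, N, h1, h2, h3, h4, h5⟩ := FusionSpec I (FusionNode I hI p _) _
    exact (h2 _).trans ih

private theorem FusionNode_us (I : SIdeal) (hI : ¬ I.Sm (rs '' BB)) (p : C) {m n : ℕ} (h : n ≤ m)
    (u : Fn → C) (hu : u ∈ (FusionNode I hI p n).us) : u ∈ (FusionNode I hI p m).us := by
  induction h with
  | refl => exact hu
  | @step k _ ih =>
    obtain ⟨J, Zc, N, h1, h2, h3, h4, h5⟩ := FusionSpec I (FusionNode I hI p k) k
    have h6 : (FusionNode I hI p (k + 1)).us =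
      FusionNew I (FusionNode I hI p k) k ++ (FusionNode I hI p k).us := h1 _
    show u ∈ (FusionNode I hI p (k + 1)).us
    rw [h6]
    exact List.mem_append_right _ ih

private theorem FusionNew_us (I : SIdeal) (hI : ¬ I.Sm (rs '' BB)) (p : C) {m n : ℕ} (h : n + 1 ≤ m)
    (u : Fn → C) (hu : u ∈ FusionNew I (FusionNode I hI p n) n) :
    u ∈ (FusionNode I hI p m).us := by
  apply FusionNode_us I hI p h
  obtain ⟨J, Zc, N, h1, h2, h3, h4, h5⟩ := FusionSpec I (FusionNode I hI p n) n
  have h6 : (FusionNode I hI p (n + 1)).us =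
      FusionNew I (FusionNode I hI p n) n ++ (FusionNode I hI p n).us := h1 _
  rw [h6]
  exact List.mem_append_left _ hu

private theorem FusionNode_nonempty (I : SIdeal) (ν : Node I) : ν.V.Nonempty := by
  rw [Set.nonempty_iff_ne_empty]
  intro h
  exact ν.pos (h ▸ I.empty)

/-- a member of a node -/
private noncomputable def FusionPick (I : SIdeal) (ν : Node I) : Fn := (FusionNode_nonempty I ν).some

private theorem FusionPick_mem (I : SIdeal) (ν : Node I) : FusionPick I ν ∈ ν.V :=
  (FusionNode_nonempty I ν).some_mem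

private theorem FusionNode_agree (I : SIdeal) (hI : ¬ I.Sm (rs '' BB)) (p : C) (m : ℕ) (w w' : Fn)
    (hw : w ∈ (FusionNode I hI p (m + 1)).V) (hw' : w' ∈ (FusionNode I hI p (m + 1)).V) :
    (∀ i < m, w (en i) = w' (en i)) ∧
      ∀ u ∈ (FusionNode I hI p (m + 1)).us, pr (u w) m = pr (u w') m := by
  obtain ⟨J, Zc, N, h1, h2, h3, h4, h5⟩ := FusionSpec I (FusionNode I hI p m) m
  have h6 : (FusionNode I hI p (m + 1)).us =
      FusionNew I (FusionNode I hI p m) m ++ (FusionNode I hI p m).us := h1 _
  rw [h6]
  exact h4 _ w hw w' hw'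

/-- index of a point -/
private noncomputable def FusionIdx (q : NN) : ℕ := Classical.choose (en_surj q)
private theorem FusionIdx_spec (q : NN) : en (FusionIdx q) = q := Classical.choose_spec (en_surj q)

/-- limit function -/
private noncomputable def FusionF (I : SIdeal) (hI : ¬ I.Sm (rs '' BB)) (p : C) : Fn :=
  fun q => FusionPick I (FusionNode I hI p (FusionIdx q + 2)) q

private theorem FusionF_spec (I : SIdeal) (hI : ¬ I.Sm (rs '' BB)) (p : C) (q : NN) (m : ℕ)
    (hm : FusionIdx q + 2 ≤ m) (w : Fn) (hw : w ∈ (FusionNode I hI p m).V) :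
    w q = FusionF I hI p q := by
  have h1 := FusionNode_anti I hI p hm hw
  have h2 := (FusionNode_agree I hI p (FusionIdx q + 1) w _ h1
    (FusionPick_mem I (FusionNode I hI p (FusionIdx q + 2)))).1 (FusionIdx q) (by omega)
  rw [FusionIdx_spec] at h2
  exact h2

/-- limit of a coordinate -/
private noncomputable def FusionLim (I : SIdeal) (hI : ¬ I.Sm (rs '' BB)) (p : C) (n : ℕ) (u : Fn → C) : C :=
  fun k => u (FusionPick I (FusionNode I hI p (n + k + 2))) k

private theorem FusionLim_spec (I : SIdeal) (hI : ¬ I.Sm (rs '' BB)) (p : C) (n : ℕ) (u : Fn → C)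
    (hu : u ∈ FusionNew I (FusionNode I hI p n) n) (N m : ℕ) (hm : n + N + 2 ≤ m) (w : Fn)
    (hw : w ∈ (FusionNode I hI p m).V) : pr (u w) N = pr (FusionLim I hI p n u) N := by
  rw [pr_eq_iff]
  intro k hk
  have h1 : w ∈ (FusionNode I hI p (n + k + 1 + 1)).V := FusionNode_anti I hI p (by omega) hw
  have h2 := (FusionNode_agree I hI p (n + k + 1) w _ h1
    (FusionPick_mem I (FusionNode I hI p (n + k + 2)))).2 u
    (FusionNew_us I hI p (by omega) u hu)
  rw [pr_eq_iff] at h2
  exact h2 k (by omega)

open Classical in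
/-- the slots -/
private noncomputable def FusionSlot (I : SIdeal) (hI : ¬ I.Sm (rs '' BB)) (p : C) (n j : ℕ) : C :=
  if h : j < (FusionNew I (FusionNode I hI p n) n).length then
    FusionLim I hI p n ((FusionNew I (FusionNode I hI p n) n)[j]) else p

private theorem Fusion_cont {A : Type} [TopologicalSpace A] (g : C → A) (n : ℕ)
    (h : ∀ p p' : C, (∀ i < n, p i = p' i) → g p = g p') : Continuous g := by
  have h1 : g = (fun r : Fin n → Bool => g (fun i => if h : i < n then r ⟨i, h⟩ else false)) ∘
      (fun p : C => fun i : Fin n => p i) := by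
    funext p
    apply h
    intro i hi
    simp [hi]
  rw [h1]
  exact continuous_of_discreteTopology.comp (by fun_prop)

private theorem FusionF_continuous (I : SIdeal) (hI : ¬ I.Sm (rs '' BB)) :
    Continuous (FusionF I hI) := by
  apply continuous_pi
  intro q
  apply Fusion_cont _ (FusionIdx q + 2)
  intro p p' h
  unfold FusionF
  rw [FusionNode_congr I hI p p' _ h]

private theorem FusionSlot_continuous (I : SIdeal) (hI : ¬ I.Sm (rs '' BB)) (n j : ℕ) :
    Continuous (fun p => FusionSlot I hI p n j) := by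
  apply continuous_pi
  intro k
  apply Fusion_cont _ (n + k + 2)
  intro p p' h
  unfold FusionSlot
  have h1 : FusionNode I hI p n = FusionNode I hI p' n :=
    FusionNode_congr I hI p p' n (fun i hi => h i (by omega))
  have h2 : ∀ u, FusionLim I hI p n u k = FusionLim I hI p' n u k := by
    intro u
    unfold FusionLim
    rw [FusionNode_congr I hI p p' _ h]
  by_cases hj : j < (FusionNew I (FusionNode I hI p n) n).length
  · have hj' : j < (FusionNew I (FusionNode I hI p' n) n).length := by rw [← h1]; exact hj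
    rw [dif_pos hj, dif_pos hj', h2]
    congr 2
    simp only [h1]
  · have hj' : ¬ j < (FusionNew I (FusionNode I hI p' n) n).length := by rw [← h1]; exact hj
    rw [dif_neg hj, dif_neg hj']
    exact h k (by omega)

private theorem FusionSlot_inj (I : SIdeal) (hI : ¬ I.Sm (rs '' BB)) (n j : ℕ) (p p' : C)
    (h : ∀ i < n, p i = p' i) (hs : FusionSlot I hI p n j = FusionSlot I hI p' n j) : p = p' := by
  classical
  by_contra hne
  have hex : ∃ m, p m ≠ p' m := Function.ne_iff.1 hne
  set m := Nat.find hex with hm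
  have hm1 : p m ≠ p' m := Nat.find_spec hex
  have hm2 : ∀ i < m, p i = p' i := fun i hi => by
    by_contra hc
    exact Nat.find_min hex hi hc
  have hnm : n ≤ m := by
    by_contra hlt
    exact hm1 (h m (by omega))
  have h1 : FusionNode I hI p n = FusionNode I hI p' n := FusionNode_congr I hI p p' n h
  have h1m : FusionNode I hI p m = FusionNode I hI p' m := FusionNode_congr I hI p p' m hm2
  unfold FusionSlot at hs
  by_cases hj : j < (FusionNew I (FusionNode I hI p n) n).length
  · have hj' : j < (FusionNew I (FusionNode I hI p' n) n).length := by rw [← h1]; exact hj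
    rw [dif_pos hj, dif_pos hj'] at hs
    have e1 : (FusionNew I (FusionNode I hI p' n) n)[j] = (FusionNew I (FusionNode I hI p n) n)[j] := by
      congr 2
      simp only [h1]
    rw [e1] at hs
    set u := (FusionNew I (FusionNode I hI p n) n)[j] with hu
    have hum : u ∈ FusionNew I (FusionNode I hI p n) n := List.getElem_mem hj
    have hum' : u ∈ FusionNew I (FusionNode I hI p' n) n := by rw [← h1]; exact hum
    obtain ⟨J, Zc, N, g1, g2, g3, g4, g5⟩ := FusionSpec I (FusionNode I hI p m) m
    have hus : u ∈ FusionNew I (FusionNode I hI p m) m ++ (FusionNode I hI p m).us := by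
      have h7 := FusionNew_us I hI p (m := m + 1) (by omega) u hum
      have h6 : (FusionNode I hI p (m + 1)).us =
        FusionNew I (FusionNode I hI p m) m ++ (FusionNode I hI p m).us := g1 _
      rwa [h6] at h7
    set M := n + N + 2 + m + 1 with hM
    have w1 := FusionPick_mem I (FusionNode I hI p M)
    have w2 := FusionPick_mem I (FusionNode I hI p' M)
    have l1 := FusionLim_spec I hI p n u hum N M (by omega) _ w1
    have l2 := FusionLim_spec I hI p' n u hum' N M (by omega) _ w2
    have v1 : FusionPick I (FusionNode I hI p M) ∈ (FusionCh I (FusionNode I hI p m) m (p m)).V :=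
      FusionNode_anti I hI p (m := M) (n := m + 1) (by omega) w1
    have v2 : FusionPick I (FusionNode I hI p' M) ∈ (FusionCh I (FusionNode I hI p m) m (p' m)).V := by
      have := FusionNode_anti I hI p' (m := M) (n := m + 1) (by omega) w2
      rw [h1m]
      exact this
    have hl : pr (u (FusionPick I (FusionNode I hI p M))) N =
        pr (u (FusionPick I (FusionNode I hI p' M))) N := by
      rw [l1, l2, hs]
    cases hp : p m with
    | false =>
      have hp' : p' m = true := by
        cases h9 : p' m with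
        | false => exact absurd (hp.trans h9.symm) hm1
        | true => rfl
      rw [hp] at v1
      rw [hp'] at v2
      exact g5 u hus _ v1 _ v2 hl
    | true =>
      have hp' : p' m = false := by
        cases h9 : p' m with
        | true => exact absurd (hp.trans h9.symm) hm1
        | false => rfl
      rw [hp] at v1
      rw [hp'] at v2
      exact g5 u hus _ v2 _ v1 hl.symm
  · have hj' : ¬ j < (FusionNew I (FusionNode I hI p' n) n).length := by rw [← h1]; exact hj
    rw [dif_neg hj, dif_neg hj'] at hs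
    exact hne hs

theorem fusion_main (I : SIdeal) (hI : ¬ I.Sm (rs '' BB)) :
    ∃ τ : Fam, Good τ ∧ ∀ p, ∃ V : ℕ → Set Fn, (∀ n, ¬ I.Sm (V n) ∧ V n ⊆ rs '' BB) ∧
      Br V (τ.1 p).1 (Set.range (τ.1 p).2) := by
  classical
  let T : C → Fn × (ℕ → C) := fun p =>
    (FusionF I hI p, fun k => FusionSlot I hI p (Nat.unpair k).1 (Nat.unpair k).2)
  have hT : Continuous T := by
    refine (FusionF_continuous I hI).prodMk ?_
    apply continuous_pi
    intro k
    exact FusionSlot_continuous I hI _ _
  refine ⟨⟨T, hT⟩, ⟨?_, ?_⟩, ?_⟩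
  · intro p y
    show ∃ (J : Finset NN) (Z : Finset C), ∀ q ∈ dom y, FusionF I hI p q ≠ FusionF I hI p (pnt y) →
      q ∈ J ∨ ∃ z ∈ Z, q ∈ beta y z
    obtain ⟨n, rfl⟩ := ye_surj y
    obtain ⟨J, Zc, N, g1, g2, g3, g4, g5⟩ := FusionSpec I (FusionNode I hI p n) n
    refine ⟨J, Zc ∪ ((FusionNew I (FusionNode I hI p n) n).map (FusionLim I hI p n)).toFinset, ?_⟩
    intro q hq hne
    set M := n + q.L + 2 + FusionIdx q + 2 + FusionIdx (pnt (ye n)) + 2 with hM
    have w1 := FusionPick_mem I (FusionNode I hI p M)
    rw [← FusionF_spec I hI p q M (by omega) _ w1,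
      ← FusionF_spec I hI p (pnt (ye n)) M (by omega) _ w1] at hne
    have v1 : FusionPick I (FusionNode I hI p M) ∈ (FusionCh I (FusionNode I hI p n) n (p n)).V :=
      FusionNode_anti I hI p (m := M) (n := n + 1) (by omega) w1
    rcases (g3 (p n)).1 _ v1 q hq hne with h | ⟨c, hc, hcq⟩ | ⟨u, hu, huq⟩
    · exact Or.inl h
    · exact Or.inr ⟨c, Finset.mem_union_left _ hc, hcq.1⟩
    · right
      refine ⟨FusionLim I hI p n u, Finset.mem_union_right _ ?_, ?_⟩
      · rw [List.mem_toFinset]
        exact List.mem_map_of_mem hu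
      · exact beta_congr (FusionLim_spec I hI p n u hu q.L M (by omega) _ w1) le_rfl huq
  · intro D hD
    by_contra hcon
    push Not at hcon
    have hcon' : ∀ p : C, ∃ k, FusionSlot I hI p (Nat.unpair k).1 (Nat.unpair k).2 ∈ D := by
      intro p
      obtain ⟨k, hk⟩ := hcon p
      exact ⟨k, hk⟩
    choose k hk using hcon'
    let Φ : C → (ℕ × List Bool) × D := fun p =>
      ((k p, pr p (Nat.unpair (k p)).1), ⟨_, hk p⟩)
    have hΦ : Function.Injective Φ := by
      intro p p' h
      have h1 : k p = k p' := congrArg (fun x => x.1.1) h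
      have h2 : pr p (Nat.unpair (k p)).1 = pr p' (Nat.unpair (k p')).1 :=
        congrArg (fun x => x.1.2) h
      have h3 : FusionSlot I hI p (Nat.unpair (k p)).1 (Nat.unpair (k p)).2 =
        FusionSlot I hI p' (Nat.unpair (k p')).1 (Nat.unpair (k p')).2 :=
        congrArg (fun x => (x.2 : C)) h
      rw [← h1] at h2 h3
      exact FusionSlot_inj I hI _ _ p p' (pr_eq_iff.1 h2) h3
    have h4 := Cardinal.mk_le_of_injective hΦ
    have h5 : Cardinal.mk ((ℕ × List Bool) × D) < Cardinal.continuum.{0} := by
      rw [Cardinal.mk_prod, Cardinal.lift_id, Cardinal.lift_id]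
      refine Cardinal.mul_lt_of_lt Cardinal.aleph0_le_continuum ?_ hD
      exact lt_of_le_of_lt Cardinal.mk_le_aleph0 Cardinal.aleph0_lt_continuum
    have h6 : Cardinal.mk C = Cardinal.continuum.{0} := by
      show Cardinal.mk (ℕ → Bool) = _
      rw [← Cardinal.power_def, Cardinal.mk_nat, Cardinal.mk_bool]
      exact Cardinal.two_power_aleph0
    rw [h6] at h4
    exact absurd h5 (not_lt.2 h4)
  · intro p
    refine ⟨fun n => (FusionNode I hI p n).V, fun n =>
      ⟨(FusionNode I hI p n).pos, (FusionNode I hI p n).sub⟩, ?_, ?_, ?_⟩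
    · intro n
      exact FusionNode_anti I hI p (Nat.le_succ n)
    · intro q
      exact ⟨FusionIdx q + 2, fun w hw => FusionF_spec I hI p q _ le_rfl w hw⟩
    · intro y
      obtain ⟨n, rfl⟩ := ye_surj y
      obtain ⟨J, Zc, N, g1, g2, g3, g4, g5⟩ := FusionSpec I (FusionNode I hI p n) n
      refine ⟨FusionNew I (FusionNode I hI p n) n, J, Zc,
        ((FusionNew I (FusionNode I hI p n) n).map (FusionLim I hI p n)).toFinset, n + 1, ?_,
        g3 (p n), ?_⟩
      · intro c hc
        rw [Finset.mem_coe, List.mem_toFinset, List.mem_map] at hc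
        obtain ⟨u, hu, rfl⟩ := hc
        obtain ⟨j, hj, hju⟩ := List.getElem_of_mem hu
        refine ⟨Nat.pair n j, ?_⟩
        show FusionSlot I hI p (Nat.unpair (Nat.pair n j)).1 (Nat.unpair (Nat.pair n j)).2 =
          FusionLim I hI p n u
        rw [Nat.unpair_pair]
        unfold FusionSlot
        rw [dif_pos hj, hju]
      · intro N'
        refine ⟨n + N' + 2, fun w hw u hu => ⟨FusionLim I hI p n u, ?_, ?_⟩⟩
        · rw [List.mem_toFinset]
          exact List.mem_map_of_mem hu
        · exact FusionLim_spec I hI p n u hu N' _ le_rfl w hw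

end CpM
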