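import Pool.Agent.Helper27.Cp.Base
import Pool.Agent.Helper27.Cp.P_EE_fun
import Pool.Agent.Helper27.Cp.P_EE_valid

set_option autoImplicit false

namespace CpM

open Set



theorem limit_mem (V : ℕ → Set Fn) (f : Fn) (vs : Set C) (hBr : Br V f vs) (hne : ∀ n, (V n).Nonempty)
    (hsub : ∀ n, V n ⊆ rs '' BB)
    (hvs : ∀ c ∈ vs, c ∉ TT ∧ ∀ M, (c, M) ∈ EE → Resp f M) :
    ∃ F ∈ BB, rs F = f ∧ ∀ t : TT, ∃ n, ∀ G ∈ BB, rs G ∈ V n → G (ir t) = F (ir t) := by
  classical
  obtain ⟨hdec, hlim, hloc⟩ := hBr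
  have hanti : ∀ {m n : ℕ}, m ≤ n → V n ⊆ V m := fun {m n} h => antitone_nat_of_succ_le hdec h
  choose us J Zc ls n hls hU hN using hloc
  -- approximation of the limit
  have happ : ∀ (y : YY) (q : NN) (m : ℕ), ∃ w, w ∈ V m ∧ w q = f q ∧ w (pnt y) = f (pnt y) := by
    intro y q m
    obtain ⟨n1, hn1⟩ := hlim q
    obtain ⟨n2, hn2⟩ := hlim (pnt y)
    obtain ⟨w, hw⟩ := hne (max m (max n1 n2))
    exact ⟨w, hanti (le_max_left _ _) hw,
      hn1 w (hanti ((le_max_left _ _).trans (le_max_right _ _)) hw),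
      hn2 w (hanti ((le_max_right _ _).trans (le_max_right _ _)) hw)⟩
  have K1 : ∀ y, ∀ q ∈ dom y, f q ≠ f (pnt y) → q ∈ J y ∨ (∃ c ∈ Zc y, q ∈ gam y c) ∨
      (∃ c ∈ ls y, q ∈ beta y c) := by
    intro y q hq hfq
    obtain ⟨m, hm⟩ := hN y q.L
    obtain ⟨w, hw, hwq, hwy⟩ := happ y q (max (n y) m)
    have hw1 : w ∈ V (n y) := hanti (le_max_left _ _) hw
    have hw2 : w ∈ V m := hanti (le_max_right _ _) hw
    rcases (hU y).1 w hw1 q hq (by rw [hwq, hwy]; exact hfq) with h1 | h1 | ⟨u, hu, h1⟩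
    · exact Or.inl h1
    · exact Or.inr (Or.inl h1)
    · obtain ⟨c, hc, hpr⟩ := hm w hw2 u hu
      exact Or.inr (Or.inr ⟨c, hc, beta_congr hpr le_rfl h1⟩)
  have K2 : ∀ y, ∀ c ∈ Zc y, c ∈ TT → y = .pt (kap c) → ∀ q ∈ tz (kap c) c,
      q ∈ J y ∨ f q ≠ f (pnt y) := by
    intro y c hc hcT hy q hq
    obtain ⟨w, hw, hwq, hwy⟩ := happ y q (n y)
    have h1 := (hU y).2 c hc hcT hy w hw q hq
    rw [hwq, hwy] at h1
    exact h1
  have hG0 : G0 f := by
    intro y
    refine ⟨J y, Zc y ∪ ls y, ?_⟩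
    intro q hq hfq
    rcases K1 y q hq hfq with h1 | ⟨c, hc, h1⟩ | ⟨c, hc, h1⟩
    · exact Or.inl h1
    · exact Or.inr ⟨c, Finset.mem_union_left _ hc, h1.1⟩
    · exact Or.inr ⟨c, Finset.mem_union_right _ hc, h1⟩
  have hMarks : ∀ p ∈ EE, Resp f p.2 := by
    rintro ⟨z, M⟩ hp
    have hV := EE_valid _ hp
    simp only at hV
    by_cases hz : z ∈ ls M.y
    · exact (hvs z (hls M.y hz)).2 M hp
    · have hfin : ((J M.y : Set NN) ∪ ⋃ c ∈ {c | c ∈ Zc M.y ∪ ls M.y ∧ c ≠ z},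
          (M.Q ∩ beta M.y c)).Finite := by
        refine (J M.y).finite_toSet.union (Set.Finite.biUnion ?_ ?_)
        · exact (Zc M.y ∪ ls M.y).finite_toSet.subset fun c hc => hc.1
        · intro c hc
          exact hV.inter_finite hc.2
      refine hfin.subset ?_
      rintro q ⟨hqM, hfq⟩
      rcases K1 M.y q (hV.subset_dom hqM) hfq with h1 | ⟨c, hc, h1⟩ | ⟨c, hc, h1⟩
      · exact Or.inl h1
      · right
        rw [Set.mem_iUnion₂]
        refine ⟨c, ⟨Finset.mem_union_left _ hc, ?_⟩, hqM, h1.1⟩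
        rintro rfl
        exact h1.2 M hp rfl hqM
      · right
        rw [Set.mem_iUnion₂]
        refine ⟨c, ⟨Finset.mem_union_right _ hc, ?_⟩, hqM, h1⟩
        rintro rfl
        exact hz hc
  have htls : ∀ (t : TT) (y : YY), t.1 ∉ ls y := fun t y h => (hvs t.1 (hls y h)).1 t.2
  have htdom : ∀ (t : TT) (q : NN), q ∈ tz (kap t.1) t.1 → q ∈ dom (.pt (kap t.1)) := by
    rintro t q ⟨r, rfl, hr⟩
    exact ⟨r, rfl⟩
  obtain ⟨F, hF1, hF2⟩ : ∃ F : XX → Bool, (∀ q, F (il q) = f q) ∧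
      (∀ t : TT, F (ir t) = if t.1 ∈ Zc (.pt (kap t.1)) then !(f (pnt (.pt (kap t.1))))
        else f (pnt (.pt (kap t.1)))) :=
    ⟨fun x => Sum.elim f (fun t : TT => if t.1 ∈ Zc (.pt (kap t.1)) then
      !(f (pnt (.pt (kap t.1)))) else f (pnt (.pt (kap t.1)))) x, fun q => rfl, fun t => rfl⟩
  have hrs : rs F = f := funext hF1
  refine ⟨F, ⟨?_, ?_, ?_⟩, hrs, ?_⟩
  · rw [hrs]
    exact hG0
  · rw [hrs]
    exact hMarks
  · intro t
    rw [hrs]
    by_cases ht : t.1 ∈ Zc (.pt (kap t.1))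
    · refine (J (.pt (kap t.1))).finite_toSet.subset ?_
      rintro q ⟨hq, hfq⟩
      rw [hF2, if_pos ht] at hfq
      rcases K2 (.pt (kap t.1)) t.1 ht t.2 rfl q hq with h1 | h1
      · exact h1
      · exact absurd (Bool.eq_not_of_ne h1) hfq
    · have hfin : ((J (.pt (kap t.1)) : Set NN) ∪ ⋃ c ∈ {c | c ∈ Zc (.pt (kap t.1)) ∪
          ls (.pt (kap t.1))}, (tz (kap t.1) t.1 ∩ tz (kap t.1) c)).Finite := by
        refine (J (.pt (kap t.1))).finite_toSet.union (Set.Finite.biUnion ?_ ?_)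
        · exact (Zc (.pt (kap t.1)) ∪ ls (.pt (kap t.1))).finite_toSet
        · intro c hc
          refine tz_inter_finite ?_
          rintro rfl
          rcases Finset.mem_union.1 hc with h1 | h1
          · exact ht h1
          · exact htls t _ h1
      refine hfin.subset ?_
      rintro q ⟨hq, hfq⟩
      rw [hF2, if_neg ht] at hfq
      rcases K1 (.pt (kap t.1)) q (htdom t q hq) hfq with h1 | ⟨c, hc, h1⟩ | ⟨c, hc, h1⟩
      · exact Or.inl h1
      · right
        rw [Set.mem_iUnion₂]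
        exact ⟨c, Finset.mem_union_left _ hc, hq, h1.1⟩
      · right
        rw [Set.mem_iUnion₂]
        exact ⟨c, Finset.mem_union_right _ hc, hq, h1⟩
  · intro t
    -- separate the limits from `t`
    have hsep : ∃ N, ∀ c ∈ ls (.pt (kap t.1)), pr c N ≠ pr t.1 N := by
      have h1 : ∀ c : C, ∃ k, c ∈ ls (.pt (kap t.1)) → ∀ N, k ≤ N → pr c N ≠ pr t.1 N := by
        intro c
        by_cases hc : c ∈ ls (.pt (kap t.1))
        · have hct : c ≠ t.1 := by
            rintro rfl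
            exact htls t _ hc
          obtain ⟨k, hk⟩ := Function.ne_iff.1 hct
          exact ⟨k + 1, fun _ N hN h => hk (pr_eq_iff.1 h k (by omega))⟩
        · exact ⟨0, fun h => absurd h hc⟩
      choose k hk using h1
      refine ⟨(ls (.pt (kap t.1))).sup k, fun c hc => hk c hc _ (Finset.le_sup hc)⟩
    obtain ⟨N, hNs⟩ := hsep
    obtain ⟨m1, hm1⟩ := hN (.pt (kap t.1)) N
    obtain ⟨n2, hn2⟩ := hlim (pnt (.pt (kap t.1)))
    refine ⟨max (n (.pt (kap t.1))) (max m1 n2), ?_⟩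
    intro G hG hGV
    have hw0 : rs G ∈ V (n (.pt (kap t.1))) := hanti (le_max_left _ _) hGV
    have hw1 : rs G ∈ V m1 := hanti ((le_max_left _ _).trans (le_max_right _ _)) hGV
    have hw2 : rs G ∈ V n2 := hanti ((le_max_right _ _).trans (le_max_right _ _)) hGV
    have hwy := hn2 _ hw2
    have hGt := hG.2.2 t
    rw [hF2]
    by_cases ht : t.1 ∈ Zc (.pt (kap t.1))
    · rw [if_pos ht]
      obtain ⟨q, hq, hq'⟩ := (tz_infinite (kap t.1) t.1).exists_notMem_finite
        ((J (.pt (kap t.1))).finite_toSet.union hGt)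
      have h1 : rs G q = G (ir t) := by
        by_contra h
        exact hq' (Or.inr ⟨hq, h⟩)
      rcases (hU (.pt (kap t.1))).2 t.1 ht t.2 rfl _ hw0 q hq with h2 | h2
      · exact absurd (Or.inl h2) hq'
      · rw [← h1]
        rw [hwy] at h2
        exact Bool.eq_not_of_ne h2
    · rw [if_neg ht]
      have hfin : ((J (.pt (kap t.1)) : Set NN) ∪ ((⋃ c ∈ {c | c ∈ Zc (.pt (kap t.1))},
          (tz (kap t.1) t.1 ∩ tz (kap t.1) c)) ∪ ⋃ u ∈ {u | u ∈ us (.pt (kap t.1))},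
          (tz (kap t.1) t.1 ∩ tz (kap t.1) (u (rs G))))).Finite := by
        refine (J (.pt (kap t.1))).finite_toSet.union (Set.Finite.union
          (Set.Finite.biUnion ?_ ?_) (Set.Finite.biUnion ?_ ?_))
        · exact (Zc (.pt (kap t.1))).finite_toSet
        · intro c hc
          refine tz_inter_finite ?_
          rintro rfl
          exact ht hc
        · exact List.finite_toSet _
        · intro u hu
          refine tz_inter_finite ?_
          intro h
          obtain ⟨c, hc, hpr⟩ := hm1 _ hw1 u hu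
          refine hNs c hc ?_
          rw [← hpr, ← h]
      obtain ⟨q, hq, hq'⟩ := (tz_infinite (kap t.1) t.1).exists_notMem_finite (hfin.union hGt)
      have h1 : rs G q = G (ir t) := by
        by_contra h
        exact hq' (Or.inr ⟨hq, h⟩)
      have h2 : rs G q = rs G (pnt (.pt (kap t.1))) := by
        by_contra h
        rcases (hU (.pt (kap t.1))).1 _ hw0 q (htdom t q hq) h with h3 | ⟨c, hc, h3⟩ | ⟨u, hu, h3⟩
        · exact hq' (Or.inl (Or.inl h3))
        · refine hq' (Or.inl (Or.inr (Or.inl ?_)))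
          rw [Set.mem_iUnion₂]
          exact ⟨c, hc, hq, h3.1⟩
        · refine hq' (Or.inl (Or.inr (Or.inr ?_)))
          rw [Set.mem_iUnion₂]
          exact ⟨u, hu, hq, h3⟩
      rw [← h1, h2, hwy]

end CpM
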