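import Pool.Agent.Helper27.Cp.Base
import Pool.Agent.Helper27.Cp.P_fusion_main
import Pool.Agent.Helper27.Cp.P_LP
import Pool.Agent.Helper27.Cp.P_limit_mem

set_option autoImplicit false

namespace CpM

open Set



theorem isLindelof_BB : IsLindelof BB := by
  classical
  refine isLindelof_of_countable_subcover ?_
  intro ι U hU hcov
  by_contra hno
  push Not at hno
  let I : SIdeal :=
    { Sm := fun A => ∃ s : Set ι, s.Countable ∧ ∀ F ∈ BB, rs F ∈ A → F ∈ ⋃ i ∈ s, U i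
      empty := ⟨∅, Set.countable_empty, fun F _ h => h.elim⟩
      mono := by
        rintro A B hAB ⟨s, hs, h⟩
        exact ⟨s, hs, fun F hF hA => h F hF (hAB hA)⟩
      iUnion := by
        intro A hA
        choose s hs h using hA
        refine ⟨⋃ n, s n, Set.countable_iUnion hs, ?_⟩
        intro F hF hFA
        obtain ⟨n, hn⟩ := Set.mem_iUnion.1 hFA
        have h1 := h n F hF hn
        rw [Set.mem_iUnion₂] at h1 ⊢
        obtain ⟨i, hi, hFi⟩ := h1
        exact ⟨i, Set.mem_iUnion.2 ⟨n, hi⟩, hFi⟩ }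
  have hI : ¬ I.Sm (rs '' BB) := by
    rintro ⟨s, hs, h⟩
    exact hno s hs (fun F hF => h F hF ⟨F, hF, rfl⟩)
  obtain ⟨τ, hτ, hV⟩ := fusion_main I hI
  obtain ⟨p, hp⟩ := LP τ hτ
  obtain ⟨V, hVn, hBr⟩ := hV p
  have hne : ∀ n, (V n).Nonempty := by
    intro n
    rw [Set.nonempty_iff_ne_empty]
    intro h0
    apply (hVn n).1
    rw [h0]
    exact I.empty
  have hvs : ∀ c ∈ Set.range (τ.1 p).2, c ∉ TT ∧ ∀ M, (c, M) ∈ EE → Resp (τ.1 p).1 M := by
    rintro c ⟨k, rfl⟩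
    exact hp k
  obtain ⟨F, hF, hrs, ht⟩ := limit_mem V (τ.1 p).1 (Set.range (τ.1 p).2) hBr hne
    (fun n => (hVn n).2) hvs
  obtain ⟨i, hi⟩ := Set.mem_iUnion.1 (hcov hF)
  obtain ⟨K, u, hu, hsub⟩ := isOpen_pi_iff.1 (hU i) F hi
  have hx : ∀ x : XX, ∃ n, ∀ G ∈ BB, rs G ∈ V n → G x = F x := by
    intro x
    rcases x with q | t
    · obtain ⟨n, hn⟩ := hBr.2.1 q
      refine ⟨n, fun G _ hG => ?_⟩
      have h1 : rs G q = (τ.1 p).1 q := hn _ hG
      rw [← hrs] at h1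
      exact h1
    · exact ht t
  choose nx hnx using hx
  have hanti : Antitone V := antitone_nat_of_succ_le hBr.1
  apply (hVn (K.sup nx)).1
  refine ⟨{i}, Set.countable_singleton i, ?_⟩
  intro G hG hGV
  rw [Set.mem_iUnion₂]
  refine ⟨i, rfl, hsub ?_⟩
  intro x hxK
  have h1 : G x = F x := hnx x G hG (hanti (Finset.le_sup (f := nx) hxK) hGV)
  rw [h1]
  exact (hu x hxK).2

end CpM
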