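import Pool.Agent.Helper27.Cp.Base

set_option autoImplicit false

namespace CpM

open Set



theorem rs_inj : Set.InjOn rs BB := by
  intro F hF G hG h
  have h' : rs F = rs G := h
  funext x
  cases x with
  | inl q => exact congrFun h' q
  | inr t =>
    by_contra hne
    have hne' : F (ir t) ≠ G (ir t) := hne
    refine tz_infinite (kap t.1) t.1 (((hF.2.2 t).union (hG.2.2 t)).subset ?_)
    intro q hq
    by_cases h1 : rs F q = F (ir t)
    · right
      refine ⟨hq, ?_⟩
      rw [← h', h1]
      exact hne'
    · left
      exact ⟨hq, h1⟩

end CpM
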