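import Pool.Agent.Helper27.Cp.Base
import Pool.Agent.Helper27.Cp.P_isLindelof_BB
import Pool.Agent.Helper27.Cp.P_braF_mem
import Pool.Agent.Helper27.Cp.P_rs_inj

set_option autoImplicit false

namespace CpM

open Set

private theorem braF_bi (S : Set ℕ) (x : ℕ → C) (i : ℕ) (r : List Bool) :
    rs (braF S x) (.bi i r) = true ↔ (i ∈ S ∧ Pfx r (x i)) := by
  simp [rs, braF, il]
private theorem braF_ir (S : Set ℕ) (x : ℕ → C) (t : TT) :
    braF S x (ir t) = true ↔ (kap t.1 ∈ S ∧ x (kap t.1) = t.1) := by
  simp [braF, ir]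
theorem LH (j : ℕ) (K : Set (ℕ → C)) (hK : IsClosed K) (h : ∀ e ∈ K, ∃ l < j, e l ∈ TT ∧ kap (e l) = l + 1) :
    ∃ H : Set C, H.Countable ∧ ∀ e ∈ K, ∃ l < j, e l ∈ H := by
  classical
  let S : Set ℕ := {i | 1 ≤ i ∧ i ≤ j}
  let th : (ℕ → C) → (XX → Bool) := fun e => braF S (fun i => e (i - 1))
  have hc : Continuous (fun e : ℕ → C => rs (th e)) := by
    rw [continuous_pi_iff]
    intro q
    cases q with
    | bi i r =>
      have h1 : Continuous (fun e : ℕ → C => (fun k : Fin r.length => e (i - 1) k.1 : Fin r.length → Bool)) := by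
        fun_prop
      have h2 : Continuous (fun v : Fin r.length → Bool => decide (i ∈ S ∧ ∀ k : Fin r.length, r[k.1]'k.2 = v k)) :=
        continuous_of_discreteTopology
      have h3 := h2.comp h1
      convert h3 using 2 with e
      rw [Bool.eq_iff_iff]
      refine (braF_bi _ _ _ _).trans ?_
      simp only [Function.comp, decide_eq_true_eq]
      have : Pfx r (e (i - 1)) ↔ ∀ k : Fin r.length, r[k.1]'k.2 = e (i - 1) k.1 := by
        unfold Pfx pr
        constructor
        · intro hh k
          have h5 : r[k.1]? = ((List.range r.length).map (e (i - 1)))[k.1]? := by rw [← hh]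
          rw [List.getElem?_eq_getElem k.2, List.getElem?_eq_getElem (by simp)] at h5
          simpa using h5
        · intro hh
          apply List.ext_getElem
          · simp
          · intro n h1 h2
            simpa using hh ⟨n, h1⟩
      rw [this]
    | inf => exact continuous_const
    | x s => exact continuous_const
    | iso s r => exact continuous_const
    | pt i => exact continuous_const
  have hcl : IsClosed ((fun e => rs (th e)) '' K) := (hK.isCompact.image hc).isClosed
  let U : Option TT → Set (XX → Bool) := fun o => match o with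
    | none => rs ⁻¹' ((fun e => rs (th e)) '' K)ᶜ
    | some t => {F | F (ir t) = true}
  have hrs : Continuous (rs : (XX → Bool) → Fn) := by
    rw [continuous_pi_iff]
    intro q
    exact continuous_apply (il q)
  obtain ⟨r, hr, hcov⟩ := isLindelof_BB.elim_countable_subcover U (by
    rintro (_ | t)
    · exact hcl.isOpen_compl.preimage hrs
    · have hcont : Continuous (fun F : XX → Bool => F (ir t)) := continuous_apply (ir t)
      exact (isOpen_discrete {b : Bool | b = true}).preimage hcont) (by
    intro F hF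
    by_cases hFK : rs F ∈ (fun e => rs (th e)) '' K
    · obtain ⟨e, he, heF⟩ := hFK
      have heq : th e = F := rs_inj (braF_mem _ _) hF heF
      obtain ⟨l, hl, hlT, hlk⟩ := h e he
      refine mem_iUnion.2 ⟨some ⟨e l, hlT⟩, ?_⟩
      change F (ir ⟨e l, hlT⟩) = true
      rw [← heq]
      refine (braF_ir _ _ _).2 ?_
      change kap (e l) ∈ S ∧ e (kap (e l) - 1) = e l
      rw [hlk]
      exact ⟨⟨by omega, by omega⟩, by rw [Nat.add_sub_cancel]⟩
    · exact mem_iUnion.2 ⟨none, hFK⟩)
  refine ⟨{z | ∃ t : TT, some t ∈ r ∧ z = t.1}, ?_, ?_⟩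
  · have : {z | ∃ t : TT, some t ∈ r ∧ z = t.1} ⊆ (fun o : Option TT => match o with
        | none => (fun _ => false : C) | some t => t.1) '' r := by
      rintro z ⟨t, ht, rfl⟩
      exact ⟨some t, ht, rfl⟩
    exact (hr.image _).mono this
  · intro e he
    obtain ⟨o, ho, hin⟩ := mem_iUnion₂.1 (hcov (braF_mem S (fun i => e (i - 1))))
    cases o with
    | none => exact absurd ⟨e, he, rfl⟩ hin
    | some t =>
      obtain ⟨⟨h6, h7⟩, h8⟩ := (braF_ir _ _ _).1 hin
      exact ⟨kap t.1 - 1, by omega, t, ho, h8⟩
end CpM
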