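import Pool.Agent.Helper27.Cp.Base
import Pool.Agent.Helper27.Cp.P_Elim
import Pool.Agent.Helper27.Cp.P_LH

set_option autoImplicit false

namespace CpM

open Set



theorem HB {F : Set (Cp × Cp)} (hF : IsClosed F) (j : ℕ) (u : List Bool)
    (hFU : ∀ (x : ℕ → C) (t : TT), Rel x t.1 → Psi x t ∈ F → ∃ t' : TT, kap t'.1 ≤ j ∧ x (kap t'.1) = t'.1) :
    ∃ H : Set C, H.Countable ∧ ∀ a : ℕ → C, Cmp j a u → (∀ l < j, a l ∉ H) →
      ¬ {s : C | Pfx u s ∧ kap s = j + 1 ∧ ∃ hs : s ∈ TT, Psi (xs j a s) ⟨s, hs⟩ ∉ F}.Countable := by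
  obtain ⟨H, hH, hK⟩ := LH j (closure {a : ℕ → C | Cmp j a u ∧
      {s : C | Pfx u s ∧ kap s = j + 1 ∧ ∃ hs : s ∈ TT, Psi (xs j a s) ⟨s, hs⟩ ∉ F}.Countable})
    isClosed_closure (fun e he => Elim hF j u hFU e he)
  refine ⟨H, hH, fun a ha hn hc => ?_⟩
  obtain ⟨l, hl, h⟩ := hK a (subset_closure ⟨ha, hc⟩)
  exact hn l hl h

end CpM
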