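import Pool.Agent.Helper27.Cp.Base
import Pool.Agent.Helper27.Cp.P_tendsto_Psi

set_option autoImplicit false

namespace CpM

open Set



private theorem tends_27714 {y : ℕ → C} {z : C} (h : ∀ N, pr (y N) N = pr z N) :
    Filter.Tendsto y Filter.atTop (nhds z) := by
  rw [tendsto_pi_nhds]
  intro i
  apply Filter.Tendsto.congr' _ tendsto_const_nhds
  filter_upwards [Filter.eventually_gt_atTop i] with N hN
  exact ((pr_eq_iff.mp (h N)) i hN).symm

private theorem cnt_27714 {z z' : C} {N : ℕ} (h : pr z N = pr z' N) : cnt z N = cnt z' N := by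
  unfold cnt
  congr 1
  ext i
  rw [pr_eq_iff] at h
  constructor
  · rintro ⟨⟨h1, h2⟩, h3⟩
    refine ⟨⟨h1, ?_⟩, h3⟩
    rw [← h i h3]
    exact h2
  · rintro ⟨⟨h1, h2⟩, h3⟩
    refine ⟨⟨h1, ?_⟩, h3⟩
    rw [h i h3]
    exact h2

theorem NB {F : Set (Cp × Cp)} (hF : IsClosed F) (j : ℕ) (a : ℕ → C) (s : TT) (hk : kap s.1 = j + 1)
    (hn : Psi (xs j a s.1) s ∉ F) :
    ∃ N, ∀ (x : ℕ → C) (t : TT), Rel x t.1 → (∀ l < j, x (l + 1) = a l) → x (j + 1) = s.1 →
      pr t.1 N = pr s.1 N → Psi x t ∉ F := by
  by_contra hcon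
  push Not at hcon
  choose x t hrel hxa hxj hpr hmem using hcon
  have hfin : (ones s.1).Finite ∧ (ones s.1).ncard = j := by
    unfold kap at hk
    split_ifs at hk with h
    exact ⟨h, by omega⟩
  have hcnt : ∀ N, cnt (t N).1 N ≤ j := by
    intro N
    rw [cnt_27714 (hpr N), ← hfin.2]
    exact Set.ncard_le_ncard Set.inter_subset_left hfin.1
  have hlt : ∀ l, j ≤ l → ∀ N, pr (x N (l + 1)) N = pr s.1 N := by
    intro l hl N
    rw [(hrel N).2 l N ((hcnt N).trans hl), hpr N]
  have hx : ∀ i, Filter.Tendsto (fun n => x n i) Filter.atTop (nhds (xs j a s.1 i)) := by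
    intro i
    cases i with
    | zero =>
      apply tends_27714
      intro N
      show pr (x N 0) N = pr s.1 N
      rw [(hrel N).1]
      exact hpr N
    | succ l =>
      by_cases hl : l < j
      · have h1 : xs j a s.1 (l + 1) = a l := if_pos hl
        rw [h1]
        apply tends_27714
        intro N
        rw [hxa N l hl]
      · have h1 : xs j a s.1 (l + 1) = s.1 := if_neg hl
        rw [h1]
        exact tends_27714 (hlt l (not_lt.mp hl))
  have ht : Filter.Tendsto (fun n => (t n).1) Filter.atTop (nhds s.1) := tends_27714 hpr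
  have h3 : ∀ i, xs j a s.1 i ∈ TT → kap (xs j a s.1 i) = i →
      ∀ᶠ n in Filter.atTop, x n i = xs j a s.1 i := by
    intro i _ hi2
    cases i with
    | zero =>
      exfalso
      have h1 : xs j a s.1 0 = s.1 := rfl
      rw [h1, hk] at hi2
      omega
    | succ l =>
      by_cases hl : l < j
      · have h1 : xs j a s.1 (l + 1) = a l := if_pos hl
        rw [h1]
        exact Filter.Eventually.of_forall fun n => hxa n l hl
      · have h1 : xs j a s.1 (l + 1) = s.1 := if_neg hl
        rw [h1, hk] at hi2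
        have h2 : l = j := by omega
        rw [h1, h2]
        exact Filter.Eventually.of_forall fun n => hxj n
  have htend := tendsto_Psi hx ht h3
  exact hn (hF.mem_of_tendsto htend (Filter.Eventually.of_forall hmem))

end CpM

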