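import Pool.Agent.Helper27.Cp.Base
import Pool.Agent.Helper27.Cp.P_NB
import Pool.Agent.Helper27.Cp.P_HB
import Pool.Agent.Helper27.Cp.P_Cmp_step

set_option autoImplicit false

namespace CpM

open Set



private theorem CMstep_pr_add (z : C) (k r : ℕ) : pr z k <+: pr z (k + r) := by
  unfold pr
  rw [List.range_add, List.map_append]
  exact List.prefix_append _ _

private theorem CMstep_pr_succ (z : C) (m : ℕ) : pr z (m + 1) = pr z m ++ [z m] := by
  unfold pr
  rw [List.range_succ, List.map_append]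
  rfl

private theorem CMstep_pfx {s z : C} {m : ℕ} (h : Pfx (pr s m ++ [true]) z) :
    pr s m = pr z m ∧ z m = true := by
  unfold Pfx at h
  rw [List.length_append, length_pr, List.length_singleton, CMstep_pr_succ] at h
  have h1 := List.append_inj h (by rw [length_pr, length_pr])
  refine ⟨h1.1, ?_⟩
  have h2 := h1.2
  simpa using h2.symm

theorem CMstep {F : Set (Cp × Cp)} (hF : IsClosed F) (H : Set C) (hH : H.Countable) (j : ℕ) (a : ℕ → C)
    (u : List Bool) (hC : Cmp j a u) (hHB : ¬ {s : C | Pfx u s ∧ kap s = j + 1 ∧ ∃ hs : s ∈ TT, Psi (xs j a s) ⟨s, hs⟩ ∉ F}.Countable) :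
    ∃ (s : C) (u' : Bool → List Bool), s ∈ TT ∧ s ∉ H ∧ kap s = j + 1 ∧
      (∀ b, u <+: u' b ∧ u.length < (u' b).length ∧ Cmp (j + 1) (Function.update a j s) (u' b)) ∧
      (∀ z : C, ¬ (Pfx (u' false) z ∧ Pfx (u' true) z)) ∧
      ∀ b, ∀ (x : ℕ → C) (t : TT), Rel x t.1 → (∀ l < j, x (l + 1) = a l) → x (j + 1) = s →
        Pfx (u' b) t.1 → Psi x t ∉ F := by
  obtain ⟨s, ⟨hsu, hk, hsT, hn⟩, hsH⟩ : ∃ s ∈ {s : C | Pfx u s ∧ kap s = j + 1 ∧ ∃ hs : s ∈ TT, Psi (xs j a s) ⟨s, hs⟩ ∉ F}, s ∉ H := by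
    by_contra hcon
    push Not at hcon
    exact hHB (hH.mono hcon)
  obtain ⟨N, hN⟩ := NB hF j a ⟨s, hsT⟩ hk hn
  obtain ⟨m, hm⟩ : ∃ m : Bool → ℕ, m = fun b => if b = true then 2 * max N u.length + 3 else 2 * max N u.length + 1 := ⟨_, rfl⟩
  have hmN : ∀ b, N ≤ m b := by
    intro b; rw [hm]
    have := le_max_left N u.length
    cases b <;> simp <;> omega
  have hmu : ∀ b, u.length ≤ m b := by
    intro b; rw [hm]
    have := le_max_right N u.length
    cases b <;> simp <;> omega
  have hmo : ∀ b, m b % 2 = 1 := by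
    intro b; rw [hm]
    cases b <;> simp <;> omega
  have hm01 : m true = m false + 2 := by
    rw [hm]; simp
  refine ⟨s, fun b => pr s (m b) ++ [true], hsT, hsH, hk, ?_, ?_, ?_⟩
  · intro b
    refine ⟨?_, ?_, (Cmp_step hC hsu hk (hmu b) (hmo b)).2⟩
    · have h1 : u = pr s u.length := hsu
      obtain ⟨r, hr⟩ := Nat.exists_eq_add_of_le (hmu b)
      have h2 : u <+: pr s (m b) := by
        rw [hr]
        have h3 := CMstep_pr_add s u.length r
        rw [← h1] at h3
        exact h3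
      exact h2.trans (List.prefix_append _ _)
    · rw [List.length_append, length_pr, List.length_singleton]
      have := hmu b
      omega
  · rintro z ⟨h1, h2⟩
    have h3 := (CMstep_pfx h1).2
    have h4 := (CMstep_pfx h2).1
    have h5 := pr_eq_iff.1 h4 (m false) (by omega)
    have h6 := (Cmp_step hC hsu hk (hmu false) (hmo false)).1
    rw [h6, h3] at h5
    exact Bool.noConfusion h5
  · intro b x t hR hx hxs ht
    refine hN x t hR hx hxs ?_
    have h4 := (CMstep_pfx ht).1
    exact pr_eq_mono h4.symm (hmN b)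

end CpM
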