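import Pool.Agent.Helper27.Cp.Base
import Pool.Agent.Helper27.Cp.P_SSg
import Pool.Agent.Helper27.Cp.P_HB
import Pool.Agent.Helper27.Cp.P_CMstep

set_option autoImplicit false

namespace CpM

open Set



private theorem aux_cont_local {φ : C → Bool} (n : ℕ) (h : ∀ p p' : C, (∀ i < n, p i = p' i) → φ p = φ p') :
    Continuous φ := by
  rw [continuous_iff_continuousAt]
  intro p
  have h1 : ∀ᶠ p' in nhds p, ∀ k ∈ Set.Iio n, p' k = p k := by
    rw [Filter.eventually_all_finite (Set.finite_Iio n)]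
    intro k _
    have h2 : Continuous fun p' : C => p' k := continuous_apply k
    have h3 : {p k} ∈ nhds (p k) := (isOpen_discrete {p k}).mem_nhds rfl
    exact h2.continuousAt.preimage_mem_nhds h3
  refine (continuousAt_const (y := φ p)).congr ?_
  filter_upwards [h1] with p' hp'
  exact h p p' (fun i hi => (hp' i hi).symm)

private theorem aux_ones_nil : (ones (ext [])).ncard = 0 := by
  have : ones (ext []) = ∅ := by
    ext k
    simp [ones, ext]
  rw [this, Set.ncard_empty]

theorem CM (F : ℕ → Set (Cp × Cp)) (hF : ∀ n, IsClosed (F n))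
    (hFU : ∀ n, ∀ (x : ℕ → C) (t : TT), Rel x t.1 → Psi x t ∈ F n →
      ∃ t' : TT, kap t'.1 ≤ n ∧ x (kap t'.1) = t'.1) :
    ∃ (x : ℕ → C) (t : TT), Rel x t.1 ∧ ∀ n, Psi x t ∉ F n := by
  choose H hH1 hH2 using fun j : ℕ => fun u : List Bool => HB (hF j) j u (hFU j)
  obtain ⟨HH, hHH⟩ : ∃ HH : Set C, HH = ⋃ j, ⋃ u, H j u := ⟨_, rfl⟩
  have hHc : HH.Countable := by
    rw [hHH]
    exact Set.countable_iUnion (fun j => Set.countable_iUnion (fun u => hH1 j u))
  have hsub : ∀ j u, H j u ⊆ HH := by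
    intro j u z hz
    rw [hHH, Set.mem_iUnion]
    exact ⟨j, Set.mem_iUnion.2 ⟨u, hz⟩⟩
  have step : ∀ (j : ℕ) (a : ℕ → C) (u : List Bool),
      (Cmp j a u ∧ ∀ l < j, a l ∈ TT ∧ a l ∉ HH) →
      ∃ (s : C) (u' : Bool → List Bool), s ∈ TT ∧ s ∉ HH ∧ kap s = j + 1 ∧
      (∀ b, u <+: u' b ∧ u.length < (u' b).length ∧ Cmp (j + 1) (Function.update a j s) (u' b)) ∧
      (∀ z : C, ¬ (Pfx (u' false) z ∧ Pfx (u' true) z)) ∧
      ∀ b, ∀ (x : ℕ → C) (t : TT), Rel x t.1 → (∀ l < j, x (l + 1) = a l) → x (j + 1) = s →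
        Pfx (u' b) t.1 → Psi x t ∉ F j := by
    intro j a u hI
    exact CMstep (hF j) HH hHc j a u hI.1
      (hH2 j u a hI.1 (fun l hl hm => (hI.2 l hl).2 (hsub j u hm)))
  choose! S U' hSU using step
  obtain ⟨st, hst0, hst⟩ : ∃ st : C → ℕ → (ℕ → C) × List Bool,
      (∀ p, st p 0 = (fun _ _ => false, [])) ∧
      ∀ p j, st p (j + 1) = (Function.update (st p j).1 j (S j (st p j).1 (st p j).2),
        U' j (st p j).1 (st p j).2 (p j)) :=
    ⟨fun p n => Nat.rec (fun _ _ => false, []) (fun j q =>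
      (Function.update q.1 j (S j q.1 q.2), U' j q.1 q.2 (p j))) n, fun _ => rfl, fun _ _ => rfl⟩
  have hInv : ∀ p j, Cmp j (st p j).1 (st p j).2 ∧ ∀ l < j, (st p j).1 l ∈ TT ∧ (st p j).1 l ∉ HH := by
    intro p j
    induction j with
    | zero =>
      rw [hst0]
      refine ⟨⟨aux_ones_nil, fun s _ l hl => absurd hl (Nat.not_lt_zero l)⟩,
        fun l hl => absurd hl (Nat.not_lt_zero l)⟩
    | succ j ih =>
      obtain ⟨h1, h2, h3, h4, h5, h6⟩ := hSU j _ _ ih
      rw [hst]
      refine ⟨(h4 (p j)).2.2, fun l hl => ?_⟩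
      show Function.update (st p j).1 j (S j (st p j).1 (st p j).2) l ∈ TT ∧
        Function.update (st p j).1 j (S j (st p j).1 (st p j).2) l ∉ HH
      by_cases hlj : l = j
      · subst hlj
        rw [Function.update_self]
        exact ⟨h1, h2⟩
      · rw [Function.update_of_ne hlj]
        exact ih.2 l (by omega)
  have hdep : ∀ p p' : C, ∀ j, (∀ i < j, p i = p' i) → st p j = st p' j := by
    intro p p' j
    induction j with
    | zero => intro _; rw [hst0, hst0]
    | succ j ih =>
      intro h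
      rw [hst, hst, ih (fun i hi => h i (by omega)), h j (Nat.lt_succ_self j)]
  have hpre1 : ∀ p j, (st p j).2 <+: (st p (j + 1)).2 ∧ (st p j).2.length < (st p (j + 1)).2.length := by
    intro p j
    obtain ⟨h1, h2, h3, h4, h5, h6⟩ := hSU j _ _ (hInv p j)
    rw [hst]
    exact ⟨(h4 (p j)).1, (h4 (p j)).2.1⟩
  have hpre : ∀ p j j', j ≤ j' → (st p j).2 <+: (st p j').2 := by
    intro p j j' h
    induction j', h using Nat.le_induction with
    | base => exact List.prefix_rfl
    | succ k _ ih => exact ih.trans (hpre1 p k).1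
  have hlen : ∀ p j, j ≤ (st p j).2.length := by
    intro p j
    induction j with
    | zero => exact Nat.zero_le _
    | succ j ih => exact lt_of_le_of_lt ih (hpre1 p j).2
  have hgd : ∀ (l l' : List Bool) (i : ℕ), l <+: l' → i < l.length →
      l'.getD i false = l.getD i false := by
    rintro l l' i ⟨r, rfl⟩ hi
    exact List.getD_append l r false i hi
  obtain ⟨g, hg⟩ : ∃ g : C → C, ∀ p i, g p i = (st p (i + 1)).2.getD i false := ⟨_, fun _ _ => rfl⟩
  have hval : ∀ p j i, i < (st p j).2.length → (st p j).2.getD i false = g p i := by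
    intro p j i hi
    rw [hg]
    rcases Nat.le_total j (i + 1) with h | h
    · exact (hgd _ _ i (hpre p j (i + 1) h) hi).symm
    · exact hgd _ _ i (hpre p (i + 1) j h) (lt_of_lt_of_le (Nat.lt_succ_self i) (hlen p (i + 1)))
  have hPfx : ∀ p j, Pfx (st p j).2 (g p) := by
    intro p j
    unfold Pfx
    apply List.ext_getElem
    · rw [length_pr]
    · intro i h1 h2
      unfold pr
      rw [List.getElem_map, List.getElem_range, ← hval p j i h1, List.getD_eq_getElem]
  have hgc : Continuous g := by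
    refine continuous_pi (fun i => ?_)
    have : Continuous fun p : C => (st p (i + 1)).2.getD i false := by
      refine aux_cont_local (i + 1) (fun p p' h => ?_)
      beta_reduce
      rw [hdep p p' (i + 1) h]
    refine this.congr (fun p => ?_)
    rw [hg]
  have hgi : Function.Injective g := by
    intro p p' hpp
    by_contra hne
    obtain ⟨k, hk⟩ := Function.ne_iff.1 hne
    have hex : ∃ k, p k ≠ p' k := ⟨k, hk⟩
    classical
    have h1 := Nat.find_spec hex
    have h2 : ∀ i < Nat.find hex, p i = p' i := by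
      intro i hi
      by_contra hc
      exact Nat.find_min hex hi hc
    obtain ⟨j, hj⟩ : ∃ j, j = Nat.find hex := ⟨_, rfl⟩
    rw [← hj] at h1 h2
    have h3 := hdep p p' j h2
    have h4 := hPfx p (j + 1)
    have h5 := hPfx p' (j + 1)
    rw [hst] at h4 h5
    rw [← hpp, ← h3] at h5
    obtain ⟨-, -, -, -, h6, -⟩ := hSU j _ _ (hInv p j)
    have h4' : Pfx (U' j (st p j).1 (st p j).2 (p j)) (g p) := h4
    have h5' : Pfx (U' j (st p j).1 (st p j).2 (p' j)) (g p) := h5
    cases hb : p j
    · cases hb' : p' j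
      · rw [hb, hb'] at h1
        exact h1 rfl
      · rw [hb] at h4'
        rw [hb'] at h5'
        exact h6 (g p) ⟨h4', h5'⟩
    · cases hb' : p' j
      · rw [hb] at h4'
        rw [hb'] at h5'
        exact h6 (g p) ⟨h5', h4'⟩
      · rw [hb, hb'] at h1
        exact h1 rfl
  obtain ⟨p, hpT, -⟩ := SSg g hgc hgi ∅ Set.countable_empty
  have hconst : ∀ j l, l < j → (st p j).1 l = (st p (l + 1)).1 l := by
    intro j l hl
    induction j with
    | zero => exact absurd hl (Nat.not_lt_zero l)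
    | succ j ih =>
      by_cases hlj : l = j
      · rw [hlj]
      · have h1 : (st p (j + 1)).1 l = (st p j).1 l := by
          rw [hst]
          show Function.update (st p j).1 j (S j (st p j).1 (st p j).2) l = (st p j).1 l
          rw [Function.update_of_ne hlj]
        rw [h1]
        exact ih (by omega)
  obtain ⟨x, hx0, hx1⟩ : ∃ x : ℕ → C, x 0 = g p ∧ ∀ l, x (l + 1) = (st p (l + 1)).1 l :=
    ⟨fun n => Nat.casesOn n (g p) (fun l => (st p (l + 1)).1 l), rfl, fun _ => rfl⟩
  have hRel : Rel x (⟨g p, hpT⟩ : TT).1 := by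
    refine ⟨hx0, fun l n hn => ?_⟩
    rw [hx1]
    exact (hInv p (l + 1)).1.2 (g p) (hPfx p (l + 1)) l (Nat.lt_succ_self l) n hn
  refine ⟨x, ⟨g p, hpT⟩, hRel, fun j => ?_⟩
  obtain ⟨-, -, -, -, -, h6⟩ := hSU j _ _ (hInv p j)
  refine h6 (p j) x ⟨g p, hpT⟩ hRel (fun l hl => ?_) ?_ ?_
  · rw [hx1, hconst j l hl]
  · rw [hx1, hst]
    show Function.update (st p j).1 j (S j (st p j).1 (st p j).2) j = _
    rw [Function.update_self]
  · have h7 := hPfx p (j + 1)
    rw [hst] at h7
    exact h7

end CpM
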