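import Pool.Agent.Helper27.Cp.Base

set_option autoImplicit false

namespace CpM

open Set



theorem Rel_kap {x : ℕ → C} {s : C} (h : Rel x s) : x (kap s) = s := by
  by_cases hf : (ones s).Finite
  · have hk : kap s = (ones s).ncard + 1 := by
      unfold kap
      rw [if_pos hf]
    rw [hk]
    funext i
    have h1 := h.2 (ones s).ncard (i + 1) (Set.ncard_le_ncard Set.inter_subset_left hf)
    exact pr_eq_iff.1 h1 i (Nat.lt_succ_self i)
  · have hk : kap s = 0 := by
      unfold kap
      rw [if_neg hf]
    rw [hk]
    exact h.1

end CpM
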