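import Pool.Agent.Helper27.Cp.Base
import Pool.Agent.Helper27.Cp.P_EE_valid

set_option autoImplicit false

namespace CpM

open Set



theorem mem_TT {G H : XX → Bool} (hG : G ∈ BB) (hH : H ∈ BB) {z : C} {x : ℕ → C} (h1 : rs G = rs (hF z))
    (h2 : rs H = rs (bF z x)) : z ∈ TT := by
  rintro ⟨⟨z', ⟨y, Q⟩⟩, hp, rfl⟩
  have hv := EE_valid _ hp
  cases y with
  | inf =>
    have hr := hG.2.1 _ hp
    refine hv.1 (hr.subset fun q hq => ⟨hq, ?_⟩)
    change rs G q ≠ rs G .inf
    rw [h1]
    have e1 : rs (hF z') .inf = false := by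
      change hF z' (Sum.inl NN.inf) = false
      simp only [hF]
      rw [decide_eq_false_iff_not]
      exact fun h => h
    have e2 : rs (hF z') q = true := by
      change hF z' (Sum.inl q) = true
      simp only [hF, decide_eq_true_eq]
      exact hv.2.1 hq
    rw [e1, e2]
    simp
  | x s =>
    have hr := hH.2.1 _ hp
    refine hv.1 (hr.subset fun q hq => ⟨hq, ?_⟩)
    change rs H q ≠ rs H (NN.x s)
    rw [h2]
    obtain ⟨r, rfl, hr'⟩ := hv.2.1 hq
    have e1 : rs (bF z' x) (.x s) = false := by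
      change bF z' x (Sum.inl (NN.x s)) = false
      simp [bF, bfull]
    have e2 : rs (bF z' x) (.iso s r) = true := by
      change bF z' x (Sum.inl (NN.iso s r)) = true
      simp only [bF, decide_eq_true_eq]
      exact ⟨s, r, rfl, hv.2.2.2.2 s rfl, hr'⟩
    rw [e1, e2]
    simp
  | pt i => exact hv.ne_pt i rfl

end CpM
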