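import Pool.Agent.Helper27.Cp.Base
import Pool.Agent.Helper27.Cp.P_Psi_val
import Pool.Agent.Helper27.Cp.P_mem_TT
import Pool.Agent.Helper27.Cp.P_rs_inj
import Pool.Agent.Helper27.Cp.P_continuous_iff

set_option autoImplicit false

namespace CpM

open Set



theorem eq_Psi {p : Cp × Cp} {z : C} {x : ℕ → C} (h : RR p = (rs (hF z), rs (bF z x))) :
    ∃ hz : z ∈ TT, p = Psi x ⟨z, hz⟩ := by
  have h1 : rs p.1.1 = rs (hF z) := congrArg Prod.fst h
  have h2 : rs p.2.1 = rs (bF z x) := congrArg Prod.snd h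
  have hG := continuous_iff.1 p.1.2
  have hH := continuous_iff.1 p.2.2
  have hz := mem_TT hG hH h1 h2
  refine ⟨hz, ?_⟩
  obtain ⟨v1, v2⟩ := Psi_val x ⟨z, hz⟩
  have k1 := continuous_iff.1 (Psi x ⟨z, hz⟩).1.2
  have k2 := continuous_iff.1 (Psi x ⟨z, hz⟩).2.2
  apply Prod.ext
  · apply Subtype.ext
    apply rs_inj hG k1
    rw [h1, v1]
  · apply Subtype.ext
    apply rs_inj hH k2
    rw [h2, v2]

end CpM
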