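import Pool.Agent.Helper27.Cp.Base

set_option autoImplicit false

namespace CpM

open Set



private theorem isClosed_Rel_cnt {s s' : C} {n : ℕ} (h : pr s n = pr s' n) : cnt s n = cnt s' n := by
  rw [pr_eq_iff] at h
  unfold cnt
  congr 1
  ext k
  simp only [ones, Set.mem_inter_iff, Set.mem_ofPred_eq, Set.mem_Iio]
  constructor
  · rintro ⟨⟨h1, h2⟩, h3⟩
    exact ⟨⟨h1, by rw [← h k h3]; exact h2⟩, h3⟩
  · rintro ⟨⟨h1, h2⟩, h3⟩
    exact ⟨⟨h1, by rw [h k h3]; exact h2⟩, h3⟩

private theorem isClosed_Rel_ev {X : Type*} [TopologicalSpace X] {f : X → C} (hf : Continuous f) (x : X)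
    (n : ℕ) : ∀ᶠ x' in nhds x, pr (f x') n = pr (f x) n := by
  have h1 : ∀ i ∈ Finset.range n, ∀ᶠ x' in nhds x, f x' i = f x i := by
    intro i _
    have hc : Continuous (fun x' => f x' i) := (continuous_apply i).comp hf
    exact hc.continuousAt ((isOpen_discrete {f x i}).mem_nhds rfl)
  rw [← Filter.eventually_all_finset] at h1
  filter_upwards [h1] with x' hx'
  rw [pr_eq_iff]
  intro i hi
  exact hx' i (Finset.mem_range.2 hi)

theorem isClosed_Rel : IsClosed {p : (ℕ → C) × C | Rel p.1 p.2} := by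
  have h1 : {p : (ℕ → C) × C | Rel p.1 p.2} =
      {p : (ℕ → C) × C | p.1 0 = p.2} ∩
        ⋂ (l : ℕ), ⋂ (n : ℕ), {p : (ℕ → C) × C | cnt p.2 n ≤ l → pr (p.1 (l + 1)) n = pr p.2 n} := by
    ext p
    simp only [Rel, Set.mem_inter_iff, Set.mem_iInter, Set.mem_ofPred_eq]
  rw [h1]
  apply IsClosed.inter
  · exact isClosed_eq ((continuous_apply 0).comp continuous_fst) continuous_snd
  · refine isClosed_iInter (fun l => isClosed_iInter (fun n => ?_))
    rw [← isOpen_compl_iff, isOpen_iff_mem_nhds]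
    intro p hp
    have hp' : ¬ (cnt p.2 n ≤ l → pr (p.1 (l + 1)) n = pr p.2 n) := hp
    have e1 := isClosed_Rel_ev (f := fun p : (ℕ → C) × C => p.2) continuous_snd p n
    have e2 := isClosed_Rel_ev (f := fun p : (ℕ → C) × C => p.1 (l + 1))
      ((continuous_apply (l + 1)).comp continuous_fst) p n
    filter_upwards [e1, e2] with p' h3 h4
    show ¬ (cnt p'.2 n ≤ l → pr (p'.1 (l + 1)) n = pr p'.2 n)
    rw [isClosed_Rel_cnt h3, h3, h4]
    exact hp'

end CpM
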