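import Pool.Agent.Helper27.Cp.Base
import Pool.Agent.Helper27.Cp.P_eq_Psi
import Pool.Agent.Helper27.Cp.P_cont_rs
import Pool.Agent.Helper27.Cp.P_isClosed_Rel
import Pool.Agent.Helper27.Cp.P_Psi_val

set_option autoImplicit false

namespace CpM

open Set



theorem isClosed_RS : IsClosed RS := by
  classical
  have hRR : Continuous RR := by
    unfold RR
    refine Continuous.prodMk ?_ ?_
    · refine continuous_pi fun q => ?_
      exact (continuous_apply (il q)).comp (continuous_subtype_val.comp continuous_fst)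
    · refine continuous_pi fun q => ?_
      exact (continuous_apply (il q)).comp (continuous_subtype_val.comp continuous_snd)
  have hK : IsClosed ((fun p : (ℕ → C) × C => ((rs (hF p.2), rs (bF p.2 p.1)) : Fn × Fn)) ''
      {p : (ℕ → C) × C | Rel p.1 p.2}) :=
    (isClosed_Rel.isCompact.image cont_rs).isClosed
  have hEq : RS = RR ⁻¹' ((fun p : (ℕ → C) × C => ((rs (hF p.2), rs (bF p.2 p.1)) : Fn × Fn)) ''
      {p : (ℕ → C) × C | Rel p.1 p.2}) := by
    ext p
    constructor
    · rintro ⟨t, x, hrel, rfl⟩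
      refine ⟨(x, t.1), hrel, ?_⟩
      have h := Psi_val x t
      simp only [RR]
      rw [h.1, h.2]
    · rintro ⟨⟨x, z⟩, hrel, heq⟩
      obtain ⟨hz, hp⟩ := eq_Psi heq.symm
      exact ⟨⟨z, hz⟩, x, hrel, hp⟩
  rw [hEq]
  exact hK.preimage hRR

end CpM
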