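import Pool.Agent.Helper27.Cp.Base
import Pool.Agent.Helper27.Cp.P_isClosed_RS
import Pool.Agent.Helper27.Cp.P_Rel_kap
import Pool.Agent.Helper27.Cp.P_Psi_val

set_option autoImplicit false

namespace CpM

open Set



theorem UU_cover : (∀ n, IsOpen (UU n)) ∧ (∀ n m, n ≤ m → UU n ⊆ UU m) ∧ ∀ p, ∃ n, p ∈ UU n := by
  refine ⟨?_, ?_, ?_⟩
  · intro n
    refine (isClosed_RS.isOpen_compl).union ?_
    have h : {p : Cp × Cp | ∃ t : TT, kap t.1 ≤ n ∧ p.2.1 (ir t) = true} =
        ⋃ t : TT, {p : Cp × Cp | kap t.1 ≤ n ∧ p.2.1 (ir t) = true} := by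
      ext p
      simp
    rw [h]
    refine isOpen_iUnion (fun t => ?_)
    by_cases ht : kap t.1 ≤ n
    · have hc : Continuous (fun p : Cp × Cp => p.2.1 (ir t)) :=
        (continuous_apply (ir t)).comp (continuous_subtype_val.comp continuous_snd)
      have h2 : {p : Cp × Cp | kap t.1 ≤ n ∧ p.2.1 (ir t) = true} =
          (fun p : Cp × Cp => p.2.1 (ir t)) ⁻¹' {true} := by
        ext p
        simp [ht]
      rw [h2]
      exact (isOpen_discrete _).preimage hc
    · have h2 : {p : Cp × Cp | kap t.1 ≤ n ∧ p.2.1 (ir t) = true} = ∅ := by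
        ext p
        simp [ht]
      rw [h2]
      exact isOpen_empty
  · intro n m hnm p hp
    rcases hp with hp | ⟨t, ht, hp⟩
    · exact Or.inl hp
    · exact Or.inr ⟨t, le_trans ht hnm, hp⟩
  · intro p
    by_cases hp : p ∈ RS
    · obtain ⟨t, x, hx, rfl⟩ := hp
      refine ⟨kap t.1, Or.inr ⟨t, le_rfl, ?_⟩⟩
      rw [(Psi_val x t).2]
      show bF t.1 x (Sum.inr t) = true
      simp only [bF]
      simp [Rel_kap hx]
    · exact ⟨0, Or.inl hp⟩

end CpM
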