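import Pool.Agent.Helper27.Cp.Base
import Pool.Agent.Helper27.Cp.P_exists_nhd
import Pool.Agent.Helper27.Cp.P_continuous_iff

set_option autoImplicit false

namespace CpM

open Set



theorem basis_clopen : TopologicalSpace.IsTopologicalBasis {s : Set XX | IsClopen s} := by
  refine TopologicalSpace.isTopologicalBasis_of_isOpen_of_nhds (fun u hu => hu.2) ?_
  intro a u ha hu
  obtain ⟨I, hI⟩ := exists_nhd hu ha
  refine ⟨⋂ g ∈ I, {x | g.1 x = g.1 a}, ?_, ?_, ?_⟩
  · refine isClopen_biInter_finset fun g _ => ?_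
    exact (isClopen_discrete {b : Bool | b = g.1 a}).preimage (continuous_iff.2 g.2)
  · exact mem_iInter₂.2 fun g _ => rfl
  · intro x hx
    exact hI x (mem_iInter₂.1 hx)

end CpM
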