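import Pool.Agent.Helper27.Cp.Base
import Pool.Agent.Helper27.Cp.P_EE_valid
import Pool.Agent.Helper27.Cp.P_bra_mem

set_option autoImplicit false

namespace CpM

open Set



/-- a point of the Cantor set extending `s` -/
private def ev_ext (s : List Bool) : C := fun i => s.getD i false

private theorem ev_pfx_ext (s : List Bool) : Pfx s (ev_ext s) := by
  unfold Pfx pr ev_ext
  apply List.ext_getElem
  · simp
  · intro n h1 h2
    simp only [List.getElem_map, List.getElem_range]
    rw [List.getD_eq_getElem _ _ h1]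

open Classical in
/-- characteristic function of an isolated point -/
private noncomputable def ev_deltaF (a : NN) : XX → Bool
  | Sum.inl q => decide (q = a)
  | Sum.inr _ => false

open Classical in
/-- characteristic function of a block -/
private noncomputable def ev_blkF (s : List Bool) : XX → Bool
  | Sum.inl q => decide (q = NN.x s ∨ q ∈ blk s)
  | Sum.inr _ => false

open Classical in
/-- characteristic function of an extra block -/
private noncomputable def ev_ptF (i : ℕ) : XX → Bool
  | Sum.inl q => decide (q = NN.pt i ∨ q ∈ tblk i)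
  | Sum.inr t => decide (kap t.1 = i)

private theorem ev_deltaF_mem (a : NN) (ha : ∀ y, pnt y ≠ a) : ev_deltaF a ∈ BB := by
  have h1 : ∀ q, rs (ev_deltaF a) q = true ↔ q = a := by
    intro q; simp [rs, ev_deltaF, il]
  have hp : ∀ y, rs (ev_deltaF a) (pnt y) = false := by
    intro y
    rw [← Bool.not_eq_true, h1]
    exact ha y
  have h2 : {q | rs (ev_deltaF a) q ≠ false}.Finite := by
    refine (finite_singleton a).subset fun q hq => ?_
    have hq' : rs (ev_deltaF a) q ≠ false := hq
    rw [ne_eq, Bool.not_eq_false] at hq'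
    exact (h1 q).1 hq'
  refine ⟨?_, ?_, ?_⟩
  · intro y
    refine ⟨h2.toFinset, ∅, fun q _ hne => Or.inl ?_⟩
    rw [hp] at hne
    exact (Set.Finite.mem_toFinset _).2 hne
  · intro p _
    refine h2.subset ?_
    rintro q ⟨_, hne⟩
    rw [hp] at hne
    exact hne
  · intro t
    refine h2.subset ?_
    rintro q ⟨_, hne⟩
    exact hne

private theorem ev_blkF_mem (s : List Bool) : ev_blkF s ∈ BB := by
  have hq : ∀ q, rs (ev_blkF s) q = true ↔ q = NN.x s ∨ q ∈ blk s := by
    intro q; simp [rs, ev_blkF, il]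
  have hinf : rs (ev_blkF s) NN.inf = false := by
    rw [← Bool.not_eq_true, hq]
    rintro (h | ⟨r, h⟩) <;> cases h
  have hpt : ∀ i, rs (ev_blkF s) (NN.pt i) = false := by
    intro i
    rw [← Bool.not_eq_true, hq]
    rintro (h | ⟨r, h⟩) <;> cases h
  have hbi : ∀ i r, rs (ev_blkF s) (NN.bi i r) = false := by
    intro i r
    rw [← Bool.not_eq_true, hq]
    rintro (h | ⟨r, h⟩) <;> cases h
  have hconst : ∀ s' r, rs (ev_blkF s) (NN.iso s' r) = rs (ev_blkF s) (NN.x s') := by
    intro s' r
    rw [Bool.eq_iff_iff, hq, hq]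
    constructor
    · rintro (h | ⟨r', h⟩)
      · cases h
      · simp only [NN.iso.injEq] at h
        left; rw [h.1]
    · rintro (h | ⟨r', h⟩)
      · simp only [NN.x.injEq] at h
        right; exact ⟨r, by rw [h]⟩
      · cases h
  refine ⟨?_, ?_, ?_⟩
  · intro y
    cases y with
    | inf =>
      refine ⟨∅, {ev_ext s}, fun q _ hne => Or.inr ⟨ev_ext s, Finset.mem_singleton_self _, ?_⟩⟩
      change rs (ev_blkF s) q ≠ rs (ev_blkF s) NN.inf at hne
      rw [hinf, ne_eq, Bool.not_eq_false, hq] at hne
      rcases hne with rfl | ⟨r, rfl⟩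
      · exact ev_pfx_ext s
      · exact ev_pfx_ext s
    | x s' =>
      refine ⟨∅, ∅, ?_⟩
      rintro q ⟨r, rfl⟩ hne
      exact absurd (hconst s' r) hne
    | pt i =>
      refine ⟨∅, ∅, ?_⟩
      rintro q ⟨r, rfl⟩ hne
      exact absurd ((hbi i r).trans (hpt i).symm) hne
  · rintro ⟨z, ⟨y, Q⟩⟩ hp
    have hv := EE_valid _ hp
    cases y with
    | inf =>
      refine (hv.2.2.2.1 s rfl).subset ?_
      rintro q ⟨hqQ, hne⟩
      refine ⟨hqQ, ?_⟩
      change rs (ev_blkF s) q ≠ rs (ev_blkF s) NN.inf at hne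
      rw [hinf, ne_eq, Bool.not_eq_false, hq] at hne
      rcases hne with rfl | h
      · obtain ⟨s', r', h'⟩ := hv.2.2.1 _ hqQ
        cases h'
      · exact h
    | x s' =>
      refine finite_empty.subset ?_
      rintro q ⟨hqQ, hne⟩
      obtain ⟨r, rfl⟩ := hv.subset_dom hqQ
      exact hne (hconst s' r)
    | pt i => exact absurd rfl (hv.ne_pt i)
  · intro t
    refine finite_empty.subset ?_
    rintro q ⟨⟨r, rfl, _⟩, hne⟩
    exact hne (hbi _ r)

private theorem ev_ptF_mem (i : ℕ) : ev_ptF i ∈ BB := by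
  have hq : ∀ q, rs (ev_ptF i) q = true ↔ q = NN.pt i ∨ q ∈ tblk i := by
    intro q; simp [rs, ev_ptF, il]
  have hinf : rs (ev_ptF i) NN.inf = false := by
    rw [← Bool.not_eq_true, hq]
    rintro (h | ⟨r, h⟩) <;> cases h
  have hx : ∀ s, rs (ev_ptF i) (NN.x s) = false := by
    intro s
    rw [← Bool.not_eq_true, hq]
    rintro (h | ⟨r, h⟩) <;> cases h
  have hiso : ∀ s r, rs (ev_ptF i) (NN.iso s r) = false := by
    intro s r
    rw [← Bool.not_eq_true, hq]
    rintro (h | ⟨r, h⟩) <;> cases h
  have hconst : ∀ j r, rs (ev_ptF i) (NN.bi j r) = rs (ev_ptF i) (NN.pt j) := by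
    intro j r
    rw [Bool.eq_iff_iff, hq, hq]
    constructor
    · rintro (h | ⟨r', h⟩)
      · cases h
      · simp only [NN.bi.injEq] at h
        left; rw [h.1]
    · rintro (h | ⟨r', h⟩)
      · simp only [NN.pt.injEq] at h
        right; exact ⟨r, by rw [h]⟩
      · cases h
  refine ⟨?_, ?_, ?_⟩
  · intro y
    cases y with
    | inf =>
      refine ⟨∅, ∅, fun q hqd hne => ?_⟩
      exfalso
      apply hne
      change rs (ev_ptF i) q = rs (ev_ptF i) NN.inf
      rw [hinf]
      cases q with
      | inf => exact hinf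
      | x s => exact hx s
      | iso s r => exact hiso s r
      | pt j => exact hqd.elim
      | bi j r => exact hqd.elim
    | x s' =>
      refine ⟨∅, ∅, ?_⟩
      rintro q ⟨r, rfl⟩ hne
      exact absurd ((hiso s' r).trans (hx s').symm) hne
    | pt j =>
      refine ⟨∅, ∅, ?_⟩
      rintro q ⟨r, rfl⟩ hne
      exact absurd (hconst j r) hne
  · rintro ⟨z, ⟨y, Q⟩⟩ hp
    have hv := EE_valid _ hp
    cases y with
    | inf =>
      refine finite_empty.subset ?_
      rintro q ⟨hqQ, hne⟩
      obtain ⟨s, r, rfl⟩ := hv.2.2.1 _ hqQ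
      exact hne ((hiso s r).trans hinf.symm)
    | x s' =>
      refine finite_empty.subset ?_
      rintro q ⟨hqQ, hne⟩
      obtain ⟨s, r, rfl⟩ := hv.2.2.1 _ hqQ
      exact hne ((hiso s r).trans (hx s').symm)
    | pt i => exact absurd rfl (hv.ne_pt i)
  · intro t
    refine finite_empty.subset ?_
    rintro q ⟨⟨r, rfl, _⟩, hne⟩
    apply hne
    rw [hconst, Bool.eq_iff_iff, hq]
    simp only [ev_ptF, ir, decide_eq_true_eq]
    constructor
    · rintro (h | ⟨r', h⟩)
      · simpa using h
      · cases h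
    · intro h
      left
      rw [h]

private theorem ev_aux {a b : XX} (hev : ∀ F ∈ BB, F a = F b) {q : NN} (hq : ∀ y, pnt y ≠ q)
    (ha : a = il q) : b = a := by
  have h1 := hev _ (ev_deltaF_mem q hq)
  have h2 : ev_deltaF q a = true := by rw [ha]; simp [ev_deltaF, il]
  rw [h2] at h1
  rcases b with q' | t
  · have h3 : q' = q := by
      have := h1.symm
      simpa [ev_deltaF] using this
    rw [ha, h3]; rfl
  · have := h1.symm
    simp [ev_deltaF] at this

private theorem ev_aux_iso (s r : List Bool) : ∀ y, pnt y ≠ NN.iso s r := by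
  intro y h; cases y <;> cases h

private theorem ev_aux_bi (i : ℕ) (r : List Bool) : ∀ y, pnt y ≠ NN.bi i r := by
  intro y h; cases y <;> cases h

private theorem ev_aux2 {a b : XX} (hev : ∀ F ∈ BB, F a = F b) {s : List Bool} (ha : a = il (NN.x s)) :
    a = b := by
  have h1 := hev _ (ev_blkF_mem s)
  have h2 : ev_blkF s a = true := by rw [ha]; simp [ev_blkF, il]
  rw [h2] at h1
  rcases b with q | t
  · have h3 : q = NN.x s ∨ q ∈ blk s := by
      have := h1.symm
      simpa [ev_blkF] using this
    rcases h3 with rfl | ⟨r, rfl⟩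
    · exact ha
    · exact ev_aux (fun F hF => (hev F hF).symm) (q := NN.iso s r) (ev_aux_iso s r) rfl
  · have := h1.symm
    simp [ev_blkF] at this

private theorem ev_aux3 {a b : XX} (hev : ∀ F ∈ BB, F a = F b) {t : TT} (ha : a = ir t) : a = b := by
  have h1 := hev _ (bra_mem (fun _ => t.1) {kap t.1})
  rw [ha] at h1
  have h2 := h1.symm
  rcases b with q | t'
  · cases q with
    | bi i r => exact ev_aux (fun F hF => (hev F hF).symm) (q := NN.bi i r) (ev_aux_bi i r) rfl
    | inf => simp [ir] at h2
    | x s => simp [ir] at h2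
    | iso s r => simp [ir] at h2
    | pt i => simp [ir] at h2
  · have h3 : kap t'.1 = kap t.1 ∧ t.1 = t'.1 := by
      simpa [ir] using h2
    rw [ha, Subtype.ext h3.2]; rfl

private theorem ev_aux4 {a b : XX} (hev : ∀ F ∈ BB, F a = F b) {i : ℕ} (ha : a = il (NN.pt i)) :
    a = b := by
  have h1 := hev _ (ev_ptF_mem i)
  have h2 : ev_ptF i a = true := by rw [ha]; simp [ev_ptF, il]
  rw [h2] at h1
  rcases b with q | t
  · have h3 : q = NN.pt i ∨ q ∈ tblk i := by
      have := h1.symm
      simpa [ev_ptF] using this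
    rcases h3 with rfl | ⟨r, rfl⟩
    · exact ha
    · exact ev_aux (fun F hF => (hev F hF).symm) (q := NN.bi i r) (ev_aux_bi i r) rfl
  · exact (ev_aux3 (fun F hF => (hev F hF).symm) (t := t) rfl).symm

theorem ev_injective : Function.Injective ev := by
  intro a b hab
  have hev : ∀ F ∈ BB, F a = F b := fun F hF => congrFun hab ⟨F, hF⟩
  have hev' : ∀ F ∈ BB, F b = F a := fun F hF => (hev F hF).symm
  rcases a with a | a
  · rcases b with b | b
    · cases a with
      | iso s r => exact (ev_aux hev (q := NN.iso s r) (ev_aux_iso s r) rfl).symm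
      | bi i r => exact (ev_aux hev (q := NN.bi i r) (ev_aux_bi i r) rfl).symm
      | x s => exact ev_aux2 hev (s := s) rfl
      | pt i => exact ev_aux4 hev (i := i) rfl
      | inf =>
        cases b with
        | iso s r => exact ev_aux hev' (q := NN.iso s r) (ev_aux_iso s r) rfl
        | bi i r => exact ev_aux hev' (q := NN.bi i r) (ev_aux_bi i r) rfl
        | x s => exact (ev_aux2 hev' (s := s) rfl).symm
        | pt i => exact (ev_aux4 hev' (i := i) rfl).symm
        | inf => rfl
    · exact (ev_aux3 hev' (t := b) rfl).symm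
  · exact ev_aux3 hev (t := a) rfl

end CpM
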