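import Pool.Agent.Helper27.Cp.Base
import Pool.Agent.Helper27.Cp.P_CM
import Pool.Agent.Helper27.Cp.P_UU_cover
import Pool.Agent.Helper27.Cp.P_Psi_val

set_option autoImplicit false

namespace CpM

open Set



/-- the square is not countably metacompact -/
theorem not_ccm (F : ℕ → Set (Cp × Cp)) (hF : ∀ n, IsClosed (F n)) (hFU : ∀ n, F n ⊆ UU n) :
    ∃ p, ∀ n, p ∉ F n := by
  obtain ⟨x, t, -, h⟩ := CM F hF (by
    intro n x t hrel hmem
    rcases hFU n hmem with h1 | ⟨t', h1, h2⟩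
    · exact absurd ⟨t, x, hrel, rfl⟩ h1
    · refine ⟨t', h1, ?_⟩
      rw [(Psi_val x t).2] at h2
      unfold bF ir at h2
      simpa using h2)
  exact ⟨Psi x t, h⟩

end CpM
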