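import Pool.Agent.Helper27.Cp.Base
import Pool.Agent.Helper27.Cp.P_not_ccm
import Pool.Agent.Helper27.Cp.P_UU_cover

set_option autoImplicit false

namespace CpM

open Set



theorem not_lindelof : ¬ LindelofSpace (Cp × Cp) := by
  intro hL
  obtain ⟨ho, hmono, hc⟩ := UU_cover
  choose n hn using hc
  have hreg : ∀ p : Cp × Cp, ∃ K ∈ nhds p, IsClosed K ∧ K ⊆ UU (n p) := fun p =>
    exists_mem_nhds_isClosed_subset ((ho (n p)).mem_nhds (hn p))
  choose K hK1 hK2 hK3 using hreg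
  obtain ⟨t, ht, htU⟩ := LindelofSpace.elim_nhds_subcover K hK1
  obtain ⟨p0, -⟩ := not_ccm (fun _ => ∅) (fun _ => isClosed_empty) (fun _ => Set.empty_subset _)
  have hne : t.Nonempty := by
    have : p0 ∈ ⋃ x ∈ t, K x := by rw [htU]; exact Set.mem_univ _
    rw [Set.mem_iUnion₂] at this
    obtain ⟨x, hx, -⟩ := this
    exact ⟨x, hx⟩
  obtain ⟨f, rfl⟩ := ht.exists_eq_range hne
  obtain ⟨p, hp⟩ := not_ccm (fun N => ⋃ i ∈ {i : ℕ | i ≤ N ∧ n (f i) ≤ N}, K (f i))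
    (fun N => Set.Finite.isClosed_biUnion ((Set.finite_Iic N).subset fun i hi => hi.1)
      fun i _ => hK2 (f i))
    (fun N => Set.iUnion₂_subset fun i hi => (hK3 (f i)).trans (hmono _ _ hi.2))
  have hpm : p ∈ ⋃ x ∈ Set.range f, K x := by rw [htU]; exact Set.mem_univ _
  rw [Set.mem_iUnion₂] at hpm
  obtain ⟨_, ⟨i, rfl⟩, hpi⟩ := hpm
  apply hp (max i (n (f i)))
  rw [Set.mem_iUnion₂]
  exact ⟨i, ⟨le_max_left _ _, le_max_right _ _⟩, hpi⟩

end CpM
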