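import Pool.Agent.Helper27.Cp.Base
import Pool.Agent.Helper27.Cp.P_not_ccm
import Pool.Agent.Helper27.Cp.P_UU_cover

set_option autoImplicit false

namespace CpM

open Set



theorem not_metacompact : ¬ Metacompact (Cp × Cp) := by
  classical
  intro h
  obtain ⟨hU1, hU2, hU3⟩ := UU_cover
  obtain ⟨𝒱, hV1, hV2, hV3, hV4⟩ := h (Set.range UU) (by rintro _ ⟨n, rfl⟩; exact hU1 n) (by
    rw [Set.eq_univ_iff_forall]
    intro p
    obtain ⟨n, hn⟩ := hU3 p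
    exact ⟨UU n, ⟨n, rfl⟩, hn⟩)
  have hn : ∀ V : Set (Cp × Cp), ∃ n, V ∈ 𝒱 → V ⊆ UU n := by
    intro V
    by_cases hV : V ∈ 𝒱
    · obtain ⟨U, ⟨n, rfl⟩, hU⟩ := hV3 V hV
      exact ⟨n, fun _ => hU⟩
    · exact ⟨0, fun h' => absurd h' hV⟩
  choose nV hnV using hn
  obtain ⟨p, hp⟩ := not_ccm (fun N => {p | ∀ V ∈ 𝒱, p ∈ V → nV V ≤ N}) (by
    intro N
    rw [← isOpen_compl_iff]
    have e : {p : Cp × Cp | ∀ V ∈ 𝒱, p ∈ V → nV V ≤ N}ᶜ =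
        ⋃₀ {V | V ∈ 𝒱 ∧ N < nV V} := by
      ext p
      constructor
      · intro hp
        have hp' : ¬ ∀ V ∈ 𝒱, p ∈ V → nV V ≤ N := hp
        push Not at hp'
        obtain ⟨V, hV, hpV, hlt⟩ := hp'
        exact ⟨V, ⟨hV, hlt⟩, hpV⟩
      · rintro ⟨V, ⟨hV, hlt⟩, hpV⟩ hp
        exact absurd (hp V hV hpV) (not_le.2 hlt)
    rw [e]
    exact isOpen_sUnion fun V hV => hV1 V hV.1) (by
    intro N p hp
    have hpu : p ∈ ⋃₀ 𝒱 := by rw [hV2]; trivial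
    obtain ⟨V, hV, hpV⟩ := hpu
    exact hU2 _ _ (hp V hV hpV) (hnV V hV hpV))
  have hfin := hV4 p
  apply hp (hfin.toFinset.sup nV)
  intro V hV hpV
  exact Finset.le_sup (f := nV) (hfin.mem_toFinset.2 ⟨hV, hpV⟩)

end CpM
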