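import Pool.Agent.Helper27.Cp.Base
import Pool.Agent.Helper27.Cp.P_not_ccm
import Pool.Agent.Helper27.Cp.P_UU_cover

set_option autoImplicit false

namespace CpM

open Set



private theorem not_subparacompact_closed {P : Type} [TopologicalSpace P] (ℋ : Set (Set P))
    (hcl : ∀ H ∈ ℋ, IsClosed H)
    (hd : ∀ p : P, ∃ O, IsOpen O ∧ p ∈ O ∧ {H | H ∈ ℋ ∧ (H ∩ O).Nonempty}.Subsingleton)
    (S : Set (Set P)) (hS : S ⊆ ℋ) : IsClosed (⋃₀ S) := by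
  rw [← isOpen_compl_iff, isOpen_iff_forall_mem_open]
  intro p hp
  obtain ⟨O, hO, hpO, hsub⟩ := hd p
  by_cases h : ∃ H ∈ S, (H ∩ O).Nonempty
  · obtain ⟨H0, hH0, hne⟩ := h
    refine ⟨O ∩ H0ᶜ, ?_, hO.inter (hcl H0 (hS hH0)).isOpen_compl, hpO, fun h => hp ⟨H0, hH0, h⟩⟩
    rintro q ⟨hqO, hq0⟩ ⟨H, hH, hqH⟩
    have : H = H0 := hsub ⟨hS hH, ⟨q, hqH, hqO⟩⟩ ⟨hS hH0, hne⟩
    rw [this] at hqH
    exact hq0 hqH
  · refine ⟨O, ?_, hO, hpO⟩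
    rintro q hqO ⟨H, hH, hqH⟩
    exact h ⟨H, hH, ⟨q, hqH, hqO⟩⟩

theorem not_subparacompact : ¬ Subparacompact (Cp × Cp) := by
  intro h
  obtain ⟨hop, hmono, hcov⟩ := UU_cover
  obtain ⟨ℋ, h1, h2, h3⟩ := h (Set.range UU) (by
    rintro _ ⟨n, rfl⟩
    exact hop n) (by
    rw [Set.eq_univ_iff_forall]
    intro p
    obtain ⟨n, hn⟩ := hcov p
    exact ⟨UU n, ⟨n, rfl⟩, hn⟩)
  obtain ⟨p, hp⟩ := not_ccm (fun n => ⋃ k ∈ Set.Iic n, ⋃₀ {H | H ∈ ℋ k ∧ H ⊆ UU n}) (by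
    intro n
    apply (Set.finite_Iic n).isClosed_biUnion
    intro k _
    exact not_subparacompact_closed (ℋ k) (fun H hH => (h1 k H hH).1) (fun p => h3 k p) _
      (fun H hH => hH.1)) (by
    intro n q hq
    rw [Set.mem_iUnion₂] at hq
    obtain ⟨k, _, H, hH, hqH⟩ := hq
    exact hH.2 hqH)
  have hpu : p ∈ ⋃ n, ⋃₀ ℋ n := by rw [h2]; trivial
  rw [Set.mem_iUnion] at hpu
  obtain ⟨k, H, hH, hpH⟩ := hpu
  obtain ⟨U, ⟨m, rfl⟩, hHU⟩ := (h1 k H hH).2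
  apply hp (max k m)
  rw [Set.mem_iUnion₂]
  exact ⟨k, le_max_left k m, H, ⟨hH, hHU.trans (hmono m _ (le_max_right k m))⟩, hpH⟩

end CpM
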