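import Pool.Agent.Helper27.Cp.Base
import Pool.Agent.Helper27.Cp.P_isLindelof_BB
import Pool.Agent.Helper27.Cp.P_continuous_iff
import Pool.Agent.Helper27.Cp.P_basis_clopen
import Pool.Agent.Helper27.Cp.P_ev_injective
import Pool.Agent.Helper27.Cp.P_not_lindelof
import Pool.Agent.Helper27.Cp.P_not_metacompact
import Pool.Agent.Helper27.Cp.P_not_subparacompact

set_option autoImplicit false

namespace CpM

open Set



theorem final : ∃ (X : Type) (_ : TopologicalSpace X), T35Space X ∧
    TopologicalSpace.IsTopologicalBasis {s : Set X | IsClopen s} ∧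
    LindelofSpace {f : X → Bool // Continuous f} ∧
    ¬ LindelofSpace ({f : X → Bool // Continuous f} × {f : X → Bool // Continuous f}) ∧
    ¬ Metacompact ({f : X → Bool // Continuous f} × {f : X → Bool // Continuous f}) ∧
    ¬ Subparacompact ({f : X → Bool // Continuous f} × {f : X → Bool // Continuous f}) := by
  refine ⟨XX, inferInstance, ?_, basis_clopen, ?_, not_lindelof, not_metacompact,
    not_subparacompact⟩
  · exact (Topology.IsEmbedding.mk ⟨rfl⟩ ev_injective).t35Space
  · have h1 : BB = {f : XX → Bool | Continuous f} := by
      ext F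
      exact continuous_iff.symm
    have h2 : IsLindelof {f : XX → Bool | Continuous f} := h1 ▸ isLindelof_BB
    exact isLindelof_iff_lindelofSpace.1 h2

end CpM
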